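import Mathlib
import Pool.Agent.TH335.RF.P9
set_option autoImplicit false

/-! The unit sphere of `ℝ^(k+m)` fibred over the unit ball of `ℝ^m`, and the Fourier transform in
these coordinates. -/

namespace Pool.Agent.Helper66x.AR

open MeasureTheory Set Complex Metric
open scoped ENNReal RealInnerProductSpace
open Pool.Agent.H789R2.FR (E sg T sg_finite sg_ae)
open Pool.Agent.H438R2.BR (Phi J J_mp Q J_inner bipolar)
open Pool.Agent.H438R2.BR.T10 (e0 e0_norm sg_one)
open Pool.Agent.H438R2.PD (P1 P2 P1_meas P2_meas T_meas')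
open Pool.Agent.TH335.RF (wt wt_meas wt_nonneg wt_pos wt_le_one FB up U U_meas graph_lint P1_J P2_J
  e0_zero co_meas)

variable {k m : ℕ}

/-- the point of the sphere over `y` in the direction `u` -/
noncomputable def pt (p : E m × E k) : E (k + m) := J (wt p.1 • p.2) p.1

theorem pt_meas : Measurable (pt : E m × E k → E (k + m)) := by
  have h1 : Measurable fun p : E k × E m => J p.1 p.2 := (J_mp k m).measurable
  have h2 : Measurable fun p : E m × E k => ((wt p.1 • p.2, p.1) : E k × E m) :=
    ((wt_meas.comp measurable_fst).smul measurable_snd).prodMk measurable_fst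
  exact h1.comp h2

/-- the weight of the fibres -/
theorem wtp_meas (j : ℕ) : Measurable fun y : E m => ENNReal.ofReal (wt y ^ j) :=
  (wt_meas.pow_const j).ennreal_ofReal

theorem slice_lint (hk : 2 ≤ k) (hm : 1 ≤ m) (f : E (k + m) → ℝ≥0∞) (hf : Measurable f) :
    ∫⁻ z, f z ∂(sg (k + m)) = ∫⁻ y in ball (0 : E m) 1, ENNReal.ofReal (wt y ^ (k - 2)) *
      ∫⁻ u, f (pt (y, u)) ∂(sg k) := by
  have f1 : IsFiniteMeasure (sg k) := sg_finite _
  have f2 : IsFiniteMeasure (sg m) := sg_finite _
  have f3 : IsFiniteMeasure (sg 1) := sg_finite _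
  have hJm : Measurable fun p : E k × E m => J p.1 p.2 := (J_mp k m).measurable
  set h : E (1 + m) → ℝ≥0∞ := fun q => ENNReal.ofReal (((P1 1 m q) 0) ^ (k - 1)) *
    ∫⁻ u, f (J (((P1 1 m q) 0) • u) (P2 1 m q)) ∂(sg k) with hh
  have hm1 : Measurable fun p : E (1 + m) × E k => f (J (((P1 1 m p.1) 0) • p.2) (P2 1 m p.1)) := by
    have : Measurable fun p : E (1 + m) × E k =>
        ((((P1 1 m p.1) 0) • p.2, P2 1 m p.1) : E k × E m) :=
      (((co_meas m).comp measurable_fst).smul measurable_snd).prodMk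
        ((P2_meas 1 m).comp measurable_fst)
    exact hf.comp (hJm.comp this)
  have hhm : Measurable h :=
    (((co_meas m).pow_const _).ennreal_ofReal).mul hm1.lintegral_prod_right'
  have g1 := graph_lint hm h hhm
  have e1 : ∫⁻ y in ball (0 : E m) 1, ENNReal.ofReal (wt y)⁻¹ * h (up y) =
      ∫⁻ y in ball (0 : E m) 1, ENNReal.ofReal (wt y ^ (k - 2)) *
      ∫⁻ u, f (pt (y, u)) ∂(sg k) := by
    refine setLIntegral_congr_fun measurableSet_ball fun y hy => ?_
    have hw := wt_pos hy
    simp only [hh]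
    have e2 : (P1 1 m (up y)) 0 = wt y := by
      unfold up
      rw [P1_J, PiLp.smul_apply, e0_zero, smul_eq_mul, mul_one]
    have e3 : P2 1 m (up y) = y := by unfold up; rw [P2_J]
    rw [e2, e3, ← mul_assoc, ← ENNReal.ofReal_mul (by positivity)]
    congr 2
    have : k - 1 = (k - 2) + 1 := by omega
    rw [this, pow_succ]
    field_simp
  rw [← e1, ← g1, ← lintegral_indicator (U_meas m), bipolar k m (by omega) hm f hf,
    bipolar 1 m le_rfl hm _ (hhm.indicator (U_meas m))]
  refine setLIntegral_congr_fun (by unfold Q; exact measurableSet_Ioo) fun θ hθ => ?_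
  have hc := Pool.Agent.H438R2.BR.T7.cos_pos_Q hθ
  rw [Nat.sub_self, pow_zero, one_mul, sg_one]
  have h1 : ∀ v : E m, (U m).indicator h (J (Real.cos θ • e0) (Real.sin θ • v)) =
      ENNReal.ofReal (Real.cos θ ^ (k - 1)) *
        ∫⁻ u, f (J (Real.cos θ • u) (Real.sin θ • v)) ∂(sg k) := by
    intro v
    rw [indicator_of_mem]
    · simp only [hh]
      rw [P1_J, P2_J, PiLp.smul_apply, e0_zero, smul_eq_mul, mul_one]
    · unfold U
      rw [mem_ofPred_eq, P1_J, PiLp.smul_apply, e0_zero]
      simpa using hc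
  have h2 : ∀ v : E m, (U m).indicator h (J (Real.cos θ • (-e0)) (Real.sin θ • v)) = 0 := by
    intro v
    apply indicator_of_notMem
    unfold U
    rw [mem_ofPred_eq, P1_J, PiLp.smul_apply, PiLp.neg_apply, e0_zero]
    simp
    linarith
  simp only [h1, h2, lintegral_zero, add_zero]
  have hm2 : Measurable fun p : E k × E m => f (J (Real.cos θ • p.1) (Real.sin θ • p.2)) := by
    have : Measurable fun p : E k × E m =>
        ((Real.cos θ • p.1, Real.sin θ • p.2) : E k × E m) := by fun_prop
    exact hf.comp (hJm.comp this)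
  rw [lintegral_const_mul' _ _ ENNReal.ofReal_ne_top,
    lintegral_lintegral_swap (f := fun u v => f (J (Real.cos θ • u) (Real.sin θ • v)))
      hm2.aemeasurable, ← mul_assoc, ← ENNReal.ofReal_mul
      (pow_nonneg (Pool.Agent.H438R2.BR.T7.sin_pos_Q hθ).le _), mul_comm (Real.sin θ ^ (m - 1))]

/-- the measure on the ball -/
noncomputable def mub (k m : ℕ) : Measure (E m) :=
  (volume.restrict (ball (0 : E m) 1)).withDensity fun y => ENNReal.ofReal (wt y ^ (k - 2))

instance mub_fin : IsFiniteMeasure (mub k m) := by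
  refine ⟨?_⟩
  unfold mub
  rw [withDensity_apply _ MeasurableSet.univ, Measure.restrict_univ]
  calc ∫⁻ y in ball (0 : E m) 1, ENNReal.ofReal (wt y ^ (k - 2))
      ≤ ∫⁻ _ in ball (0 : E m) 1, 1 := lintegral_mono fun y => by
        rw [ENNReal.ofReal_le_one]
        exact pow_le_one₀ (wt_nonneg y) (wt_le_one y)
    _ = volume (ball (0 : E m) 1) := by rw [setLIntegral_one]
    _ < ⊤ := measure_ball_lt_top

theorem slice_measure (hk : 2 ≤ k) (hm : 1 ≤ m) :
    sg (k + m) = ((mub k m).prod (sg k)).map pt := by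
  have f1 : IsFiniteMeasure (sg k) := sg_finite _
  refine Measure.ext_of_lintegral _ fun f hf => ?_
  have hm1 : Measurable fun p : E m × E k => f (pt p : E (k + m)) := hf.comp pt_meas
  rw [slice_lint hk hm f hf, lintegral_map hf pt_meas, lintegral_prod _ hm1.aemeasurable]
  unfold mub
  rw [lintegral_withDensity_eq_lintegral_mul _ (wtp_meas _) hm1.lintegral_prod_right']
  rfl

/-- the integral over the fibre over `y'` -/
noncomputable def fib (G : E (k + m) → ℂ) (x : E k) (y' : E m) : ℂ :=
  T (fun u => G (pt (y', u))) (wt y' • x)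

/-- the amplitude -/
noncomputable def am (G : E (k + m) → ℂ) (x : E k) (y' : E m) : ℂ :=
  ((wt y' ^ (k - 2) : ℝ) : ℂ) * fib G x y'

theorem fib_meas (G : E (k + m) → ℂ) (hG : Measurable G) :
    Measurable fun p : E k × E m => fib G p.1 p.2 := by
  have f1 : IsFiniteMeasure (sg k) := sg_finite _
  unfold fib T
  have h1 : StronglyMeasurable fun p : (E k × E m) × E k =>
      Complex.exp (-((⟪wt p.1.2 • p.1.1, p.2⟫ : ℝ) : ℂ) * I) * G (pt (p.1.2, p.2)) := by
    refine Measurable.stronglyMeasurable ?_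
    have h2 : Measurable fun p : (E k × E m) × E k => (⟪wt p.1.2 • p.1.1, p.2⟫ : ℝ) :=
      ((wt_meas.comp (measurable_snd.comp measurable_fst)).smul
        (measurable_fst.comp measurable_fst)).inner measurable_snd
    have h3 : Measurable fun p : (E k × E m) × E k => G (pt (p.1.2, p.2)) :=
      hG.comp (pt_meas.comp ((measurable_snd.comp measurable_fst).prodMk measurable_snd))
    exact (Complex.measurable_exp.comp ((Complex.measurable_ofReal.comp h2).neg.mul_const I)).mul h3
  exact h1.integral_prod_right'.measurable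

theorem am_meas (G : E (k + m) → ℂ) (hG : Measurable G) :
    Measurable fun p : E k × E m => am G p.1 p.2 := by
  unfold am
  exact (((wt_meas.comp measurable_snd).pow_const _).complex_ofReal).mul (fib_meas G hG)

theorem am_meas_right (G : E (k + m) → ℂ) (hG : Measurable G) (x : E k) :
    Measurable (am G x) := by
  have h : Measurable fun y' : E m => ((x, y') : E k × E m) := measurable_prodMk_left
  have h2 : am G x = (fun p : E k × E m => am G p.1 p.2) ∘ fun y' : E m => ((x, y') : E k × E m) :=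
    rfl
  rw [h2]
  exact (am_meas G hG).comp h

/-- the Fourier transform in the coordinates -/
theorem rep (hk : 2 ≤ k) (hm : 1 ≤ m) (G : E (k + m) → ℂ) (hG : Measurable G) (M : ℝ)
    (hM : ∀ z, ‖G z‖ ≤ M) (x : E k) (y : E m) : T G (J x y) = FB (am G x) y := by
  have f1 : IsFiniteMeasure (sg k) := sg_finite _
  have h1 : Measurable fun z : E (k + m) => Complex.exp (-((⟪J x y, z⟫ : ℝ) : ℂ) * I) * G z := by
    have h2 : Measurable fun z : E (k + m) => (⟪J x y, z⟫ : ℝ) := by fun_prop
    exact (Complex.measurable_exp.comp ((Complex.measurable_ofReal.comp h2).neg.mul_const I)).mul hG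
  have hb : ∀ z : E (k + m), ‖Complex.exp (-((⟪J x y, z⟫ : ℝ) : ℂ) * I) * G z‖ ≤ M := by
    intro z
    have e : -((⟪J x y, z⟫ : ℝ) : ℂ) * I = ((-⟪J x y, z⟫ : ℝ) : ℂ) * I := by push_cast; ring
    rw [norm_mul, e, Complex.norm_exp_ofReal_mul_I, one_mul]
    exact hM z
  have hint : Integrable (fun p : E m × E k =>
      Complex.exp (-((⟪J x y, pt p⟫ : ℝ) : ℂ) * I) * G (pt p)) ((mub k m).prod (sg k)) :=
    Integrable.of_bound (h1.comp pt_meas).aestronglyMeasurable M
      (Filter.Eventually.of_forall fun p => hb (pt p))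
  unfold T FB
  rw [slice_measure hk hm, integral_map pt_meas.aemeasurable h1.aestronglyMeasurable,
    integral_prod _ hint]
  unfold mub
  rw [integral_withDensity_eq_integral_toReal_smul (wtp_meas _)
      (Filter.Eventually.of_forall fun _ => ENNReal.ofReal_lt_top)]
  refine setIntegral_congr_fun measurableSet_ball fun y' hy' => ?_
  rw [ENNReal.toReal_ofReal (pow_nonneg (wt_nonneg _) _), Complex.real_smul]
  unfold am fib T
  rw [mul_assoc, ← integral_mul_const]
  congr 1
  refine integral_congr_ae (Filter.Eventually.of_forall fun u => ?_)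
  simp only
  have e1 : (⟪J x y, pt (y', u)⟫ : ℝ) = ⟪wt y' • x, u⟫ + ⟪y', y⟫ := by
    unfold pt
    rw [J_inner, real_inner_smul_left, real_inner_smul_right, real_inner_comm y y']
  rw [e1]
  have e3 : Complex.exp (-((⟪wt y' • x, u⟫ + ⟪y', y⟫ : ℝ) : ℂ) * I) =
      Complex.exp (-((⟪wt y' • x, u⟫ : ℝ) : ℂ) * I) * Complex.exp (-((⟪y', y⟫ : ℝ) : ℂ) * I) := by
    rw [← Complex.exp_add]
    congr 1
    push_cast
    ring
  rw [e3]
  ring

end Pool.Agent.Helper66x.AR
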