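import Mathlib
import Pool.Agent.Helper66x.AR.Slice
import Pool.Agent.N306.SJ.ST
set_option autoImplicit false

/-! Estimates of the Fourier transform on slabs. -/

namespace Pool.Agent.Helper66x.AR

open MeasureTheory Set Complex Metric
open scoped ENNReal RealInnerProductSpace
open Pool.Agent.H789R2.FR (E sg T sg_finite sg_ae L2_bound)
open Pool.Agent.H789R2.FR.L2 (integrable_W)
open Pool.Agent.H438R2.BR (Phi J J_mp Q J_inner bipolar)
open Pool.Agent.H438R2.BR.T10 (e0 e0_norm sg_one)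
open Pool.Agent.H438R2.PD (P1 P2 P1_meas P2_meas T_meas')
open Pool.Agent.TH335.RF (wt wt_meas wt_nonneg wt_pos wt_le_one FB enorm_sq FB_L2 FB_Lp Gf gu T_gu
  gu_meas MA RT line_mp norm_MA MA_meas Gf_meas)

variable {k m : ℕ}

theorem Lp_T_bdd {g : E k → ℂ} {M : ℝ} (hM : ∀ x, ‖g x‖ ≤ M) (x : E k) :
    ‖T g x‖ ≤ M * (sg k).real univ := by
  have f1 : IsFiniteMeasure (sg k) := sg_finite _
  exact Pool.Agent.H789R2.FR.L2.norm_T_le g M hM x

theorem lint_sq {α : Type*} [MeasurableSpace α] (μ : Measure α) (f : α → ℂ)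
    (h : Integrable (fun x => ‖f x‖ ^ 2) μ) :
    ∫⁻ x, ‖f x‖ₑ ^ (2 : ℝ) ∂μ = ENNReal.ofReal (∫ x, ‖f x‖ ^ 2 ∂μ) := by
  rw [ofReal_integral_eq_lintegral_ofReal h (Filter.Eventually.of_forall fun x => sq_nonneg _)]
  exact lintegral_congr fun x => enorm_sq _

theorem sq_int (φ : E k → ℂ) (hφ : Measurable φ) (M : ℝ) (hM : ∀ x, ‖φ x‖ ≤ M) :
    Integrable (fun x => ‖φ x‖ ^ 2) (sg k) := by
  have f1 : IsFiniteMeasure (sg k) := sg_finite _
  refine Integrable.of_bound (hφ.norm.pow_const 2).aestronglyMeasurable (M ^ 2)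
    (Filter.Eventually.of_forall fun x => ?_)
  rw [Real.norm_of_nonneg (sq_nonneg _)]
  have := norm_nonneg (φ x)
  have := hM x
  gcongr

/-- the local `L^2` estimate -/
theorem ball_L2 (k : ℕ) (hk : 2 ≤ k) : ∃ C : ℝ, 0 < C ∧ ∀ φ : E k → ℂ, Measurable φ →
    (∃ M : ℝ, ∀ x, ‖φ x‖ ≤ M) → ∀ R : ℝ, 0 < R →
    ∫⁻ x in ball (0 : E k) R, ‖T φ x‖ₑ ^ (2 : ℝ) ≤
      ENNReal.ofReal (C * R) * ∫⁻ u, ‖φ u‖ₑ ^ (2 : ℝ) ∂(sg k) := by
  obtain ⟨C, hC, h⟩ := L2_bound k hk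
  refine ⟨Real.exp 1 * C, by positivity, ?_⟩
  rintro φ hφ ⟨M, hM⟩ R hR
  have f1 : IsFiniteMeasure (sg k) := sg_finite _
  have h1 := h φ hφ ⟨M, hM⟩ R hR 0
  rw [lint_sq _ _ (sq_int φ hφ M hM), ← ENNReal.ofReal_mul (by positivity)]
  have hTm : Measurable (T φ) := T_meas' φ hφ
  have hint : Integrable fun x : E k => Real.exp (-‖x - 0‖ ^ 2 / R ^ 2) * ‖T φ x‖ ^ 2 := by
    have h2 : Integrable fun x : E k => Real.exp (-‖x‖ ^ 2 / R ^ 2) := integrable_W hR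
    have h3 : Integrable fun x : E k => (M * (sg k).real univ) ^ 2 *
        Real.exp (-‖x‖ ^ 2 / R ^ 2) := h2.const_mul _
    refine h3.mono' ?_ (Filter.Eventually.of_forall fun x => ?_)
    · have m1 : Measurable fun x : E k => Real.exp (-‖x - 0‖ ^ 2 / R ^ 2) := by fun_prop
      exact (m1.mul (hTm.norm.pow_const 2)).aestronglyMeasurable
    · rw [sub_zero, Real.norm_of_nonneg (by positivity), mul_comm]
      have := Lp_T_bdd hM x
      have := norm_nonneg (T φ x)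
      gcongr
  calc ∫⁻ x in ball (0 : E k) R, ‖T φ x‖ₑ ^ (2 : ℝ)
      ≤ ∫⁻ x in ball (0 : E k) R, ENNReal.ofReal
          (Real.exp 1 * (Real.exp (-‖x - 0‖ ^ 2 / R ^ 2) * ‖T φ x‖ ^ 2)) := by
        refine setLIntegral_mono' measurableSet_ball fun x hx => ?_
        rw [enorm_sq]
        apply ENNReal.ofReal_le_ofReal
        rw [← mul_assoc, ← Real.exp_add]
        have h3 : ‖x‖ < R := by simpa using hx
        have h4 : ‖x‖ ^ 2 / R ^ 2 ≤ 1 := by
          rw [div_le_one (by positivity)]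
          have := norm_nonneg x
          gcongr
        have h5 : (1 : ℝ) ≤ Real.exp (1 + -‖x - 0‖ ^ 2 / R ^ 2) := by
          rw [Real.one_le_exp_iff, sub_zero, neg_div]
          linarith
        have h6 := sq_nonneg ‖T φ x‖
        nlinarith
    _ ≤ ∫⁻ x, ENNReal.ofReal
          (Real.exp 1 * (Real.exp (-‖x - 0‖ ^ 2 / R ^ 2) * ‖T φ x‖ ^ 2)) :=
        setLIntegral_le_lintegral _ _
    _ = ENNReal.ofReal (∫ x, Real.exp 1 * (Real.exp (-‖x - 0‖ ^ 2 / R ^ 2) * ‖T φ x‖ ^ 2)) := by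
        rw [ofReal_integral_eq_lintegral_ofReal (hint.const_mul _)
          (Filter.Eventually.of_forall fun x => by positivity)]
    _ ≤ _ := by
        apply ENNReal.ofReal_le_ofReal
        rw [integral_const_mul, mul_assoc, mul_assoc, ← mul_assoc C]
        gcongr

/-- scaled version -/
theorem ball_scaled (k : ℕ) (hk : 2 ≤ k) : ∃ C : ℝ, 0 < C ∧ ∀ φ : E k → ℂ, Measurable φ →
    (∃ M : ℝ, ∀ x, ‖φ x‖ ≤ M) → ∀ R : ℝ, 0 < R → ∀ a : ℝ, 0 < a →
    ENNReal.ofReal (a ^ (k - 1)) * ∫⁻ x in ball (0 : E k) R, ‖T φ (a • x)‖ₑ ^ (2 : ℝ) ≤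
      ENNReal.ofReal (C * R) * ∫⁻ u, ‖φ u‖ₑ ^ (2 : ℝ) ∂(sg k) := by
  obtain ⟨C, hC, h⟩ := ball_L2 k hk
  refine ⟨C, hC, fun φ hφ hb R hR a ha => ?_⟩
  have hTm : Measurable (T φ) := T_meas' φ hφ
  set f : E k → ℝ≥0∞ := (ball (0 : E k) (a * R)).indicator fun x => ‖T φ x‖ₑ ^ (2 : ℝ) with hf
  have hfm : Measurable f := (hTm.enorm.pow_const _).indicator measurableSet_ball
  have h3 := Measure.map_addHaar_smul (volume : Measure (E k)) ha.ne'
  have h4 : ∫⁻ x : E k, f x ∂(Measure.map ((a) • · : E k → E k) volume) =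
      ∫⁻ ξ : E k, f (a • ξ) := lintegral_map hfm (measurable_const_smul _)
  rw [h3, lintegral_smul_measure, smul_eq_mul, finrank_euclideanSpace_fin,
    abs_of_nonneg (by positivity)] at h4
  have h5 : ∫⁻ x in ball (0 : E k) R, ‖T φ (a • x)‖ₑ ^ (2 : ℝ) = ∫⁻ ξ : E k, f (a • ξ) := by
    rw [← lintegral_indicator measurableSet_ball]
    refine lintegral_congr fun x => ?_
    have e1 : (a • x ∈ ball (0 : E k) (a * R)) ↔ x ∈ ball (0 : E k) R := by
      rw [mem_ball_zero_iff, mem_ball_zero_iff, norm_smul, Real.norm_of_nonneg ha.le]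
      exact mul_lt_mul_iff_right₀ ha
    rw [hf]
    by_cases hx : x ∈ ball (0 : E k) R
    · rw [indicator_of_mem hx, indicator_of_mem (e1.2 hx)]
    · rw [indicator_of_notMem hx, indicator_of_notMem (fun hc => hx (e1.1 hc))]
  have h6 : ∫⁻ x : E k, f x = ∫⁻ x in ball (0 : E k) (a * R), ‖T φ x‖ₑ ^ (2 : ℝ) := by
    rw [hf, lintegral_indicator measurableSet_ball]
  rw [h5, ← h4, h6, ← mul_assoc, ← ENNReal.ofReal_mul (by positivity)]
  have e2 : a ^ (k - 1) * (a ^ k)⁻¹ = a⁻¹ := by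
    obtain ⟨j, rfl⟩ : ∃ j, k = j + 1 := ⟨k - 1, by omega⟩
    rw [Nat.add_sub_cancel, pow_succ]
    field_simp
  rw [e2]
  calc _ ≤ ENNReal.ofReal a⁻¹ * (ENNReal.ofReal (C * (a * R)) * ∫⁻ u, ‖φ u‖ₑ ^ (2 : ℝ) ∂(sg k)) := by
        gcongr
        exact h φ hφ hb (a * R) (by positivity)
    _ = _ := by
        rw [← mul_assoc, ← ENNReal.ofReal_mul (by positivity)]
        congr 2
        field_simp

theorem norm_fib_le (G : E (k + m) → ℂ) (M : ℝ) (hM : ∀ z, ‖G z‖ ≤ M) (x : E k) (y : E m) :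
    ‖fib G x y‖ ≤ M * (sg k).real univ := by
  unfold fib
  exact Lp_T_bdd (fun u => hM _) _

theorem norm_am_le (G : E (k + m) → ℂ) (M : ℝ) (hM : ∀ z, ‖G z‖ ≤ M) (x : E k) (y : E m) :
    ‖am G x y‖ ≤ wt y ^ (k - 2) * (M * (sg k).real univ) := by
  unfold am
  rw [norm_mul, Complex.norm_real, Real.norm_of_nonneg (pow_nonneg (wt_nonneg _) _)]
  exact mul_le_mul_of_nonneg_left (norm_fib_le G M hM x y) (pow_nonneg (wt_nonneg _) _)

/-- the `L^2` estimate on slabs -/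
theorem slab (hk : 2 ≤ k) (hm : 1 ≤ m) : ∃ C : ℝ, 0 < C ∧ ∀ h : E (k + m) → ℂ, Measurable h →
    (∃ M : ℝ, ∀ x, ‖h x‖ ≤ M) → ∀ w : ℝ, 0 < w →
    (∀ (y : E m) (u : E k), wt y < w → h (pt (y, u)) = 0) → ∀ R : ℝ, 0 < R →
    ∫⁻ x in ball (0 : E k) R, ∫⁻ y : E m, ‖T h (J x y)‖ₑ ^ (2 : ℝ) ≤
      ENNReal.ofReal (C * (R / w)) * ∫⁻ z, ‖h z‖ₑ ^ (2 : ℝ) ∂(sg (k + m)) := by
  obtain ⟨C, hC, hb⟩ := ball_scaled k hk
  refine ⟨(2 * Real.pi) ^ m * C, by positivity, ?_⟩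
  rintro h hh ⟨M, hM⟩ w hw h0 R hR
  have f1 : IsFiniteMeasure (sg k) := sg_finite _
  have hM0 : 0 ≤ M := (norm_nonneg _).trans (hM 0)
  -- Plancherel
  have s1 : ∀ x : E k, ∫⁻ y : E m, ‖T h (J x y)‖ₑ ^ (2 : ℝ) =
      ENNReal.ofReal ((2 * Real.pi) ^ m) *
        ∫⁻ y in ball (0 : E m) 1, ‖am h x y‖ₑ ^ (2 : ℝ) := by
    intro x
    simp_rw [rep hk hm h hh M hM x]
    refine FB_L2 (am h x) (am_meas_right h hh x) (ne_of_lt ?_)
    calc ∫⁻ z in ball (0 : E m) 1, ‖am h x z‖ₑ ^ (2 : ℝ)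
        ≤ ∫⁻ _ in ball (0 : E m) 1, ENNReal.ofReal ((M * (sg k).real univ) ^ 2) := by
          refine lintegral_mono fun z => ?_
          rw [enorm_sq]
          apply ENNReal.ofReal_le_ofReal
          have h1 := norm_am_le h M hM x z
          have h2 : wt z ^ (k - 2) ≤ 1 := pow_le_one₀ (wt_nonneg z) (wt_le_one z)
          have h3 : ‖am h x z‖ ≤ M * (sg k).real univ :=
            h1.trans (mul_le_of_le_one_left (by positivity) h2)
          gcongr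
      _ = ENNReal.ofReal ((M * (sg k).real univ) ^ 2) * volume (ball (0 : E m) 1) := by
          rw [setLIntegral_const]
      _ < ⊤ := ENNReal.mul_lt_top ENNReal.ofReal_lt_top measure_ball_lt_top
  simp_rw [s1]
  have hamm : Measurable fun p : E k × E m => ‖am h p.1 p.2‖ₑ ^ (2 : ℝ) :=
    (am_meas h hh).enorm.pow_const _
  rw [lintegral_const_mul' _ _ ENNReal.ofReal_ne_top,
    lintegral_lintegral_swap (f := fun x y => ‖am h x y‖ₑ ^ (2 : ℝ)) hamm.aemeasurable]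
  have s2 : ∀ y ∈ ball (0 : E m) 1, ∫⁻ x in ball (0 : E k) R, ‖am h x y‖ₑ ^ (2 : ℝ) ≤
      ENNReal.ofReal (C * (R / w)) * (ENNReal.ofReal (wt y ^ (k - 2)) *
        ∫⁻ u, ‖h (pt (y, u))‖ₑ ^ (2 : ℝ) ∂(sg k)) := by
    intro y hy
    have hwy := wt_pos hy
    by_cases hlt : wt y < w
    · have e1 : ∀ x : E k, am h x y = 0 := by
        intro x
        unfold am fib T
        simp [h0 y _ hlt]
      simp [e1]
    · push Not at hlt
      have hφ : Measurable fun u : E k => h (pt (y, u)) := by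
        have h1 : Measurable fun u : E k => ((y, u) : E m × E k) := measurable_prodMk_left
        exact hh.comp (pt_meas.comp h1)
      have h2 := hb (fun u => h (pt (y, u))) hφ ⟨M, fun u => hM _⟩ R hR (wt y) hwy
      have e1 : ∀ x : E k, ‖am h x y‖ₑ ^ (2 : ℝ) = ENNReal.ofReal (wt y ^ (2 * (k - 2))) *
          ‖T (fun u => h (pt (y, u))) (wt y • x)‖ₑ ^ (2 : ℝ) := by
        intro x
        unfold am fib
        rw [enorm_mul, ENNReal.mul_rpow_of_nonneg _ _ (by norm_num), enorm_sq (((wt y ^ (k - 2) : ℝ) : ℂ)),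
          Complex.norm_real, Real.norm_of_nonneg (pow_nonneg hwy.le _), ← pow_mul, mul_comm (k - 2) 2]
      simp_rw [e1]
      rw [lintegral_const_mul' _ _ ENNReal.ofReal_ne_top]
      -- `wt^(2(k-2)) ≤ w⁻¹ wt^(k-2) wt^(k-1)`
      have e2 : ENNReal.ofReal (wt y ^ (2 * (k - 2))) ≤
          ENNReal.ofReal (w⁻¹ * wt y ^ (k - 2)) * ENNReal.ofReal (wt y ^ (k - 1)) := by
        rw [← ENNReal.ofReal_mul (by positivity)]
        apply ENNReal.ofReal_le_ofReal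
        obtain ⟨j, rfl⟩ : ∃ j, k = j + 2 := ⟨k - 2, by omega⟩
        have e3 : j + 2 - 1 = j + 1 := by omega
        rw [Nat.add_sub_cancel, e3]
        have e4 : 1 ≤ w⁻¹ * wt y := by
          rw [inv_mul_eq_div, one_le_div hw]
          exact hlt
        calc wt y ^ (2 * j) = 1 * (wt y ^ (2 * j)) := (one_mul _).symm
          _ ≤ (w⁻¹ * wt y) * (wt y ^ (2 * j)) := by gcongr
          _ = _ := by ring
      calc _ ≤ ENNReal.ofReal (w⁻¹ * wt y ^ (k - 2)) * ENNReal.ofReal (wt y ^ (k - 1)) *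
            ∫⁻ x in ball (0 : E k) R, ‖T (fun u => h (pt (y, u))) (wt y • x)‖ₑ ^ (2 : ℝ) := by
            gcongr
        _ ≤ ENNReal.ofReal (w⁻¹ * wt y ^ (k - 2)) * (ENNReal.ofReal (C * R) *
            ∫⁻ u, ‖h (pt (y, u))‖ₑ ^ (2 : ℝ) ∂(sg k)) := by
            rw [mul_assoc]
            gcongr
        _ = _ := by
            rw [← mul_assoc, ← mul_assoc, ← ENNReal.ofReal_mul (by positivity),
              ← ENNReal.ofReal_mul (by positivity)]
            congr 2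
            field_simp
  calc _ ≤ ENNReal.ofReal ((2 * Real.pi) ^ m) * ∫⁻ y in ball (0 : E m) 1,
        ENNReal.ofReal (C * (R / w)) * (ENNReal.ofReal (wt y ^ (k - 2)) *
        ∫⁻ u, ‖h (pt (y, u))‖ₑ ^ (2 : ℝ) ∂(sg k)) :=
        mul_le_mul' le_rfl (setLIntegral_mono' measurableSet_ball s2)
    _ = _ := by
        rw [lintegral_const_mul' _ _ ENNReal.ofReal_ne_top,
          slice_lint hk hm (fun z => ‖h z‖ₑ ^ (2 : ℝ)) (hh.enorm.pow_const _), ← mul_assoc,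
          ← ENNReal.ofReal_mul (by positivity), mul_assoc ((2 * Real.pi) ^ m)]

/-- Hölder between `L^2` and `L^P` -/
theorem holder {α : Type*} [MeasurableSpace α] (μ : Measure α) (f : α → ℝ≥0∞)
    (hf : AEMeasurable f μ) (p P : ℝ) (hp : 2 < p) (hP : p < P) :
    ∫⁻ x, f x ^ p ∂μ ≤ (∫⁻ x, f x ^ (2 : ℝ) ∂μ) ^ ((P - p) / (P - 2)) *
      (∫⁻ x, f x ^ P ∂μ) ^ ((p - 2) / (P - 2)) := by
  have h1 : 0 < P - 2 := by linarith
  set a := (P - p) / (P - 2) with ha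
  set b := (p - 2) / (P - 2) with hb
  have ha0 : 0 < a := div_pos (by linarith) h1
  have hb0 : 0 < b := div_pos (by linarith) h1
  have hab : a + b = 1 := by rw [ha, hb]; field_simp; ring
  have e1 : ∀ x, f x ^ p = (f x ^ (2 : ℝ)) ^ a * (f x ^ P) ^ b := by
    intro x
    rw [← ENNReal.rpow_mul, ← ENNReal.rpow_mul, ← ENNReal.rpow_add_of_nonneg _ _ (by positivity)
      (mul_nonneg (by linarith) hb0.le)]
    congr 1
    rw [ha, hb]
    field_simp
    ring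
  simp_rw [e1]
  exact ENNReal.lintegral_mul_norm_pow_le (hf.pow_const _) (hf.pow_const _) ha0.le hb0.le hab

end Pool.Agent.Helper66x.AR
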