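import Mathlib
import Pool.Agent.Helper66x.AR.Slab
set_option autoImplicit false

/-! Estimates of the Fourier transform of the part of the sphere near the equator of codimension
`k`, and of the main term. -/

namespace Pool.Agent.Helper66x.AR

open MeasureTheory Set Complex Metric
open scoped ENNReal RealInnerProductSpace
open Pool.Agent.H789R2.FR (E sg T sg_finite sg_ae)
open Pool.Agent.H438R2.BR (Phi J J_mp Q J_inner bipolar)
open Pool.Agent.H438R2.BR.T10 (e0 e0_norm sg_one)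
open Pool.Agent.H438R2.PD (P1 P2 P1_meas P2_meas T_meas')
open Pool.Agent.TH335.RF (wt wt_meas wt_nonneg wt_pos wt_le_one FB enorm_sq FB_L2 FB_Lp Gf gu T_gu
  gu_meas MA RT line_mp norm_MA MA_meas Gf_meas P1_J P2_J)

variable {k m : ℕ}

/-- volume of the region near the boundary of the ball -/
theorem vol_small (m : ℕ) (hm : 1 ≤ m) : ∃ C : ℝ, 0 < C ∧ ∀ a : ℝ, 0 < a →
    volume {y : E m | y ∈ ball (0 : E m) 1 ∧ wt y ≤ a} ≤ ENNReal.ofReal (C * a ^ 2) := by
  have hv : volume (ball (0 : E m) 1) ≠ ⊤ := measure_ball_lt_top.ne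
  set v : ℝ := (volume (ball (0 : E m) 1)).toReal with hvd
  have hv0 : 0 ≤ v := ENNReal.toReal_nonneg
  have hv1 : volume (ball (0 : E m) 1) = ENNReal.ofReal v := by rw [hvd, ENNReal.ofReal_toReal hv]
  refine ⟨m * v + 1 + v, by positivity, fun a ha => ?_⟩
  rcases le_or_gt 1 a with h1 | h1
  · calc volume {y : E m | y ∈ ball (0 : E m) 1 ∧ wt y ≤ a}
        ≤ volume (ball (0 : E m) 1) := measure_mono fun y hy => hy.1
      _ = ENNReal.ofReal v := hv1
      _ ≤ _ := by
          apply ENNReal.ofReal_le_ofReal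
          have h2 : (1 : ℝ) ≤ a ^ 2 := one_le_pow₀ h1
          have h3 : (0 : ℝ) ≤ m * v := by positivity
          nlinarith
  · -- the region is the difference of two balls
    set b : ℝ := Real.sqrt (1 - a ^ 2) with hb
    have ha2 : a ^ 2 < 1 := by nlinarith
    have hb0 : 0 < b := Real.sqrt_pos.2 (by linarith)
    have hb2 : b ^ 2 = 1 - a ^ 2 := Real.sq_sqrt (by linarith)
    have hb1 : b ≤ 1 := by nlinarith [sq_nonneg a]
    have hsub : {y : E m | y ∈ ball (0 : E m) 1 ∧ wt y ≤ a} ⊆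
        ball (0 : E m) 1 \ ball (0 : E m) b := by
      rintro y ⟨hy1, hy2⟩
      refine ⟨hy1, fun hc => ?_⟩
      rw [mem_ball_zero_iff] at hc hy1
      have h3 : ‖y‖ ^ 2 < b ^ 2 := by
        have := norm_nonneg y
        gcongr
      have h4 : wt y ^ 2 = 1 - ‖y‖ ^ 2 := by
        unfold wt
        rw [Real.sq_sqrt]
        nlinarith
      have h5 : wt y ^ 2 ≤ a ^ 2 := by
        have := wt_nonneg y
        gcongr
      nlinarith
    refine (measure_mono hsub).trans ?_
    rw [measure_diff (ball_subset_ball hb1) measurableSet_ball.nullMeasurableSet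
      (measure_ball_lt_top.ne)]
    have e1 : volume (ball (0 : E m) b) = ENNReal.ofReal (b ^ m * v) := by
      rw [Measure.addHaar_ball_of_pos _ _ hb0, finrank_euclideanSpace_fin, hv1,
        ← ENNReal.ofReal_mul (by positivity)]
    rw [e1, hv1, ← ENNReal.ofReal_sub _ (by positivity)]
    apply ENNReal.ofReal_le_ofReal
    have h6 : 1 - m * a ^ 2 ≤ b ^ m := by
      have h7 : (1 + (m : ℝ) * (-a ^ 2)) ≤ (1 + (-a ^ 2)) ^ m :=
        one_add_mul_le_pow (by linarith) m
      have h8 : (1 + (-a ^ 2)) ^ m = (b ^ m) ^ 2 := by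
        rw [← pow_mul, mul_comm m 2, pow_mul, hb2]
        ring
      have h9 : (b ^ m) ^ 2 ≤ b ^ m := by
        have h10 : b ^ m ≤ 1 := pow_le_one₀ hb0.le hb1
        have h11 : 0 < b ^ m := by positivity
        nlinarith
      linarith
    have h12 : (0 : ℝ) < a ^ 2 := by positivity
    nlinarith [mul_nonneg (mul_nonneg (Nat.cast_nonneg m : (0 : ℝ) ≤ m) h12.le) hv0]

theorem small_lint (k m : ℕ) (hm : 1 ≤ m) : ∃ C : ℝ, 0 < C ∧ ∀ A : E m → ℂ, ∀ B : ℝ, 0 ≤ B →
    ∀ a : ℝ, 0 < a → (∀ y, a < wt y → A y = 0) → (∀ y, ‖A y‖ ≤ B * wt y ^ (k - 2)) →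
    ∫⁻ y in ball (0 : E m) 1, ‖A y‖ₑ ^ (2 : ℝ) ≤
      ENNReal.ofReal (C * (B * a ^ (k - 2) * a) ^ 2) := by
  obtain ⟨C, hC, hv⟩ := vol_small m hm
  refine ⟨C, hC, fun A B hB a ha h0 hA => ?_⟩
  set S : Set (E m) := {y : E m | y ∈ ball (0 : E m) 1 ∧ wt y ≤ a} with hS
  have hSm : MeasurableSet S := measurableSet_ball.inter (measurableSet_le wt_meas measurable_const)
  calc ∫⁻ y in ball (0 : E m) 1, ‖A y‖ₑ ^ (2 : ℝ)
      ≤ ∫⁻ y in ball (0 : E m) 1, S.indicator (fun _ => ENNReal.ofReal ((B * a ^ (k - 2)) ^ 2)) y := by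
        refine setLIntegral_mono' measurableSet_ball fun y hy => ?_
        by_cases hw : wt y ≤ a
        · rw [indicator_of_mem (show y ∈ S from ⟨hy, hw⟩), enorm_sq]
          apply ENNReal.ofReal_le_ofReal
          have h1 := wt_nonneg y
          have h2 : ‖A y‖ ≤ B * a ^ (k - 2) := (hA y).trans (by gcongr)
          gcongr
        · push Not at hw
          rw [h0 y hw]
          simp
    _ ≤ ∫⁻ y, S.indicator (fun _ => ENNReal.ofReal ((B * a ^ (k - 2)) ^ 2)) y :=
        setLIntegral_le_lintegral _ _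
    _ = ENNReal.ofReal ((B * a ^ (k - 2)) ^ 2) * volume S := by
        rw [lintegral_indicator hSm, setLIntegral_const]
    _ ≤ ENNReal.ofReal ((B * a ^ (k - 2)) ^ 2) * ENNReal.ofReal (C * a ^ 2) := by
        gcongr
        exact hv a ha
    _ = _ := by
        rw [← ENNReal.ofReal_mul (by positivity)]
        congr 1
        ring

/-- Fourier integrals over small weights -/
theorem small_Lp (k m : ℕ) (hk : 2 ≤ k) (hm : 1 ≤ m) (p : ℝ) (hp : 2 ≤ p) : ∃ C : ℝ, 0 < C ∧
    ∀ A : E m → ℂ, Measurable A → ∀ B : ℝ, 0 ≤ B →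
    ∀ a : ℝ, 0 < a → (∀ y, a < wt y → A y = 0) → (∀ y, ‖A y‖ ≤ B * wt y ^ (k - 2)) →
    ∫⁻ y, ‖FB A y‖ₑ ^ p ≤ ENNReal.ofReal (C * (B * a ^ (k - 1)) ^ p) := by
  obtain ⟨C, hC, h1⟩ := small_lint k m hm
  obtain ⟨C', hC', h2⟩ := FB_Lp m p hp
  refine ⟨(C' * C) ^ (p / 2), by positivity, fun A hAm B hB a ha h0 hA => ?_⟩
  refine (h2 A hAm).trans ?_
  calc _ ≤ (ENNReal.ofReal C' * ENNReal.ofReal (C * (B * a ^ (k - 2) * a) ^ 2)) ^ (p / 2) := by
        gcongr
        exact h1 A B hB a ha h0 hA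
    _ = _ := by
        rw [← ENNReal.ofReal_mul hC'.le, ENNReal.ofReal_rpow_of_nonneg (by positivity) (by linarith)]
        congr 1
        have e1 : B * a ^ (k - 2) * a = B * a ^ (k - 1) := by
          rw [mul_assoc, ← pow_succ]
          congr 2
          omega
        rw [e1, ← mul_assoc, Real.mul_rpow (by positivity) (by positivity)]
        congr 1
        rw [← Real.rpow_natCast, ← Real.rpow_mul (by positivity)]
        congr 1
        push_cast
        ring

end Pool.Agent.Helper66x.AR
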