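import Mathlib
import Pool.Agent.Helper66x.AR.Small
set_option autoImplicit false

/-! Estimates of the main term. -/

namespace Pool.Agent.Helper66x.AR

open MeasureTheory Set Complex Metric
open scoped ENNReal RealInnerProductSpace
open Pool.Agent.H789R2.FR (E sg T sg_finite sg_ae)
open Pool.Agent.H438R2.BR (Phi J J_mp Q J_inner bipolar)
open Pool.Agent.H438R2.BR.T10 (e0 e0_norm sg_one)
open Pool.Agent.H438R2.PD (P1 P2 P1_meas P2_meas T_meas')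
open Pool.Agent.TH335.RF (wt wt_meas wt_nonneg wt_pos wt_le_one FB enorm_sq FB_L2 FB_Lp Gf gu T_gu
  gu_meas MA RT line_mp norm_MA MA_meas Gf_meas P1_J P2_J co_meas e0_zero)

variable {k m : ℕ}

/-- restriction estimates are homogeneous -/
theorem RT_scaled (n : ℕ) (P : ℝ) (hP : 0 < P) (h : RT n P) : ∃ C : ℝ, 0 < C ∧ ∀ g : E n → ℂ,
    Measurable g → ∀ B : ℝ, 0 < B → (∀ᵐ x ∂(sg n), ‖g x‖ ≤ B) →
    ∫⁻ z, ‖T g z‖ₑ ^ P ≤ ENNReal.ofReal (C * B ^ P) := by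
  obtain ⟨C, hC, hT⟩ := h
  refine ⟨C, hC, fun g hg B hB hb => ?_⟩
  set g' : E n → ℂ := {z | ‖g z‖ ≤ B}.indicator fun z => ((B⁻¹ : ℝ) : ℂ) * g z with hg'
  have hS : MeasurableSet {z | ‖g z‖ ≤ B} := measurableSet_le hg.norm measurable_const
  have hg'm : Measurable g' := (hg.const_mul _).indicator hS
  have hg'b : ∀ x, ‖g' x‖ ≤ 1 := by
    intro x
    by_cases hx : x ∈ {z | ‖g z‖ ≤ B}
    · rw [hg', indicator_of_mem hx, norm_mul, Complex.norm_real, Real.norm_of_nonneg (by positivity)]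
      have hx' : ‖g x‖ ≤ B := hx
      rw [inv_mul_le_iff₀ hB, mul_one]
      exact hx'
    · rw [hg', indicator_of_notMem hx, norm_zero]
      exact zero_le_one
  have hTe : ∀ z, T g z = (B : ℂ) * T g' z := by
    intro z
    unfold T
    rw [← integral_const_mul]
    apply integral_congr_ae
    filter_upwards [hb] with x hx
    rw [hg', indicator_of_mem (show x ∈ {z | ‖g z‖ ≤ B} from hx)]
    have hBc : (B : ℂ) ≠ 0 := by exact_mod_cast hB.ne'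
    push_cast
    field_simp
  have h1 := hT g' hg'm hg'b
  calc ∫⁻ z, ‖T g z‖ₑ ^ P = ∫⁻ z, ENNReal.ofReal (B ^ P) * ‖T g' z‖ₑ ^ P := by
        refine lintegral_congr fun z => ?_
        rw [hTe, enorm_mul, ENNReal.mul_rpow_of_nonneg _ _ hP.le, ← ofReal_norm (B : ℂ),
          Complex.norm_real, Real.norm_of_nonneg hB.le, ENNReal.ofReal_rpow_of_nonneg hB.le hP.le]
    _ = ENNReal.ofReal (B ^ P) * ∫⁻ z, ‖T g' z‖ₑ ^ P :=
        lintegral_const_mul' _ _ ENNReal.ofReal_ne_top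
    _ ≤ ENNReal.ofReal (B ^ P) * ENNReal.ofReal C := by gcongr
    _ = _ := by
        rw [← ENNReal.ofReal_mul (by positivity), mul_comm]

theorem J_P (z : E (k + m)) : J (P1 k m z) (P2 k m z) = z := by
  ext i
  unfold J P1 P2
  refine Fin.addCases (fun j => ?_) (fun j => ?_) i
  · simp
  · simp

theorem P1J (x : E k) (y : E m) : P1 k m (J x y) = x := by
  ext i
  unfold J P1
  simp

theorem P2J (x : E k) (y : E m) : P2 k m (J x y) = y := by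
  ext i
  unfold J P2
  simp

theorem J_nsq (x : E k) (y : E m) : ‖J x y‖ ^ 2 = ‖x‖ ^ 2 + ‖y‖ ^ 2 := by
  rw [← real_inner_self_eq_norm_sq, J_inner, real_inner_self_eq_norm_sq,
    real_inner_self_eq_norm_sq]

/-- on the upper half sphere the first coordinate is the height -/
theorem co_eq (z : E (1 + m)) (hz : ‖z‖ = 1) (h0 : 0 < (P1 1 m z) 0) :
    (P1 1 m z) 0 = wt (P2 1 m z) := by
  have h1 : J (P1 1 m z) (P2 1 m z) = z := J_P z
  have h2 := J_nsq (P1 1 m z) (P2 1 m z)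
  rw [h1, hz] at h2
  have h3 : ‖P1 1 m z‖ ^ 2 = (P1 1 m z) 0 ^ 2 := by
    rw [EuclideanSpace.norm_sq_eq]
    simp
  unfold wt
  rw [h3] at h2
  have h4 : 1 - ‖P2 1 m z‖ ^ 2 = (P1 1 m z) 0 ^ 2 := by linarith
  rw [h4, Real.sqrt_sq h0.le]

theorem ex_eq (hk : 2 ≤ k) : (((2 * k - 1 : ℕ) : ℝ) - 3) / 2 = ((k - 2 : ℕ) : ℝ) := by
  rw [Nat.cast_sub (by omega), Nat.cast_sub hk]
  push_cast
  ring

theorem ex_eq' (hk : 2 ≤ k) : (((2 * k - 1 : ℕ) : ℝ) - 1) / 2 = ((k - 1 : ℕ) : ℝ) := by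
  rw [Nat.cast_sub (by omega), Nat.cast_sub (by omega)]
  push_cast
  ring

theorem norm_MA' (hk : 2 ≤ k) (F : E m → ℂ) (r : ℝ) (y : E m) :
    ‖MA (2 * k - 1) F r y‖ = ‖F y‖ * wt y ^ (k - 2) := by
  rw [norm_MA, ex_eq hk, Real.rpow_natCast, mul_comm]

/-- the main term for small weights -/
theorem Gf_small (k m : ℕ) (hk : 2 ≤ k) (hm : 1 ≤ m) (p : ℝ) (hp : 2 ≤ p) : ∃ C : ℝ, 0 < C ∧
    ∀ F : E m → ℂ, Measurable F → (∀ y, ‖F y‖ ≤ 1) → ∀ a : ℝ, 0 < a →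
    (∀ y, a < wt y → F y = 0) → ∀ r : ℝ,
    ∫⁻ y, ‖Gf (2 * k - 1) F r y‖ₑ ^ p ≤ ENNReal.ofReal (C * (a ^ (k - 1)) ^ p) := by
  obtain ⟨C, hC, h⟩ := small_Lp k m hk hm p hp
  refine ⟨C, hC, fun F hF hb a ha h0 r => ?_⟩
  have h1 := h (MA (2 * k - 1) F r) (MA_meas _ F hF r) 1 zero_le_one a ha
    (fun y hy => by unfold MA; rw [h0 y hy, mul_zero])
    (fun y => by
      rw [norm_MA' hk, one_mul]
      exact mul_le_of_le_one_left (pow_nonneg (wt_nonneg y) _) (hb y))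
  rw [one_mul] at h1
  exact h1

/-- the main term in `L^P` for small weights -/
theorem Gf_LP (k m : ℕ) (hk : 2 ≤ k) (hm : 1 ≤ m) (P : ℝ) (hP : 0 < P) (hRT : RT (1 + m) P) :
    ∃ C : ℝ, 0 < C ∧
    ∀ F : E m → ℂ, Measurable F → (∀ y, ‖F y‖ ≤ 1) → ∀ a : ℝ, 0 < a →
    (∀ y, a < wt y → F y = 0) →
    ∫⁻ r : ℝ, ∫⁻ y, ‖Gf (2 * k - 1) F r y‖ₑ ^ P ≤ ENNReal.ofReal (C * (a ^ (k - 1)) ^ P) := by
  obtain ⟨C, hC, h⟩ := RT_scaled (1 + m) P hP hRT
  refine ⟨C, hC, fun F hFm hb a ha h0 => ?_⟩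
  have hgm := gu_meas (2 * k - 1) F hFm
  have hTm : Measurable fun z : E (1 + m) => ‖T (gu (2 * k - 1) F) z‖ₑ ^ P :=
    (T_meas' _ hgm).enorm.pow_const P
  have hJm : Measurable fun p : E 1 × E m => J p.1 p.2 := (J_mp 1 m).measurable
  have e1 : ∫⁻ z, ‖T (gu (2 * k - 1) F) z‖ₑ ^ P =
      ∫⁻ r : ℝ, ∫⁻ y : E m, ‖Gf (2 * k - 1) F r y‖ₑ ^ P := by
    rw [← (J_mp 1 m).lintegral_comp hTm, lintegral_prod]
    · have hm2 : Measurable fun x : E 1 => ∫⁻ y : E m, ‖T (gu (2 * k - 1) F) (J x y)‖ₑ ^ P :=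
        (hTm.comp hJm).lintegral_prod_right'
      rw [← line_mp.lintegral_comp hm2]
      refine lintegral_congr fun r => lintegral_congr fun y => ?_
      rw [T_gu (2 * k - 1) hm F hFm r y]
    · exact (hTm.comp hJm).aemeasurable
  rw [← e1]
  refine h (gu (2 * k - 1) F) hgm (a ^ (k - 1)) (by positivity) ?_
  filter_upwards [sg_ae (1 + m)] with z hz
  unfold gu
  by_cases hmem : z ∈ {z : E (1 + m) | 0 < (P1 1 m z) 0 ∧ (P1 1 m z) 0 ≤ 1}
  · rw [indicator_of_mem hmem, norm_mul, Complex.norm_real,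
      Real.norm_of_nonneg (Real.rpow_nonneg hmem.1.le _), ex_eq' hk, Real.rpow_natCast,
      co_eq z hz hmem.1]
    by_cases hw : a < wt (P2 1 m z)
    · rw [h0 _ hw, norm_zero, mul_zero]
      positivity
    · push Not at hw
      have h1 := wt_nonneg (P2 1 m z)
      calc wt (P2 1 m z) ^ (k - 1) * ‖F (P2 1 m z)‖ ≤ wt (P2 1 m z) ^ (k - 1) * 1 := by
            gcongr
            exact hb _
        _ ≤ a ^ (k - 1) := by
            rw [mul_one]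
            gcongr
  · rw [indicator_of_notMem hmem, norm_zero]
    positivity

/-- interpolation of the two estimates -/
theorem Gf_mid (k m : ℕ) (hk : 2 ≤ k) (hm : 1 ≤ m) (p P : ℝ) (hp : 2 < p) (hpP : p < P)
    (hRT : RT (1 + m) P) : ∃ C : ℝ, 0 < C ∧
    ∀ F : E m → ℂ, Measurable F → (∀ y, ‖F y‖ ≤ 1) → ∀ a : ℝ, 0 < a →
    (∀ y, a < wt y → F y = 0) → ∀ R : ℝ, 0 < R →
    ∫⁻ r in Icc (-R) R, ∫⁻ y, ‖Gf (2 * k - 1) F r y‖ₑ ^ p ≤
      ENNReal.ofReal (C * (a ^ (k - 1)) ^ p * R ^ ((P - p) / (P - 2))) := by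
  obtain ⟨C1, hC1, h1⟩ := Gf_small k m hk hm 2 le_rfl
  obtain ⟨C2, hC2, h2⟩ := Gf_LP k m hk hm P (by linarith) hRT
  have hP2 : 0 < P - 2 := by linarith
  set α := (P - p) / (P - 2) with hα
  set β := (p - 2) / (P - 2) with hβ
  have hα0 : 0 < α := div_pos (by linarith) hP2
  have hβ0 : 0 < β := div_pos (by linarith) hP2
  have hsum : 2 * α + P * β = p := by rw [hα, hβ]; field_simp; ring
  refine ⟨(C1 * 2) ^ α * C2 ^ β, by positivity, fun F hF hb a ha h0 R hR => ?_⟩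
  have hGm : Measurable fun q : ℝ × E m => ‖Gf (2 * k - 1) F q.1 q.2‖ₑ :=
    (Gf_meas (2 * k - 1) F hF).enorm
  have e1 : ∀ q : ℝ, ∫⁻ r in Icc (-R) R, ∫⁻ y, ‖Gf (2 * k - 1) F r y‖ₑ ^ q =
      ∫⁻ z : ℝ × E m, ‖Gf (2 * k - 1) F z.1 z.2‖ₑ ^ q
        ∂(((volume : Measure ℝ).restrict (Icc (-R) R)).prod volume) := by
    intro q
    rw [lintegral_prod _ (hGm.pow_const q).aemeasurable]
  have h3 := holder (((volume : Measure ℝ).restrict (Icc (-R) R)).prod (volume : Measure (E m)))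
    (fun z => ‖Gf (2 * k - 1) F z.1 z.2‖ₑ) hGm.aemeasurable p P hp hpP
  rw [← e1, ← e1, ← e1, ← hα, ← hβ] at h3
  refine h3.trans ?_
  have h4 : ∫⁻ r in Icc (-R) R, ∫⁻ y, ‖Gf (2 * k - 1) F r y‖ₑ ^ (2 : ℝ) ≤
      ENNReal.ofReal (C1 * 2 * ((a ^ (k - 1)) ^ (2 : ℝ) * R)) := by
    calc _ ≤ ∫⁻ r in Icc (-R) R, ENNReal.ofReal (C1 * (a ^ (k - 1)) ^ (2 : ℝ)) :=
          lintegral_mono fun r => h1 F hF hb a ha h0 r
      _ = ENNReal.ofReal (C1 * (a ^ (k - 1)) ^ (2 : ℝ)) * ENNReal.ofReal (2 * R) := by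
          rw [setLIntegral_const, Real.volume_Icc]
          congr 2
          ring
      _ = _ := by
          rw [← ENNReal.ofReal_mul (by positivity)]
          congr 1
          ring
  have h5 : ∫⁻ r in Icc (-R) R, ∫⁻ y, ‖Gf (2 * k - 1) F r y‖ₑ ^ P ≤
      ENNReal.ofReal (C2 * (a ^ (k - 1)) ^ P) :=
    (setLIntegral_le_lintegral _ _).trans (h2 F hF hb a ha h0)
  calc _ ≤ (ENNReal.ofReal (C1 * 2 * ((a ^ (k - 1)) ^ (2 : ℝ) * R))) ^ α *
        (ENNReal.ofReal (C2 * (a ^ (k - 1)) ^ P)) ^ β := by gcongr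
    _ = _ := by
        rw [ENNReal.ofReal_rpow_of_nonneg (by positivity) hα0.le,
          ENNReal.ofReal_rpow_of_nonneg (by positivity) hβ0.le,
          ← ENNReal.ofReal_mul (by positivity)]
        congr 1
        have hA : 0 ≤ a ^ (k - 1) := by positivity
        rw [Real.mul_rpow (by positivity) (by positivity), Real.mul_rpow (by positivity) hR.le,
          Real.mul_rpow hC2.le (by positivity), ← Real.rpow_mul hA, ← Real.rpow_mul hA]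
        have e2 : (a ^ (k - 1)) ^ p = (a ^ (k - 1)) ^ (2 * α) * (a ^ (k - 1)) ^ (P * β) := by
          rw [← Real.rpow_add (by positivity), hsum]
        rw [e2]
        ring

/-- the estimate for the main term with exponents `p`, `γ` -/
def Mn (k m : ℕ) (p γ : ℝ) : Prop := ∃ C : ℝ, 0 < C ∧ ∀ F : E m → ℂ, Measurable F →
  (∀ y, ‖F y‖ ≤ 1) → ∀ w : ℝ, 0 < w → 2 * w ≤ 1 → (∀ y, wt y ≤ w → F y = 0) →
  (∀ y, 2 * w < wt y → F y = 0) → ∀ R : ℝ, 0 < R → 1 ≤ R * (2 * w) →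
  ∫⁻ r in Icc (-R) R, ∫⁻ y, ‖Gf (2 * k - 1) F r y‖ₑ ^ p ≤
    ENNReal.ofReal (C * (w ^ (k - 1)) ^ p * R ^ γ)

theorem Mn_of_RT (k m : ℕ) (hk : 2 ≤ k) (hm : 1 ≤ m) (p P : ℝ) (hp : 2 < p) (hpP : p < P)
    (hRT : RT (1 + m) P) : Mn k m p ((P - p) / (P - 2)) := by
  obtain ⟨C, hC, h⟩ := Gf_mid k m hk hm p P hp hpP hRT
  refine ⟨C * (2 ^ (k - 1)) ^ p, by positivity, ?_⟩
  intro F hF hb w hw hw1 h0 h0' R hR hRw
  refine (h F hF hb (2 * w) (by positivity) h0' R hR).trans (ENNReal.ofReal_le_ofReal ?_)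
  rw [mul_pow, Real.mul_rpow (by positivity) (by positivity)]
  exact (by ring : C * ((2 ^ (k - 1)) ^ p * (w ^ (k - 1)) ^ p) * R ^ ((P - p) / (P - 2)) =
    C * (2 ^ (k - 1)) ^ p * (w ^ (k - 1)) ^ p * R ^ ((P - p) / (P - 2))).le

end Pool.Agent.Helper66x.AR
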