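import Mathlib
import Pool.Agent.Helper66x.AR.Mt
import Pool.Agent.H789R2.FR.Caps
set_option autoImplicit false

/-! Integrals over cylinders. -/

namespace Pool.Agent.Helper66x.AR

open MeasureTheory Set Complex Metric
open scoped ENNReal RealInnerProductSpace
open Pool.Agent.H789R2.FR (E sg T sg_finite sg_ae exists_iso)
open Pool.Agent.H438R2.BR (J J_mp J_inner)
open Pool.Agent.H438R2.BR.T10 (e0 e0_norm sg_one)
open Pool.Agent.TH335.RF (line_mp)

/-- the cylinder about the line spanned by `u` -/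
def Cy {k : ℕ} (u : E k) (a R : ℝ) : Set (E k) := {x | ‖x - (⟪x, u⟫ : ℝ) • u‖ ≤ a ∧ |(⟪x, u⟫ : ℝ)| ≤ R}

theorem Cy_meas {k : ℕ} (u : E k) (a R : ℝ) : MeasurableSet (Cy u a R) := by
  have h1 : Continuous fun x : E k => (⟪x, u⟫ : ℝ) := by fun_prop
  have h2 : Continuous fun x : E k => ‖x - (⟪x, u⟫ : ℝ) • u‖ := by fun_prop
  exact (measurableSet_le h2.measurable measurable_const).inter
    (measurableSet_le h1.abs.measurable measurable_const)

theorem cyl (k : ℕ) (hk : 1 ≤ k) : ∃ C : ℝ, 0 < C ∧ ∀ u : E k, ‖u‖ = 1 → ∀ a : ℝ, 0 < a →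
    ∀ R : ℝ, ∀ Ψ : ℝ → ℝ≥0∞, Measurable Ψ →
    ∫⁻ x in Cy u a R, Ψ ⟪x, u⟫ ≤
      ENNReal.ofReal (C * a ^ (k - 1)) * ∫⁻ r in Icc (-R) R, Ψ r := by
  obtain ⟨d, rfl⟩ : ∃ d, k = 1 + d := ⟨k - 1, by omega⟩
  have hv : volume (ball (0 : E d) 1) ≠ ⊤ := measure_ball_lt_top.ne
  set v : ℝ := (volume (ball (0 : E d) 1)).toReal with hvd
  have hv0 : 0 ≤ v := ENNReal.toReal_nonneg
  have hv1 : volume (ball (0 : E d) 1) = ENNReal.ofReal v := by rw [hvd, ENNReal.ofReal_toReal hv]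
  refine ⟨v + 1, by positivity, fun u hu a ha R Ψ hΨ => ?_⟩
  set e : E (1 + d) := J e0 0 with he
  have he1 : ‖e‖ = 1 := by
    have h1 := J_nsq (k := 1) (m := d) e0 0
    rw [e0_norm, norm_zero] at h1
    have h2 : ‖e‖ ^ 2 = 1 := by rw [he, h1]; norm_num
    have h3 := norm_nonneg e
    nlinarith
  obtain ⟨L, hL⟩ := exists_iso e u he1 hu
  have hin : ∀ w : E (1 + d), Measurable fun x : E (1 + d) => (⟪x, w⟫ : ℝ) := fun w =>
    (by fun_prop : Continuous fun x : E (1 + d) => (⟪x, w⟫ : ℝ)).measurable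
  have hfm : ∀ w : E (1 + d), Measurable ((Cy w a R).indicator fun x => Ψ ⟪x, w⟫) := fun w =>
    (hΨ.comp (hin w)).indicator (Cy_meas w a R)
  have e1 : ∫⁻ x in Cy u a R, Ψ ⟪x, u⟫ = ∫⁻ x, (Cy e a R).indicator (fun x => Ψ ⟪x, e⟫) x := by
    rw [← lintegral_indicator (Cy_meas u a R), ← L.measurePreserving.lintegral_comp (hfm u)]
    refine lintegral_congr fun x => ?_
    have e2 : (⟪L x, u⟫ : ℝ) = ⟪x, e⟫ := by rw [← hL, LinearIsometryEquiv.inner_map_map]
    have e3 : L x ∈ Cy u a R ↔ x ∈ Cy e a R := by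
      have e4 : L x - (⟪x, e⟫ : ℝ) • u = L (x - (⟪x, e⟫ : ℝ) • e) := by
        rw [map_sub, map_smul, hL]
      unfold Cy
      rw [mem_ofPred_eq, mem_ofPred_eq, e2, e4, LinearIsometryEquiv.norm_map]
    by_cases hx : x ∈ Cy e a R
    · rw [indicator_of_mem hx, indicator_of_mem (e3.2 hx), e2]
    · rw [indicator_of_notMem hx, indicator_of_notMem (fun hc => hx (e3.1 hc))]
  have hJm : Measurable fun p : E 1 × E d => J p.1 p.2 := (J_mp 1 d).measurable
  have e5 : ∫⁻ x, (Cy e a R).indicator (fun x => Ψ ⟪x, e⟫) x =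
      ∫⁻ r : ℝ, ∫⁻ y : E d, (Cy e a R).indicator (fun x => Ψ ⟪x, e⟫) (J (r • e0) y) := by
    rw [← (J_mp 1 d).lintegral_comp (hfm e), lintegral_prod]
    · have hm2 : Measurable fun x : E 1 => ∫⁻ y : E d,
          (Cy e a R).indicator (fun x => Ψ ⟪x, e⟫) (J x y) :=
        ((hfm e).comp hJm).lintegral_prod_right'
      rw [← line_mp.lintegral_comp hm2]
    · exact ((hfm e).comp hJm).aemeasurable
  have e6 : ∀ (r : ℝ) (y : E d), (Cy e a R).indicator (fun x => Ψ ⟪x, e⟫) (J (r • e0) y) =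
      (Icc (-R) R).indicator Ψ r * (closedBall (0 : E d) a).indicator 1 y := by
    intro r y
    have e7 : (⟪J (r • e0) y, e⟫ : ℝ) = r := by
      rw [he, J_inner, real_inner_smul_left, real_inner_self_eq_norm_sq, e0_norm, inner_zero_right]
      ring
    have e8 : J (r • e0) y - r • e = J 0 y := by
      rw [he]
      ext i
      unfold J
      refine Fin.addCases (fun j => ?_) (fun j => ?_) i
      · simp
      · simp
    have e9 : ‖J (0 : E 1) y‖ = ‖y‖ := by
      have h1 := J_nsq (k := 1) (m := d) 0 y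
      rw [norm_zero] at h1
      have h2 : ‖J (0 : E 1) y‖ ^ 2 = ‖y‖ ^ 2 := by rw [h1]; ring
      exact (sq_eq_sq₀ (norm_nonneg _) (norm_nonneg _)).1 h2
    have e10 : J (r • e0) y ∈ Cy e a R ↔ y ∈ closedBall (0 : E d) a ∧ r ∈ Icc (-R) R := by
      unfold Cy
      rw [mem_ofPred_eq, e7, e8, e9, mem_closedBall_zero_iff, abs_le, mem_Icc]
    by_cases hy : y ∈ closedBall (0 : E d) a
    · by_cases hr : r ∈ Icc (-R) R
      · rw [indicator_of_mem (e10.2 ⟨hy, hr⟩), indicator_of_mem hr, indicator_of_mem hy, e7]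
        simp
      · rw [indicator_of_notMem (fun hc => hr (e10.1 hc).2), indicator_of_notMem hr, zero_mul]
    · rw [indicator_of_notMem (fun hc => hy (e10.1 hc).1), indicator_of_notMem hy, mul_zero]
  rw [e1, e5]
  simp_rw [e6]
  have e11 : ∀ r : ℝ, ∫⁻ y : E d, (Icc (-R) R).indicator Ψ r *
      (closedBall (0 : E d) a).indicator 1 y = (Icc (-R) R).indicator Ψ r *
        ENNReal.ofReal (a ^ d * v) := by
    intro r
    rw [lintegral_const_mul _ (measurable_one.indicator measurableSet_closedBall),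
      lintegral_indicator_one measurableSet_closedBall, Measure.addHaar_closedBall _ _ ha.le,
      finrank_euclideanSpace_fin, hv1, ← ENNReal.ofReal_mul (by positivity)]
  simp_rw [e11]
  rw [lintegral_mul_const _ (hΨ.indicator measurableSet_Icc), lintegral_indicator measurableSet_Icc,
    mul_comm]
  refine mul_le_mul' (ENNReal.ofReal_le_ofReal ?_) le_rfl
  have h1 : 1 + d - 1 = d := by omega
  rw [h1]
  have h2 : 0 < a ^ d := by positivity
  nlinarith

end Pool.Agent.Helper66x.AR
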