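import Mathlib
import Pool.Agent.Helper66x.AR.Cyl
import Pool.Agent.H789R2.FR.Core
set_option autoImplicit false

/-! Smoothing along the fibres. -/

namespace Pool.Agent.Helper66x.AR

open MeasureTheory Set Complex Metric
open scoped ENNReal RealInnerProductSpace
open Pool.Agent.H789R2.FR (E sg T D A sg_finite sg_ae D_meas A_bound A_meas D_const D_pos
  T_A_eq kernel_bound)
open Pool.Agent.H438R2.BR (J J_mp J_inner)
open Pool.Agent.H438R2.PD (P1 P2 P1_meas P2_meas T_meas')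
open Pool.Agent.TH335.RF (wt wt_meas wt_nonneg wt_pos wt_le_one FB)

variable {k m : ℕ}

/-- smoothing of `G` along the fibres, at scale `Q^(-1/2)` relative to the radius of the fibre -/
noncomputable def sm (Q : ℝ) (G : E (k + m) → ℂ) (z : E (k + m)) : ℂ :=
  A Q (fun u => G (pt (P2 k m z, u))) (‖P1 k m z‖⁻¹ • P1 k m z)

theorem fmeas (G : E (k + m) → ℂ) (hG : Measurable G) (y : E m) :
    Measurable fun u : E k => G (pt (y, u)) := by
  have h1 : Measurable fun u : E k => ((y, u) : E m × E k) := measurable_prodMk_left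
  exact hG.comp (pt_meas.comp h1)

theorem vmeas (G : E (k + m) → ℂ) (hG : Measurable G) (v : E k) :
    Measurable fun y : E m => G (pt (y, v)) := by
  have h1 : Measurable fun y : E m => ((y, v) : E m × E k) := measurable_prodMk_right
  exact hG.comp (pt_meas.comp h1)

theorem sm_meas (Q : ℝ) (G : E (k + m) → ℂ) (hG : Measurable G) : Measurable (sm Q G) := by
  have f1 : IsFiniteMeasure (sg k) := sg_finite _
  have hy : Measurable fun z : E (k + m) => ‖P1 k m z‖⁻¹ • P1 k m z :=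
    (P1_meas k m).norm.inv.smul (P1_meas k m)
  have h1 : StronglyMeasurable fun q : E (k + m) × E k =>
      ((Real.exp (-(Q / 2) * ‖‖P1 k m q.1‖⁻¹ • P1 k m q.1 - q.2‖ ^ 2) : ℝ) : ℂ) *
        G (pt (P2 k m q.1, q.2)) := by
    refine Measurable.stronglyMeasurable ?_
    have h2 : Measurable fun q : E (k + m) × E k => ‖‖P1 k m q.1‖⁻¹ • P1 k m q.1 - q.2‖ :=
      ((hy.comp measurable_fst).sub measurable_snd).norm
    have h3 : Measurable fun q : E (k + m) × E k => G (pt (P2 k m q.1, q.2)) :=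
      hG.comp (pt_meas.comp (((P2_meas k m).comp measurable_fst).prodMk measurable_snd))
    exact (((h2.pow_const 2).const_mul _).exp.complex_ofReal).mul h3
  have h4 : Measurable fun z : E (k + m) => D Q (‖P1 k m z‖⁻¹ • P1 k m z) := (D_meas Q).comp hy
  unfold sm A
  exact (h1.integral_prod_right' (ν := sg k)).measurable.div h4.complex_ofReal

theorem sm_le (Q : ℝ) (hQ : 0 ≤ Q) (G : E (k + m) → ℂ) (hG : ∀ z, ‖G z‖ ≤ 1) (z : E (k + m)) :
    ‖sm Q G z‖ ≤ 1 := A_bound Q hQ (fun u => hG _) _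

theorem P1_pt (y : E m) (u : E k) : P1 k m (pt (y, u)) = wt y • u := P1J _ _

theorem P2_pt (y : E m) (u : E k) : P2 k m (pt (y, u)) = y := P2J _ _

theorem sm_pt (Q : ℝ) (G : E (k + m) → ℂ) (y : E m) (hy : y ∈ ball (0 : E m) 1) (u : E k)
    (hu : ‖u‖ = 1) : sm Q G (pt (y, u)) = A Q (fun u' => G (pt (y, u'))) u := by
  have hw := wt_pos hy
  unfold sm
  rw [P1_pt, P2_pt, norm_smul, hu, mul_one, Real.norm_of_nonneg hw.le, smul_smul,
    inv_mul_cancel₀ hw.ne', one_smul]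

theorem T_congr (f g : E k → ℂ) (h : ∀ u, ‖u‖ = 1 → f u = g u) (x : E k) : T f x = T g x := by
  unfold T
  apply integral_congr_ae
  filter_upwards [sg_ae k] with u hu
  rw [h u hu]

/-- the kernel -/
noncomputable def Kn (Q : ℝ) (e x v : E k) : ℂ :=
  (∫ u, Complex.exp (-((⟪x, u⟫ : ℝ) : ℂ) * I) *
      ((Real.exp (-(Q / 2) * ‖u - v‖ ^ 2) : ℝ) : ℂ) ∂(sg k)) / (D Q e : ℂ)

theorem Kn_smeas (Q : ℝ) (e : E k) : Measurable fun q : E k × E k => Kn Q e q.1 q.2 := by
  have f1 : IsFiniteMeasure (sg k) := sg_finite _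
  have h1 : StronglyMeasurable fun q : (E k × E k) × E k =>
      Complex.exp (-((⟪q.1.1, q.2⟫ : ℝ) : ℂ) * I) *
      ((Real.exp (-(Q / 2) * ‖q.2 - q.1.2‖ ^ 2) : ℝ) : ℂ) :=
    (by fun_prop : Continuous _).stronglyMeasurable
  exact (h1.integral_prod_right' (ν := sg k)).measurable.div_const _

attribute [irreducible] Kn

theorem Kn_comp {α : Type*} [MeasurableSpace α] (Q : ℝ) (e : E k) (f g : α → E k)
    (hf : Measurable f) (hg : Measurable g) : Measurable fun a => Kn Q e (f a) (g a) :=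
  (Kn_smeas Q e).comp (hf.prodMk hg)

theorem am_sm (hk : 2 ≤ k) (Q : ℝ) (hQ : 1 ≤ Q) (G : E (k + m) → ℂ) (hG : Measurable G)
    (hb : ∀ z, ‖G z‖ ≤ 1) (e : E k) (he : ‖e‖ = 1) (x : E k) (y : E m)
    (hy : y ∈ ball (0 : E m) 1) :
    am (sm Q G) x y = ((wt y ^ (k - 2) : ℝ) : ℂ) *
      ∫ v, G (pt (y, v)) * Kn Q e (wt y • x) v ∂(sg k) := by
  unfold am fib
  rw [T_congr _ (A Q fun u' => G (pt (y, u'))) (fun u hu => sm_pt Q G y hy u hu),
    T_A_eq k hk _ (fmeas G hG y) 1 (fun u => hb _) Q hQ (wt y • x) e he]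
  unfold Kn
  rfl

end Pool.Agent.Helper66x.AR
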