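import Mathlib
import Pool.Agent.Helper66x.AR.Sm
set_option autoImplicit false

/-! The part of the Fourier transform of the smoothed density which comes from the directions near
the direction of the frequency. -/

namespace Pool.Agent.Helper66x.AR

open MeasureTheory Set Complex Metric
open scoped ENNReal RealInnerProductSpace
open Pool.Agent.H789R2.FR (E sg T D A sg_finite sg_ae D_meas A_bound A_meas D_const D_pos
  T_A_eq kernel_bound)
open Pool.Agent.H438R2.BR (J J_mp J_inner)
open Pool.Agent.H438R2.PD (P1 P2 P1_meas P2_meas T_meas')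
open Pool.Agent.TH335.RF (wt wt_meas wt_nonneg wt_pos wt_le_one FB Gf MA)

variable {k m : ℕ}

instance ballfin : IsFiniteMeasure ((volume : Measure (E m)).restrict (ball (0 : E m) 1)) :=
  ⟨by rw [Measure.restrict_apply_univ]; exact measure_ball_lt_top⟩

/-- the directions near the direction of `x` -/
def NS (δ : ℝ) (x : E k) : Set (E k) :=
  {v | ‖x - ‖x‖ • v‖ ≤ δ * ‖x‖ ∨ ‖x + ‖x‖ • v‖ ≤ δ * ‖x‖}

theorem NS_meas2 (δ : ℝ) : MeasurableSet {q : E k × E k | q.2 ∈ NS δ q.1} := by
  have h1 : Continuous fun q : E k × E k => ‖q.1 - ‖q.1‖ • q.2‖ := by fun_prop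
  have h2 : Continuous fun q : E k × E k => ‖q.1 + ‖q.1‖ • q.2‖ := by fun_prop
  have h3 : Continuous fun q : E k × E k => δ * ‖q.1‖ := by fun_prop
  exact (measurableSet_le h1.measurable h3.measurable).union
    (measurableSet_le h2.measurable h3.measurable)

theorem NS_meas (δ : ℝ) (x : E k) : MeasurableSet (NS δ x) := by
  have h1 : Measurable fun v : E k => ((x, v) : E k × E k) := measurable_prodMk_left
  exact h1 (NS_meas2 δ)

/-- the contribution of the directions in `S` -/
noncomputable def aR (S : Set (E k)) (Q : ℝ) (e : E k) (G : E (k + m) → ℂ) (x : E k) (y : E m) :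
    ℂ :=
  ((wt y ^ (k - 2) : ℝ) : ℂ) * ∫ v in S, G (pt (y, v)) * Kn Q e (wt y • x) v ∂(sg k)

theorem aR_meas (S : Set (E k)) (Q : ℝ) (e : E k) (G : E (k + m) → ℂ)
    (hG : Measurable G) (x : E k) : Measurable (aR S Q e G x) := by
  have f1 : IsFiniteMeasure (sg k) := sg_finite _
  have h1 : StronglyMeasurable fun q : E m × E k => G (pt (q.1, q.2)) * Kn Q e (wt q.1 • x) q.2 := by
    refine Measurable.stronglyMeasurable ?_
    have h2 : Measurable fun q : E m × E k => G (pt (q.1, q.2)) := hG.comp pt_meas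
    have h3 : Measurable fun q : E m × E k => wt q.1 • x :=
      (wt_meas.comp measurable_fst).smul_const x
    have h4 := Kn_comp Q e (fun q : E m × E k => wt q.1 • x) (fun q => q.2) h3 measurable_snd
    exact h2.mul h4
  unfold aR
  exact ((wt_meas.pow_const _).complex_ofReal).mul
    (h1.integral_prod_right' (ν := (sg k).restrict S)).measurable

theorem ex_norm (a : ℝ) : ‖Complex.exp (-((a : ℝ) : ℂ) * I)‖ = 1 := by
  have e : -((a : ℝ) : ℂ) * I = ((-a : ℝ) : ℂ) * I := by push_cast; ring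
  rw [e, Complex.norm_exp_ofReal_mul_I]

theorem Kn_le (Q : ℝ) (hQ : 0 ≤ Q) (e : E k) (he : 0 < D Q e) (x v : E k) :
    ‖Kn Q e x v‖ ≤ (sg k).real univ / D Q e := by
  have f1 : IsFiniteMeasure (sg k) := sg_finite _
  unfold Kn
  rw [norm_div, Complex.norm_real, Real.norm_of_nonneg he.le]
  gcongr
  have h1 := norm_integral_le_of_norm_le_const (μ := sg k) (f := fun u =>
    Complex.exp (-((⟪x, u⟫ : ℝ) : ℂ) * I) * ((Real.exp (-(Q / 2) * ‖u - v‖ ^ 2) : ℝ) : ℂ)) (C := 1)
    (Filter.Eventually.of_forall fun u => by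
      rw [norm_mul, ex_norm, one_mul, Complex.norm_real, Real.norm_of_nonneg (Real.exp_pos _).le,
        Real.exp_le_one_iff]
      have : 0 ≤ Q / 2 * ‖u - v‖ ^ 2 := by positivity
      linarith)
  rwa [one_mul] at h1

theorem GK_int (Q : ℝ) (hQ : 0 ≤ Q) (e : E k) (he : 0 < D Q e) (G : E (k + m) → ℂ)
    (hG : Measurable G) (hb : ∀ z, ‖G z‖ ≤ 1) (x : E k) (y : E m) :
    Integrable (fun v => G (pt (y, v)) * Kn Q e (wt y • x) v) (sg k) := by
  have f1 : IsFiniteMeasure (sg k) := sg_finite _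
  have h2 := Kn_comp Q e (fun _ : E k => wt y • x) (fun v => v) measurable_const measurable_id
  refine Integrable.of_bound ((fmeas G hG y).mul h2).aestronglyMeasurable
    ((sg k).real univ / D Q e) (Filter.Eventually.of_forall fun v => ?_)
  rw [norm_mul]
  calc _ ≤ 1 * ‖Kn Q e (wt y • x) v‖ := by
        gcongr
        exact hb _
    _ ≤ _ := by
        rw [one_mul]
        exact Kn_le Q hQ e he _ _

theorem aR_add (S : Set (E k)) (hS : MeasurableSet S) (Q : ℝ) (hQ : 0 ≤ Q) (e : E k)
    (he : 0 < D Q e) (G : E (k + m) → ℂ)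
    (hG : Measurable G) (hb : ∀ z, ‖G z‖ ≤ 1) (x : E k) (y : E m) :
    aR S Q e G x y + aR Sᶜ Q e G x y = ((wt y ^ (k - 2) : ℝ) : ℂ) *
      ∫ v, G (pt (y, v)) * Kn Q e (wt y • x) v ∂(sg k) := by
  unfold aR
  rw [← mul_add, integral_add_compl hS (GK_int Q hQ e he G hG hb x y)]

theorem aR_le (S : Set (E k)) (Q : ℝ) (hQ : 0 ≤ Q) (e : E k) (he : 0 < D Q e)
    (G : E (k + m) → ℂ) (hb : ∀ z, ‖G z‖ ≤ 1) (x : E k) (y : E m) :
    ‖aR S Q e G x y‖ ≤ (sg k).real univ / D Q e * (sg k).real univ := by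
  have f1 : IsFiniteMeasure (sg k) := sg_finite _
  unfold aR
  rw [norm_mul, Complex.norm_real, Real.norm_of_nonneg (pow_nonneg (wt_nonneg _) _)]
  have h1 := norm_integral_le_of_norm_le_const (μ := (sg k).restrict S) (f := fun v =>
    G (pt (y, v)) * Kn Q e (wt y • x) v) (C := (sg k).real univ / D Q e)
    (Filter.Eventually.of_forall fun v => by
      rw [norm_mul]
      calc _ ≤ 1 * ‖Kn Q e (wt y • x) v‖ := by
            gcongr
            exact hb _
        _ ≤ _ := by
            rw [one_mul]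
            exact Kn_le Q hQ e he _ _)
  have h2 : ((sg k).restrict S).real univ ≤ (sg k).real univ := by
    rw [measureReal_restrict_apply MeasurableSet.univ, univ_inter]
    exact measureReal_mono (subset_univ _)
  have h3 : wt y ^ (k - 2) ≤ 1 := pow_le_one₀ (wt_nonneg y) (wt_le_one y)
  have h4 : 0 ≤ (sg k).real univ / D Q e := by positivity
  calc _ ≤ 1 * ((sg k).real univ / D Q e * ((sg k).restrict S).real univ) := by
        gcongr
    _ ≤ _ := by
        rw [one_mul]
        gcongr

/-- the near part as an average of main terms -/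
theorem near_eq (hk : 2 ≤ k) (S : Set (E k)) (Q : ℝ) (hQ : 0 ≤ Q) (e : E k)
    (he : 0 < D Q e) (G : E (k + m) → ℂ)
    (hG : Measurable G) (hb : ∀ z, ‖G z‖ ≤ 1) (x : E k) (y : E m) :
    FB (aR S Q e G x) y = ∫ q, ((Real.exp (-(Q / 2) * ‖q.2 - q.1‖ ^ 2) / D Q e : ℝ) : ℂ) *
      Gf (2 * k - 1) (fun y' => G (pt (y', q.1))) ⟪x, q.2⟫ y ∂(((sg k).restrict S).prod (sg k)) := by
  have f1 : IsFiniteMeasure (sg k) := sg_finite _
  set Φ : E m → E k × E k → ℂ := fun y' q => ((wt y' ^ (k - 2) : ℝ) : ℂ) *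
    (G (pt (y', q.1)) * (Complex.exp (-((⟪wt y' • x, q.2⟫ : ℝ) : ℂ) * I) *
      ((Real.exp (-(Q / 2) * ‖q.2 - q.1‖ ^ 2) : ℝ) : ℂ) / (D Q e : ℂ))) *
    Complex.exp (-((⟪y', y⟫ : ℝ) : ℂ) * I) with hΦ
  have hΦm : Measurable (Function.uncurry Φ) := by
    have h1 : Measurable fun z : E m × (E k × E k) => wt z.1 := wt_meas.comp measurable_fst
    have h2 : Measurable fun z : E m × (E k × E k) => G (pt (z.1, z.2.1)) :=
      hG.comp (pt_meas.comp (measurable_fst.prodMk (measurable_fst.comp measurable_snd)))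
    have h3 : Measurable fun z : E m × (E k × E k) => (⟪wt z.1 • x, z.2.2⟫ : ℝ) :=
      (h1.smul_const x).inner (measurable_snd.comp measurable_snd)
    have h4 : Measurable fun z : E m × (E k × E k) =>
        ((Real.exp (-(Q / 2) * ‖z.2.2 - z.2.1‖ ^ 2) : ℝ) : ℂ) :=
      (by fun_prop : Continuous _).measurable
    have h5 : Measurable fun z : E m × (E k × E k) => Complex.exp (-((⟪z.1, y⟫ : ℝ) : ℂ) * I) :=
      (by fun_prop : Continuous _).measurable
    have h6 : Measurable fun z : E m × (E k × E k) =>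
        Complex.exp (-((⟪wt z.1 • x, z.2.2⟫ : ℝ) : ℂ) * I) :=
      Complex.measurable_exp.comp ((Complex.measurable_ofReal.comp h3).neg.mul_const I)
    exact (((h1.pow_const _).complex_ofReal).mul (h2.mul ((h6.mul h4).div_const _))).mul h5
  have hΦb : ∀ z : E m × (E k × E k), ‖Function.uncurry Φ z‖ ≤ 1 / D Q e := by
    rintro ⟨y', q⟩
    simp only [Function.uncurry, hΦ]
    rw [norm_mul, norm_mul, norm_mul, norm_div, norm_mul, ex_norm, ex_norm, Complex.norm_real,
      Complex.norm_real, Complex.norm_real, Real.norm_of_nonneg (pow_nonneg (wt_nonneg _) _),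
      Real.norm_of_nonneg (Real.exp_pos _).le, Real.norm_of_nonneg he.le, mul_one, one_mul]
    have h1 : wt y' ^ (k - 2) ≤ 1 := pow_le_one₀ (wt_nonneg y') (wt_le_one y')
    have h2 : Real.exp (-(Q / 2) * ‖q.2 - q.1‖ ^ 2) ≤ 1 := by
      rw [Real.exp_le_one_iff]
      have : 0 ≤ Q / 2 * ‖q.2 - q.1‖ ^ 2 := by positivity
      linarith
    calc _ ≤ 1 * (1 * (1 / D Q e)) := by
          gcongr
          exact hb _
      _ = _ := by ring
  have hint : Integrable (Function.uncurry Φ)
      ((volume.restrict (ball (0 : E m) 1)).prod (((sg k).restrict S).prod (sg k))) :=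
    Integrable.of_bound hΦm.aestronglyMeasurable (1 / D Q e) (Filter.Eventually.of_forall hΦb)
  have e1 : ∀ y' : E m, aR S Q e G x y' * Complex.exp (-((⟪y', y⟫ : ℝ) : ℂ) * I) =
      ∫ q, Φ y' q ∂(((sg k).restrict S).prod (sg k)) := by
    intro y'
    have h1 : Integrable (Φ y') (((sg k).restrict S).prod (sg k)) := by
      have h2 : Measurable fun q : E k × E k => ((y', q) : E m × (E k × E k)) :=
        measurable_prodMk_left
      exact Integrable.of_bound (hΦm.comp h2).aestronglyMeasurable (1 / D Q e)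
        (Filter.Eventually.of_forall fun q => hΦb (y', q))
    rw [integral_prod _ h1]
    unfold aR Kn
    rw [← integral_const_mul, ← integral_mul_const]
    refine integral_congr_ae (Filter.Eventually.of_forall fun v => ?_)
    simp only [hΦ]
    rw [← integral_div, ← integral_const_mul, ← integral_const_mul, ← integral_mul_const]
  unfold FB
  simp_rw [e1]
  rw [integral_integral_swap hint]
  refine integral_congr_ae (Filter.Eventually.of_forall fun q => ?_)
  simp only [hΦ]
  unfold Gf FB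
  rw [← integral_const_mul]
  refine integral_congr_ae (Filter.Eventually.of_forall fun y' => ?_)
  simp only
  unfold MA
  rw [ex_eq hk, Real.rpow_natCast]
  have e2 : Complex.exp (-((⟪wt y' • x, q.2⟫ : ℝ) : ℂ) * I) =
      Complex.exp (((-(⟪x, q.2⟫ * wt y') : ℝ) : ℂ) * I) := by
    congr 2
    rw [real_inner_smul_left]
    push_cast
    ring
  rw [e2]
  push_cast
  ring

end Pool.Agent.Helper66x.AR
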