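import Mathlib
import Pool.Agent.Helper66x.AR.Near
set_option autoImplicit false

/-! Estimates for the near part and the far part of the smoothed density. -/

namespace Pool.Agent.Helper66x.AR

open MeasureTheory Set Complex Metric
open scoped ENNReal RealInnerProductSpace
open Pool.Agent.H789R2.FR (E sg T D A sg_finite sg_ae D_meas A_bound A_meas D_const D_pos
  T_A_eq kernel_bound D_lower ofReal_D cap_upper)
open Pool.Agent.H438R2.BR (J J_mp J_inner)
open Pool.Agent.H438R2.PD (P1 P2 P1_meas P2_meas T_meas')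
open Pool.Agent.TH335.RF (wt wt_meas wt_nonneg wt_pos wt_le_one FB Gf MA RT)

variable {k m : ℕ}

theorem dir_norm (x v : E k) (hx : x ≠ 0) (c : ℝ) (hc : 0 < c) :
    ‖x‖ * ‖(‖c • x‖⁻¹ • (c • x)) - v‖ = ‖x - ‖x‖ • v‖ ∧
    ‖x‖ * ‖-(‖c • x‖⁻¹ • (c • x)) - v‖ = ‖x + ‖x‖ • v‖ := by
  have hx0 : 0 < ‖x‖ := norm_pos_iff.2 hx
  have e1 : ‖c • x‖⁻¹ • (c • x) = ‖x‖⁻¹ • x := by
    rw [norm_smul, Real.norm_of_nonneg hc.le, smul_smul]
    congr 1
    field_simp
  have e2 : ∀ z : E k, ‖x‖ * ‖z‖ = ‖‖x‖ • z‖ := fun z => by rw [norm_smul, norm_norm]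
  constructor
  · rw [e1, e2, smul_sub, smul_smul, mul_inv_cancel₀ hx0.ne', one_smul]
  · rw [e1, e2, smul_sub, smul_neg, smul_smul, mul_inv_cancel₀ hx0.ne', one_smul, ← norm_neg]
    congr 1
    abel

/-- the far part -/
theorem far_le (k m : ℕ) (hk : 2 ≤ k) : ∃ C : ℝ, 0 < C ∧ ∀ ρ w : ℝ, 0 < ρ → 0 < w → 1 ≤ ρ * w →
    ∀ G : E (k + m) → ℂ, (∀ z, ‖G z‖ ≤ 1) →
    (∀ (y : E m) (u : E k), wt y ≤ w → G (pt (y, u)) = 0) → ∀ δ : ℝ, 0 < δ →
    ∀ e : E k, ‖e‖ = 1 → ∀ x : E k, 2 * ρ ≤ ‖x‖ → ∀ y : E m,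
    ‖aR (NS δ x)ᶜ (ρ * w) e G x y‖ ≤ C * Real.exp (-(ρ * w / 10) * δ ^ 2) * wt y ^ (k - 2) := by
  obtain ⟨C, hC, hK⟩ := kernel_bound k hk
  have f1 : IsFiniteMeasure (sg k) := sg_finite _
  refine ⟨2 * C * ((sg k).real univ + 1), by positivity, ?_⟩
  intro ρ w hρ hw hQ G hb h0 δ hδ e he x hx y
  have hx0 : x ≠ 0 := by
    rintro rfl
    rw [norm_zero] at hx
    linarith
  have hxp : 0 < ‖x‖ := norm_pos_iff.2 hx0
  have hD := D_pos k hk (ρ * w) hQ e he
  by_cases hwy : wt y ≤ w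
  · unfold aR
    have e1 : ∀ v : E k, G (pt (y, v)) * Kn (ρ * w) e (wt y • x) v = 0 := fun v => by
      rw [h0 y v hwy, zero_mul]
    simp only [e1, integral_zero, mul_zero, norm_zero]
    have := wt_nonneg y
    positivity
  · push Not at hwy
    have hwp : 0 < wt y := hw.trans hwy
    unfold aR
    rw [norm_mul, Complex.norm_real, Real.norm_of_nonneg (pow_nonneg (wt_nonneg _) _), mul_comm]
    refine mul_le_mul_of_nonneg_right ?_ (pow_nonneg (wt_nonneg _) _)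
    have hb1 : ∀ᵐ v ∂((sg k).restrict (NS δ x)ᶜ), ‖G (pt (y, v)) * Kn (ρ * w) e (wt y • x) v‖ ≤
        2 * C * Real.exp (-(ρ * w / 10) * δ ^ 2) := by
      filter_upwards [ae_restrict_of_ae (sg_ae k), ae_restrict_mem (NS_meas δ x).compl] with v hv hvN
      have h1 : v ∉ NS δ x := hvN
      unfold NS at h1
      rw [mem_ofPred_eq, not_or, not_le, not_le] at h1
      obtain ⟨d1, d2⟩ := dir_norm x v hx0 (wt y) hwp
      rw [← d1, ← d2, mul_comm δ, mul_lt_mul_iff_right₀ hxp, mul_lt_mul_iff_right₀ hxp] at h1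
      have h2 : 2 * (ρ * w) ≤ ‖wt y • x‖ := by
        rw [norm_smul, Real.norm_of_nonneg hwp.le]
        nlinarith
      have h3 := hK (ρ * w) hQ (wt y • x) h2 e he v hv
      rw [norm_mul]
      have h4 : ‖Kn (ρ * w) e (wt y • x) v‖ ≤
          C * (Real.exp (-((ρ * w / 5) / 2) * ‖(‖wt y • x‖⁻¹ • (wt y • x)) - v‖ ^ 2) +
          Real.exp (-((ρ * w / 5) / 2) * ‖-(‖wt y • x‖⁻¹ • (wt y • x)) - v‖ ^ 2)) := by
        unfold Kn
        rw [norm_div, Complex.norm_real, Real.norm_of_nonneg hD.le]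
        exact h3
      have h5 : ∀ t : ℝ, δ < t → Real.exp (-((ρ * w / 5) / 2) * t ^ 2) ≤
          Real.exp (-(ρ * w / 10) * δ ^ 2) := by
        intro t ht
        apply Real.exp_le_exp.2
        have : δ ^ 2 ≤ t ^ 2 := by gcongr
        nlinarith
      have h6 := h5 _ h1.1
      have h7 := h5 _ h1.2
      calc ‖G (pt (y, v))‖ * ‖Kn (ρ * w) e (wt y • x) v‖ ≤ 1 * ‖Kn (ρ * w) e (wt y • x) v‖ := by
            gcongr
            exact hb _
        _ ≤ C * (Real.exp (-(ρ * w / 10) * δ ^ 2) + Real.exp (-(ρ * w / 10) * δ ^ 2)) := by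
            rw [one_mul]
            refine h4.trans ?_
            gcongr
        _ = _ := by ring
    have h8 := norm_integral_le_of_norm_le_const hb1
    refine h8.trans ?_
    have h9 : ((sg k).restrict (NS δ x)ᶜ).real univ ≤ (sg k).real univ := by
      rw [measureReal_restrict_apply MeasurableSet.univ, univ_inter]
      exact measureReal_mono (subset_univ _)
    have h10 := Real.exp_pos (-(ρ * w / 10) * δ ^ 2)
    calc 2 * C * Real.exp (-(ρ * w / 10) * δ ^ 2) * ((sg k).restrict (NS δ x)ᶜ).real univ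
        ≤ 2 * C * Real.exp (-(ρ * w / 10) * δ ^ 2) * ((sg k).real univ + 1) := by
          gcongr
          linarith
      _ = _ := by ring

/-- Jensen's inequality with a weight -/
theorem jensen {α : Type*} [MeasurableSpace α] (μ : Measure α) (W g : α → ℝ≥0∞)
    (hW : AEMeasurable W μ) (hg : AEMeasurable g μ) (p : ℝ) (hp : 1 ≤ p) :
    (∫⁻ x, W x * g x ∂μ) ^ p ≤ (∫⁻ x, W x ∂μ) ^ (p - 1) * ∫⁻ x, W x * g x ^ p ∂μ := by
  have hp0 : 0 < p := by linarith
  have ha : 0 ≤ (p - 1) / p := div_nonneg (by linarith) hp0.le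
  have hb : 0 ≤ 1 / p := by positivity
  have hab : (p - 1) / p + 1 / p = 1 := by field_simp; ring
  have h1 := ENNReal.lintegral_mul_norm_pow_le (μ := μ) hW (hW.mul (hg.pow_const p)) ha hb hab
  have e1 : ∀ x, W x * g x = W x ^ ((p - 1) / p) * (W x * g x ^ p) ^ (1 / p) := by
    intro x
    rw [ENNReal.mul_rpow_of_nonneg _ _ hb, ← mul_assoc, ← ENNReal.rpow_add_of_nonneg _ _ ha hb,
      hab, ENNReal.rpow_one, ← ENNReal.rpow_mul, mul_one_div_cancel hp0.ne', ENNReal.rpow_one]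
  calc (∫⁻ x, W x * g x ∂μ) ^ p
      = (∫⁻ x, W x ^ ((p - 1) / p) * (W x * g x ^ p) ^ (1 / p) ∂μ) ^ p := by
        congr 1
        exact lintegral_congr e1
    _ ≤ ((∫⁻ x, W x ∂μ) ^ ((p - 1) / p) * (∫⁻ x, W x * g x ^ p ∂μ) ^ (1 / p)) ^ p := by
        gcongr
        exact h1
    _ = _ := by
        rw [ENNReal.mul_rpow_of_nonneg _ _ hp0.le, ← ENNReal.rpow_mul, ← ENNReal.rpow_mul,
          one_div_mul_cancel hp0.ne', ENNReal.rpow_one, div_mul_cancel₀ _ hp0.ne']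

/-- the weight -/
noncomputable def Wt (Q : ℝ) (e v u : E k) : ℝ≥0∞ :=
  ENNReal.ofReal (Real.exp (-(Q / 2) * ‖u - v‖ ^ 2) / D Q e)

theorem Wt_meas (Q : ℝ) (e : E k) : Measurable fun q : E k × E k => Wt Q e q.1 q.2 := by
  unfold Wt
  have h4 : Measurable fun z : E k × E k => Real.exp (-(Q / 2) * ‖z.2 - z.1‖ ^ 2) :=
    (by fun_prop : Continuous _).measurable
  exact (h4.div_const _).ennreal_ofReal

theorem Wt_int (Q : ℝ) (hQ : 0 ≤ Q) (e v : E k) (he : ‖e‖ = 1) (hv : ‖v‖ = 1) (hD : 0 < D Q e) :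
    ∫⁻ u, Wt Q e v u ∂(sg k) = 1 := by
  unfold Wt
  have e1 : ∀ u : E k, ENNReal.ofReal (Real.exp (-(Q / 2) * ‖u - v‖ ^ 2) / D Q e) =
      ENNReal.ofReal (Real.exp (-(Q / 2) * ‖v - u‖ ^ 2)) * ENNReal.ofReal ((D Q e)⁻¹) := by
    intro u
    rw [norm_sub_rev, div_eq_mul_inv, ENNReal.ofReal_mul (Real.exp_pos _).le]
  simp_rw [e1]
  rw [lintegral_mul_const' _ _ ENNReal.ofReal_ne_top, ← ofReal_D Q v hQ, D_const Q v e hv he,
    ← ENNReal.ofReal_mul hD.le, mul_inv_cancel₀ hD.ne', ENNReal.ofReal_one]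

/-- the main term as a function of four variables -/
noncomputable def GG (G : E (k + m) → ℂ) (v : E k) (r : ℝ) (y : E m) : ℂ :=
  Gf (2 * k - 1) (fun y' => G (pt (y', v))) r y

theorem GG_meas (G : E (k + m) → ℂ) (hG : Measurable G) :
    Measurable fun z : E k × ℝ × E m => GG G z.1 z.2.1 z.2.2 := by
  unfold GG Gf FB MA
  have h1 : StronglyMeasurable fun q : (E k × ℝ × E m) × E m =>
      ((wt q.2 ^ ((((2 * k - 1 : ℕ) : ℝ) - 3) / 2) : ℝ) : ℂ) *
        Complex.exp (((-(q.1.2.1 * wt q.2) : ℝ) : ℂ) * I) * G (pt (q.2, q.1.1)) *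
        Complex.exp (-((⟪q.2, q.1.2.2⟫ : ℝ) : ℂ) * I) := by
    refine Measurable.stronglyMeasurable ?_
    have h2 : Measurable fun q : (E k × ℝ × E m) × E m => wt q.2 := wt_meas.comp measurable_snd
    have h3 : Measurable fun q : (E k × ℝ × E m) × E m => G (pt (q.2, q.1.1)) :=
      hG.comp (pt_meas.comp (measurable_snd.prodMk (measurable_fst.comp measurable_fst)))
    have h4 : Measurable fun q : (E k × ℝ × E m) × E m => (⟪q.2, q.1.2.2⟫ : ℝ) :=
      measurable_snd.inner (measurable_snd.comp (measurable_snd.comp measurable_fst))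
    have h5 : Measurable fun q : (E k × ℝ × E m) × E m => q.1.2.1 * wt q.2 :=
      (measurable_fst.comp (measurable_snd.comp measurable_fst)).mul h2
    have h6 : Measurable fun q : (E k × ℝ × E m) × E m =>
        Complex.exp (((-(q.1.2.1 * wt q.2) : ℝ) : ℂ) * I) :=
      Complex.measurable_exp.comp ((Complex.measurable_ofReal.comp h5.neg).mul_const I)
    have h7 : Measurable fun q : (E k × ℝ × E m) × E m =>
        Complex.exp (-((⟪q.2, q.1.2.2⟫ : ℝ) : ℂ) * I) :=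
      Complex.measurable_exp.comp ((Complex.measurable_ofReal.comp h4).neg.mul_const I)
    exact (((h2.pow_const _).complex_ofReal.mul h6).mul h3).mul h7
  exact (h1.integral_prod_right' (ν := (volume : Measure (E m)).restrict (ball 0 1))).measurable

attribute [irreducible] GG Wt

theorem GG_comp {α : Type*} [MeasurableSpace α] (G : E (k + m) → ℂ) (hG : Measurable G)
    (f : α → E k) (g : α → ℝ) (h : α → E m) (hf : Measurable f) (hg : Measurable g)
    (hh : Measurable h) : Measurable fun a => GG G (f a) (g a) (h a) :=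
  (GG_meas G hG).comp (hf.prodMk (hg.prodMk hh))

theorem Wt_comp {α : Type*} [MeasurableSpace α] (Q : ℝ) (e : E k) (f g : α → E k)
    (hf : Measurable f) (hg : Measurable g) : Measurable fun a => Wt Q e (f a) (g a) :=
  (Wt_meas Q e).comp (hf.prodMk hg)

/-- pointwise bound of the near part -/
theorem near_pow (hk : 2 ≤ k) (S : Set (E k)) (Q : ℝ) (hQ : 0 ≤ Q) (e : E k)
    (he : 0 < D Q e) (G : E (k + m) → ℂ) (hG : Measurable G) (hb : ∀ z, ‖G z‖ ≤ 1) (p : ℝ)
    (hp : 1 ≤ p) (x : E k) (y : E m) :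
    ‖FB (aR S Q e G x) y‖ₑ ^ p ≤
      (∫⁻ q, Wt Q e q.1 q.2 ∂(((sg k).restrict S).prod (sg k))) ^ (p - 1) *
      ∫⁻ q, Wt Q e q.1 q.2 * ‖GG G q.1 ⟪x, q.2⟫ y‖ₑ ^ p ∂(((sg k).restrict S).prod (sg k)) := by
  have f1 : IsFiniteMeasure (sg k) := sg_finite _
  have h1 : Measurable fun q : E k × E k => Wt Q e q.1 q.2 := Wt_meas Q e
  have h2 : Measurable fun q : E k × E k => (⟪x, q.2⟫ : ℝ) := by fun_prop
  have h3 : Measurable fun q : E k × E k => ‖GG G q.1 ⟪x, q.2⟫ y‖ₑ :=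
    (GG_comp G hG (fun q : E k × E k => q.1) (fun q => ⟪x, q.2⟫) (fun _ => y) measurable_fst h2
      measurable_const).enorm
  refine le_trans ?_ (jensen _ _ _ h1.aemeasurable h3.aemeasurable p hp)
  refine ENNReal.rpow_le_rpow ?_ (by linarith)
  rw [near_eq hk S Q hQ e he G hG hb x y]
  refine (enorm_integral_le_lintegral_enorm _).trans (lintegral_mono fun q => ?_)
  rw [enorm_mul]
  unfold GG Wt
  gcongr
  rw [← ofReal_norm, Complex.norm_real, Real.norm_of_nonneg (by positivity)]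

end Pool.Agent.Helper66x.AR
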