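import Mathlib
import Pool.Agent.Helper66x.AR.Near2
set_option autoImplicit false

/-! The total contribution of the near parts. -/

namespace Pool.Agent.Helper66x.AR

open MeasureTheory Set Complex Metric
open scoped ENNReal RealInnerProductSpace
open Pool.Agent.H789R2.FR (E sg T D A sg_finite sg_ae D_meas A_bound A_meas D_const D_pos
  T_A_eq kernel_bound D_lower ofReal_D cap_upper)
open Pool.Agent.H438R2.BR (J J_mp J_inner)
open Pool.Agent.H438R2.PD (P1 P2 P1_meas P2_meas T_meas')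
open Pool.Agent.TH335.RF (wt wt_meas wt_nonneg wt_pos wt_le_one FB Gf MA RT)

variable {k m : ℕ}

theorem cap_mass (k : ℕ) (hk : 2 ≤ k) : ∃ C : ℝ, 0 < C ∧ ∀ δ : ℝ, 0 < δ → ∀ x : E k, x ≠ 0 →
    sg k (NS δ x) ≤ ENNReal.ofReal (C * δ ^ (k - 1)) := by
  obtain ⟨C, hC, h⟩ := cap_upper k hk
  have f1 : IsFiniteMeasure (sg k) := sg_finite _
  refine ⟨2 * C * 2 ^ (k - 1), by positivity, fun δ hδ x hx => ?_⟩
  have hxp : 0 < ‖x‖ := norm_pos_iff.2 hx
  have hn : ‖‖x‖⁻¹ • x‖ = 1 := by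
    rw [norm_smul, norm_inv, norm_norm, inv_mul_cancel₀ hxp.ne']
  have hsub : NS δ x ⊆ {w | ‖(‖x‖⁻¹ • x) - w‖ < 2 * δ} ∪ {w | ‖-(‖x‖⁻¹ • x) - w‖ < 2 * δ} := by
    intro v hv
    obtain ⟨d1, d2⟩ := dir_norm x v hx 1 one_pos
    rw [one_smul] at d1 d2
    unfold NS at hv
    rw [mem_ofPred_eq, ← d1, ← d2, mul_comm δ, mul_le_mul_iff_right₀ hxp,
      mul_le_mul_iff_right₀ hxp] at hv
    rcases hv with hv | hv
    · left
      rw [mem_ofPred_eq]
      linarith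
    · right
      rw [mem_ofPred_eq]
      linarith
  have e1 : ∀ y : E k, ‖y‖ = 1 → sg k {w | ‖y - w‖ < 2 * δ} ≤
      ENNReal.ofReal (C * (2 * δ) ^ (k - 1)) := by
    intro y hy
    rw [← ofReal_measureReal]
    exact ENNReal.ofReal_le_ofReal (h (2 * δ) (by positivity) y hy)
  calc sg k (NS δ x) ≤ _ := measure_mono hsub
    _ ≤ _ := measure_union_le _ _
    _ ≤ ENNReal.ofReal (C * (2 * δ) ^ (k - 1)) + ENNReal.ofReal (C * (2 * δ) ^ (k - 1)) :=
        add_le_add (e1 _ hn) (e1 _ (by rw [norm_neg, hn]))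
    _ = _ := by
        rw [← ENNReal.ofReal_add (by positivity) (by positivity)]
        congr 1
        rw [mul_pow]
        ring

theorem mass_int (Q : ℝ) (hQ : 0 ≤ Q) (e : E k) (he : ‖e‖ = 1) (hD : 0 < D Q e) (S : Set (E k)) :
    ∫⁻ q, Wt Q e q.1 q.2 ∂(((sg k).restrict S).prod (sg k)) = sg k S := by
  have f1 : IsFiniteMeasure (sg k) := sg_finite _
  rw [lintegral_prod _ (Wt_meas Q e).aemeasurable]
  have h1 : ∀ᵐ v ∂((sg k).restrict S), ∫⁻ u, Wt Q e v u ∂(sg k) = 1 := by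
    filter_upwards [ae_restrict_of_ae (sg_ae k)] with v hv
    exact Wt_int Q hQ e v he hv hD
  rw [lintegral_congr_ae h1, lintegral_one, Measure.restrict_apply_univ]

/-- shells -/
def Sh (k : ℕ) (ρ : ℝ) : Set (E k) := {x | 2 * ρ ≤ ‖x‖ ∧ ‖x‖ < 4 * ρ}

theorem Sh_meas (k : ℕ) (ρ : ℝ) : MeasurableSet (Sh k ρ) :=
  (measurableSet_le measurable_const measurable_norm).inter
    (measurableSet_lt measurable_norm measurable_const)

theorem Sh_vol (k : ℕ) : ∃ C : ℝ, 0 < C ∧ ∀ ρ : ℝ, 0 < ρ →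
    volume (Sh k ρ) ≤ ENNReal.ofReal (C * ρ ^ k) := by
  have hv : volume (ball (0 : E k) 1) ≠ ⊤ := measure_ball_lt_top.ne
  set v : ℝ := (volume (ball (0 : E k) 1)).toReal with hvd
  have hv0 : 0 ≤ v := ENNReal.toReal_nonneg
  have hv1 : volume (ball (0 : E k) 1) = ENNReal.ofReal v := by rw [hvd, ENNReal.ofReal_toReal hv]
  refine ⟨4 ^ k * (v + 1), by positivity, fun ρ hρ => ?_⟩
  have hsub : Sh k ρ ⊆ ball (0 : E k) (4 * ρ) := fun x hx => by
    rw [mem_ball_zero_iff]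
    exact hx.2
  refine (measure_mono hsub).trans ?_
  rw [Measure.addHaar_ball_of_pos _ _ (by positivity), finrank_euclideanSpace_fin, hv1,
    ← ENNReal.ofReal_mul (by positivity)]
  apply ENNReal.ofReal_le_ofReal
  rw [mul_pow]
  have : 0 < 4 ^ k * ρ ^ k := by positivity
  nlinarith

/-- the `p`-th power integral of the main term -/
noncomputable def Ps (G : E (k + m) → ℂ) (p : ℝ) (v : E k) (r : ℝ) : ℝ≥0∞ :=
  ∫⁻ y : E m, ‖GG G v r y‖ₑ ^ p

theorem Ps_meas (G : E (k + m) → ℂ) (hG : Measurable G) (p : ℝ) :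
    Measurable fun q : E k × ℝ => Ps G p q.1 q.2 := by
  unfold Ps
  have h1 := GG_comp G hG (fun z : (E k × ℝ) × E m => z.1.1) (fun z => z.1.2) (fun z => z.2)
    (measurable_fst.comp measurable_fst) (measurable_snd.comp measurable_fst) measurable_snd
  exact (h1.enorm.pow_const p).lintegral_prod_right'

attribute [irreducible] Ps

theorem Ps_comp {α : Type*} [MeasurableSpace α] (G : E (k + m) → ℂ) (hG : Measurable G) (p : ℝ)
    (f : α → E k) (g : α → ℝ) (hf : Measurable f) (hg : Measurable g) :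
    Measurable fun a => Ps G p (f a) (g a) :=
  (Ps_meas G hG p).comp (hf.prodMk hg)

theorem proj_le (x u : E k) (hu : ‖u‖ = 1) (c : ℝ) : ‖x - (⟪x, u⟫ : ℝ) • u‖ ≤ ‖x - c • u‖ := by
  have h1 : ‖x - (⟪x, u⟫ : ℝ) • u‖ ^ 2 ≤ ‖x - c • u‖ ^ 2 := by
    rw [norm_sub_sq_real, norm_sub_sq_real, real_inner_smul_right, real_inner_smul_right, norm_smul,
      norm_smul, hu, mul_one, mul_one, Real.norm_eq_abs, Real.norm_eq_abs, sq_abs, sq_abs]
    nlinarith [sq_nonneg (c - ⟪x, u⟫)]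
  exact (sq_le_sq₀ (norm_nonneg _) (norm_nonneg _)).1 h1

/-- geometry of the near region -/
theorem near_geo (ρ δ : ℝ) (hδ : 0 < δ) (x u v : E k) (hu : ‖u‖ = 1)
    (hx : x ∈ Sh k ρ) (hv : v ∈ NS δ x) (huv : ‖u - v‖ ≤ δ) : x ∈ Cy u (8 * ρ * δ) (4 * ρ) := by
  have hxn := hx.2
  have hn := norm_nonneg x
  constructor
  · have key : ∀ s : ℝ, (s = 1 ∨ s = -1) → ‖x - (s * ‖x‖) • v‖ ≤ δ * ‖x‖ →
        ‖x - (⟪x, u⟫ : ℝ) • u‖ ≤ 8 * ρ * δ := by
      intro s hs h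
      refine (proj_le x u hu (s * ‖x‖)).trans ?_
      have e1 : x - (s * ‖x‖) • u = (x - (s * ‖x‖) • v) + (s * ‖x‖) • (v - u) := by
        rw [smul_sub]
        abel
      rw [e1]
      have h2 : ‖(s * ‖x‖) • (v - u)‖ ≤ ‖x‖ * δ := by
        rw [norm_smul, norm_mul, norm_norm, norm_sub_rev]
        rcases hs with rfl | rfl
        · rw [norm_one, one_mul]
          gcongr
        · rw [norm_neg, norm_one, one_mul]
          gcongr
      have h3 := norm_add_le (x - (s * ‖x‖) • v) ((s * ‖x‖) • (v - u))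
      nlinarith
    rcases hv with h | h
    · exact key 1 (Or.inl rfl) (by rwa [one_mul])
    · refine key (-1) (Or.inr rfl) ?_
      rw [neg_one_mul, neg_smul, sub_neg_eq_add]
      exact h
  · refine (abs_real_inner_le_norm x u).trans ?_
    rw [hu, mul_one]
    exact hxn.le

/-- the integral over `x` for fixed directions -/
theorem inner_bound (k m : ℕ) (hk : 2 ≤ k) (hm : 1 ≤ m) (p γ : ℝ) (hp : 2 < p)
    (hMn : Mn k m p γ) : ∃ C : ℝ, 0 < C ∧ ∀ ρ w : ℝ, 0 < ρ → 0 < w → 2 * w ≤ 1 → 1 ≤ ρ * w →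
    ∀ G : E (k + m) → ℂ, Measurable G → (∀ z, ‖G z‖ ≤ 1) →
    (∀ (y : E m) (u : E k), wt y ≤ w → G (pt (y, u)) = 0) →
    (∀ (y : E m) (u : E k), 2 * w < wt y → G (pt (y, u)) = 0) → ∀ δ : ℝ, 0 < δ →
    ∀ e : E k, ‖e‖ = 1 → ∀ v u : E k, ‖v‖ = 1 → ‖u‖ = 1 →
    ∫⁻ x in Sh k ρ, (NS δ x).indicator (fun v => Wt (ρ * w) e v u * Ps G p v ⟪x, u⟫) v ≤
      ENNReal.ofReal (C * (w ^ (k - 1)) ^ p * (ρ ^ (k - 1) * δ ^ (k - 1) *
        ρ ^ γ)) * Wt (ρ * w) e v u +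
      ENNReal.ofReal (C * (w ^ (k - 1)) ^ p * (Real.exp (-(ρ * w / 2) * δ ^ 2) *
        (ρ * w) ^ (((k : ℝ) - 1) / 2) * ρ ^ k)) := by
  obtain ⟨C1, hC1, h1⟩ := cyl k (by omega)
  obtain ⟨C2, hC2, h2⟩ := hMn
  obtain ⟨C3, hC3, h3⟩ := Gf_small k m hk hm p hp.le
  obtain ⟨C4, hC4, h4⟩ := Sh_vol k
  obtain ⟨c5, hc5, h5⟩ := D_lower k hk
  set A2 : ℝ := (2 ^ (k - 1)) ^ p with hA2
  have hA20 : 0 < A2 := by positivity
  refine ⟨C1 * C2 * 8 ^ (k - 1) * 4 ^ γ + C3 * C4 * c5⁻¹ * A2, by positivity, ?_⟩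
  intro ρ w hρ hw hw1 hQ G hG hb h0' h0 δ hδ e he v u hv hu
  have hD := D_pos k hk (ρ * w) hQ e he
  have hFm := vmeas G hG v
  have e0 : (( 2 * w) ^ (k - 1)) ^ p = A2 * (w ^ (k - 1)) ^ p := by
    rw [mul_pow, Real.mul_rpow (by positivity) (by positivity)]
  have hPe : ∀ r, Ps G p v r = ∫⁻ y : E m, ‖Gf (2 * k - 1) (fun y' => G (pt (y', v))) r y‖ₑ ^ p := by
    intro r
    unfold Ps GG
    rfl
  have hPm : Measurable fun r : ℝ => Ps G p v r :=
    Ps_comp G hG p (fun _ : ℝ => v) (fun r => r) measurable_const measurable_id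
  have hind : ∀ x : E k, (NS δ x).indicator (fun v => Wt (ρ * w) e v u * Ps G p v ⟪x, u⟫) v ≤
      Wt (ρ * w) e v u * Ps G p v ⟪x, u⟫ := fun x => indicator_le_self _ _ _
  rcases le_or_gt ‖u - v‖ δ with huv | huv
  · -- close directions
    refine le_trans ?_ le_self_add
    calc ∫⁻ x in Sh k ρ, (NS δ x).indicator (fun v => Wt (ρ * w) e v u * Ps G p v ⟪x, u⟫) v
        ≤ ∫⁻ x in Sh k ρ, (Cy u (8 * ρ * δ) (4 * ρ)).indicator
            (fun x => Wt (ρ * w) e v u * Ps G p v ⟪x, u⟫) x := by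
          refine setLIntegral_mono' (Sh_meas k ρ) fun x hx => ?_
          by_cases hvx : v ∈ NS δ x
          · rw [indicator_of_mem (near_geo ρ δ hδ x u v hu hx hvx huv)]
            exact hind x
          · rw [indicator_of_notMem hvx]
            exact bot_le
      _ ≤ ∫⁻ x, (Cy u (8 * ρ * δ) (4 * ρ)).indicator
            (fun x => Wt (ρ * w) e v u * Ps G p v ⟪x, u⟫) x := setLIntegral_le_lintegral _ _
      _ = ∫⁻ x in Cy u (8 * ρ * δ) (4 * ρ), Wt (ρ * w) e v u * Ps G p v ⟪x, u⟫ :=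
          lintegral_indicator (Cy_meas _ _ _) _
      _ = Wt (ρ * w) e v u * ∫⁻ x in Cy u (8 * ρ * δ) (4 * ρ), Ps G p v ⟪x, u⟫ := by
          rw [lintegral_const_mul']
          unfold Wt
          exact ENNReal.ofReal_ne_top
      _ ≤ Wt (ρ * w) e v u * (ENNReal.ofReal (C1 * (8 * ρ * δ) ^ (k - 1)) *
            ENNReal.ofReal (C2 * (w ^ (k - 1)) ^ p * (4 * ρ) ^ γ)) := by
          gcongr
          refine (h1 u hu (8 * ρ * δ) (by positivity) (4 * ρ) _ hPm).trans ?_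
          gcongr
          simp_rw [hPe]
          exact h2 _ hFm (fun y => hb _) w hw hw1 (fun y hy => h0' y v hy)
            (fun y hy => h0 y v hy) (4 * ρ) (by positivity) (by nlinarith)
      _ ≤ _ := by
          rw [mul_comm, ← ENNReal.ofReal_mul (by positivity)]
          refine mul_le_mul' (ENNReal.ofReal_le_ofReal ?_) le_rfl
          rw [Real.mul_rpow (by norm_num) hρ.le, mul_pow, mul_pow]
          have hpos : 0 ≤ C3 * C4 * c5⁻¹ * A2 * ((w ^ (k - 1)) ^ p * (ρ ^ (k - 1) * δ ^ (k - 1) *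
            ρ ^ γ)) := by positivity
          nlinarith
  · -- far directions
    refine le_trans ?_ le_add_self
    have hWle : Wt (ρ * w) e v u ≤ ENNReal.ofReal (Real.exp (-(ρ * w / 2) * δ ^ 2) *
        (c5⁻¹ * (ρ * w) ^ (((k : ℝ) - 1) / 2))) := by
      unfold Wt
      apply ENNReal.ofReal_le_ofReal
      rw [div_eq_mul_inv]
      have h6 := h5 (ρ * w) hQ e he
      have h7 : (D (ρ * w) e)⁻¹ ≤ c5⁻¹ * (ρ * w) ^ (((k : ℝ) - 1) / 2) := by
        have h8 : 0 < c5 * (ρ * w) ^ (-((k : ℝ) - 1) / 2) := by positivity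
        calc (D (ρ * w) e)⁻¹ ≤ (c5 * (ρ * w) ^ (-((k : ℝ) - 1) / 2))⁻¹ := by gcongr
          _ = _ := by
              rw [mul_inv, ← Real.rpow_neg (by positivity)]
              congr 2
              ring
      have h9 : Real.exp (-(ρ * w / 2) * ‖u - v‖ ^ 2) ≤ Real.exp (-(ρ * w / 2) * δ ^ 2) := by
        apply Real.exp_le_exp.2
        have : δ ^ 2 ≤ ‖u - v‖ ^ 2 := by gcongr
        nlinarith
      have := (Real.exp_pos (-(ρ * w / 2) * δ ^ 2)).le
      have h10 : 0 ≤ (D (ρ * w) e)⁻¹ := by positivity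
      exact mul_le_mul h9 h7 h10 this
    calc ∫⁻ x in Sh k ρ, (NS δ x).indicator (fun v => Wt (ρ * w) e v u * Ps G p v ⟪x, u⟫) v
        ≤ ∫⁻ x in Sh k ρ, ENNReal.ofReal (Real.exp (-(ρ * w / 2) * δ ^ 2) *
            (c5⁻¹ * (ρ * w) ^ (((k : ℝ) - 1) / 2))) *
            ENNReal.ofReal (C3 * ((2 * w) ^ (k - 1)) ^ p) := by
          refine lintegral_mono fun x => (hind x).trans ?_
          refine mul_le_mul' hWle ?_
          rw [hPe]
          exact h3 _ hFm (fun y => hb _) (2 * w) (by positivity) (fun y hy => h0 y v hy) _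
      _ = ENNReal.ofReal (Real.exp (-(ρ * w / 2) * δ ^ 2) *
            (c5⁻¹ * (ρ * w) ^ (((k : ℝ) - 1) / 2))) *
            ENNReal.ofReal (C3 * ((2 * w) ^ (k - 1)) ^ p) * volume (Sh k ρ) :=
          setLIntegral_const _ _
      _ ≤ ENNReal.ofReal (Real.exp (-(ρ * w / 2) * δ ^ 2) *
            (c5⁻¹ * (ρ * w) ^ (((k : ℝ) - 1) / 2))) *
            ENNReal.ofReal (C3 * ((2 * w) ^ (k - 1)) ^ p) * ENNReal.ofReal (C4 * ρ ^ k) := by
          gcongr
          exact h4 ρ hρ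
      _ ≤ _ := by
          rw [← ENNReal.ofReal_mul (by positivity), ← ENNReal.ofReal_mul (by positivity)]
          apply ENNReal.ofReal_le_ofReal
          rw [e0]
          have hpos : 0 ≤ C1 * C2 * 8 ^ (k - 1) * 4 ^ γ * ((w ^ (k - 1)) ^ p *
            (Real.exp (-(ρ * w / 2) * δ ^ 2) * (ρ * w) ^ (((k : ℝ) - 1) / 2) * ρ ^ k)) := by
            positivity
          nlinarith

end Pool.Agent.Helper66x.AR
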