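import Mathlib
import Pool.Agent.Helper66x.AR.Near3
set_option autoImplicit false

/-! The smoothed density. -/

namespace Pool.Agent.Helper66x.AR

open MeasureTheory Set Complex Metric
open scoped ENNReal RealInnerProductSpace
open Pool.Agent.H789R2.FR (E sg T D A sg_finite sg_ae D_meas A_bound A_meas D_const D_pos
  T_A_eq kernel_bound D_lower ofReal_D cap_upper exists_unit)
open Pool.Agent.H438R2.BR (J J_mp J_inner)
open Pool.Agent.H438R2.PD (P1 P2 P1_meas P2_meas T_meas')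
open Pool.Agent.TH335.RF (wt wt_meas wt_nonneg wt_pos wt_le_one FB Gf MA RT)

variable {k m : ℕ}

theorem near_fix (S : Set (E k)) (hS : MeasurableSet S) (Q : ℝ) (e : E k) (G : E (k + m) → ℂ)
    (hG : Measurable G) (p : ℝ) (x : E k) :
    ∫⁻ y : E m, ∫⁻ q, Wt Q e q.1 q.2 * ‖GG G q.1 ⟪x, q.2⟫ y‖ₑ ^ p
      ∂(((sg k).restrict S).prod (sg k)) =
    ∫⁻ q, S.indicator (fun v => Wt Q e v q.2 * Ps G p v ⟪x, q.2⟫) q.1 ∂((sg k).prod (sg k)) := by
  have f1 : IsFiniteMeasure (sg k) := sg_finite _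
  have hin : Measurable fun z : E m × (E k × E k) => (⟪x, z.2.2⟫ : ℝ) := by fun_prop
  have h1 : Measurable fun z : E m × (E k × E k) => Wt Q e z.2.1 z.2.2 *
      ‖GG G z.2.1 ⟪x, z.2.2⟫ z.1‖ₑ ^ p := by
    have h2 := Wt_comp Q e (fun z : E m × (E k × E k) => z.2.1) (fun z => z.2.2)
      (measurable_fst.comp measurable_snd) (measurable_snd.comp measurable_snd)
    have h3 := GG_comp G hG (fun z : E m × (E k × E k) => z.2.1) (fun z => ⟪x, z.2.2⟫)
      (fun z => z.1) (measurable_fst.comp measurable_snd) hin measurable_fst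
    exact h2.mul (h3.enorm.pow_const p)
  rw [lintegral_lintegral_swap (f := fun (y : E m) (q : E k × E k) => Wt Q e q.1 q.2 *
    ‖GG G q.1 ⟪x, q.2⟫ y‖ₑ ^ p) h1.aemeasurable]
  have e1 : ((sg k).restrict S).prod (sg k) = ((sg k).prod (sg k)).restrict (S ×ˢ univ) := by
    conv_lhs => rw [← Measure.restrict_univ (μ := sg k)]
    rw [Measure.restrict_restrict hS, Measure.prod_restrict, inter_univ]
  rw [e1, ← lintegral_indicator (hS.prod MeasurableSet.univ)]
  refine lintegral_congr fun q => ?_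
  have e2 : ∫⁻ y : E m, Wt Q e q.1 q.2 * ‖GG G q.1 ⟪x, q.2⟫ y‖ₑ ^ p =
      Wt Q e q.1 q.2 * Ps G p q.1 ⟪x, q.2⟫ := by
    rw [lintegral_const_mul']
    · unfold Ps
      rfl
    · unfold Wt
      exact ENNReal.ofReal_ne_top
  by_cases hq : q.1 ∈ S
  · rw [indicator_of_mem hq, indicator_of_mem (show q ∈ S ×ˢ univ from ⟨hq, trivial⟩), e2]
  · rw [indicator_of_notMem hq, indicator_of_notMem (fun hc => hq hc.1)]

theorem near_total (k m : ℕ) (hk : 2 ≤ k) (hm : 1 ≤ m) (p γ : ℝ) (hp : 2 < p)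
    (hMn : Mn k m p γ) : ∃ C : ℝ, 0 < C ∧ ∀ ρ w : ℝ, 0 < ρ → 0 < w → 2 * w ≤ 1 → 1 ≤ ρ * w →
    ∀ G : E (k + m) → ℂ, Measurable G → (∀ z, ‖G z‖ ≤ 1) →
    (∀ (y : E m) (u : E k), wt y ≤ w → G (pt (y, u)) = 0) →
    (∀ (y : E m) (u : E k), 2 * w < wt y → G (pt (y, u)) = 0) → ∀ δ : ℝ, 0 < δ →
    ∀ e : E k, ‖e‖ = 1 →
    ∫⁻ x in Sh k ρ, ∫⁻ y : E m, ‖FB (aR (NS δ x) (ρ * w) e G x) y‖ₑ ^ p ≤
      ENNReal.ofReal (C * (w ^ (k - 1)) ^ p * (δ ^ (k - 1)) ^ (p - 1) * (ρ ^ (k - 1) * δ ^ (k - 1) *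
        ρ ^ γ + Real.exp (-(ρ * w / 2) * δ ^ 2) *
        (ρ * w) ^ (((k : ℝ) - 1) / 2) * ρ ^ k)) := by
  obtain ⟨C1, hC1, h1⟩ := cap_mass k hk
  obtain ⟨C2, hC2, h2⟩ := inner_bound k m hk hm p γ hp hMn
  have f1 : IsFiniteMeasure (sg k) := sg_finite _
  set σ : ℝ := (sg k).real univ with hσ
  have hσ0 : 0 ≤ σ := measureReal_nonneg
  have hσ1 : sg k univ = ENNReal.ofReal σ := by rw [hσ, ofReal_measureReal]
  refine ⟨C1 ^ (p - 1) * (C2 * (σ + 1) * (σ + 1)), by positivity, ?_⟩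
  intro ρ w hρ hw hw1 hQ G hG hb h0' h0 δ hδ e he
  have hD := D_pos k hk (ρ * w) hQ e he
  set B1 : ℝ := C2 * (w ^ (k - 1)) ^ p * (ρ ^ (k - 1) * δ ^ (k - 1) * ρ ^ γ) with hB1
  set B2 : ℝ := C2 * (w ^ (k - 1)) ^ p * (Real.exp (-(ρ * w / 2) * δ ^ 2) *
        (ρ * w) ^ (((k : ℝ) - 1) / 2) * ρ ^ k) with hB2
  have hB10 : 0 ≤ B1 := by positivity
  have hB20 : 0 ≤ B2 := by positivity
  -- pointwise estimate
  have s1 : ∀ x ∈ Sh k ρ, ∫⁻ y : E m, ‖FB (aR (NS δ x) (ρ * w) e G x) y‖ₑ ^ p ≤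
      (ENNReal.ofReal (C1 * δ ^ (k - 1))) ^ (p - 1) *
      ∫⁻ q, (NS δ x).indicator (fun v => Wt (ρ * w) e v q.2 * Ps G p v ⟪x, q.2⟫) q.1
        ∂((sg k).prod (sg k)) := by
    intro x hx
    have hx0 : x ≠ 0 := by
      rintro rfl
      have := hx.1
      rw [norm_zero] at this
      linarith
    rw [← near_fix (NS δ x) (NS_meas δ x) (ρ * w) e G hG p x]
    rw [← lintegral_const_mul' _ _ (ENNReal.rpow_ne_top_of_nonneg (by linarith)
      ENNReal.ofReal_ne_top)]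
    refine lintegral_mono fun y => ?_
    refine (near_pow hk (NS δ x) (ρ * w) (by linarith) e hD G hG hb p (by linarith) x y).trans ?_
    rw [mass_int (ρ * w) (by linarith) e he hD]
    gcongr
    · linarith
    · exact h1 δ hδ x hx0
  have hHm : Measurable fun z : E k × (E k × E k) =>
      (NS δ z.1).indicator (fun v => Wt (ρ * w) e v z.2.2 * Ps G p v ⟪z.1, z.2.2⟫) z.2.1 := by
    have hs : MeasurableSet {z : E k × (E k × E k) | z.2.1 ∈ NS δ z.1} := by
      have h3 : Measurable fun z : E k × (E k × E k) => ((z.1, z.2.1) : E k × E k) :=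
        measurable_fst.prodMk (measurable_fst.comp measurable_snd)
      exact h3 (NS_meas2 δ)
    have hin : Measurable fun z : E k × (E k × E k) => (⟪z.1, z.2.2⟫ : ℝ) := by fun_prop
    have h4 := Wt_comp (ρ * w) e (fun z : E k × (E k × E k) => z.2.1) (fun z => z.2.2)
      (measurable_fst.comp measurable_snd) (measurable_snd.comp measurable_snd)
    have h5 := Ps_comp G hG p (fun z : E k × (E k × E k) => z.2.1) (fun z => ⟪z.1, z.2.2⟫)
      (measurable_fst.comp measurable_snd) hin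
    have h6 := (h4.mul h5).indicator hs
    have e7 : (fun z : E k × (E k × E k) =>
        (NS δ z.1).indicator (fun v => Wt (ρ * w) e v z.2.2 * Ps G p v ⟪z.1, z.2.2⟫) z.2.1) =
        {z : E k × (E k × E k) | z.2.1 ∈ NS δ z.1}.indicator
          (fun z => Wt (ρ * w) e z.2.1 z.2.2 * Ps G p z.2.1 ⟪z.1, z.2.2⟫) := by
      funext z
      by_cases hz : z.2.1 ∈ NS δ z.1
      · rw [indicator_of_mem hz, indicator_of_mem (show z ∈ {z : E k × (E k × E k) |
          z.2.1 ∈ NS δ z.1} from hz)]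
      · rw [indicator_of_notMem hz, indicator_of_notMem (show z ∉ {z : E k × (E k × E k) |
          z.2.1 ∈ NS δ z.1} from hz)]
    rw [e7]
    exact h6
  have s2 : ∫⁻ x in Sh k ρ, ∫⁻ q, (NS δ x).indicator
      (fun v => Wt (ρ * w) e v q.2 * Ps G p v ⟪x, q.2⟫) q.1 ∂((sg k).prod (sg k)) ≤
      ENNReal.ofReal ((B1 + B2 * σ) * σ) := by
    rw [lintegral_lintegral_swap (f := fun (x : E k) (q : E k × E k) => (NS δ x).indicator
      (fun v => Wt (ρ * w) e v q.2 * Ps G p v ⟪x, q.2⟫) q.1) hHm.aemeasurable,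
      lintegral_prod _ (hHm.lintegral_prod_left' (μ := (volume.restrict (Sh k ρ)))).aemeasurable]
    calc _ ≤ ∫⁻ v, ∫⁻ u, (ENNReal.ofReal B1 * Wt (ρ * w) e v u + ENNReal.ofReal B2) ∂(sg k)
          ∂(sg k) := by
          refine lintegral_mono_ae ?_
          filter_upwards [sg_ae k] with v hv
          refine lintegral_mono_ae ?_
          filter_upwards [sg_ae k] with u hu
          exact h2 ρ w hρ hw hw1 hQ G hG hb h0' h0 δ hδ e he v u hv hu
      _ = ∫⁻ v, ENNReal.ofReal (B1 + B2 * σ) ∂(sg k) := by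
          refine lintegral_congr_ae ?_
          filter_upwards [sg_ae k] with v hv
          rw [lintegral_add_right _ measurable_const, lintegral_const_mul' _ _ ENNReal.ofReal_ne_top,
            Wt_int _ (by linarith) e v he hv hD, lintegral_const, hσ1, mul_one,
            ← ENNReal.ofReal_mul hB20, ← ENNReal.ofReal_add hB10 (by positivity)]
      _ = _ := by
          rw [lintegral_const, hσ1, ← ENNReal.ofReal_mul (by positivity)]
  calc _ ≤ ∫⁻ x in Sh k ρ, (ENNReal.ofReal (C1 * δ ^ (k - 1))) ^ (p - 1) *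
      ∫⁻ q, (NS δ x).indicator (fun v => Wt (ρ * w) e v q.2 * Ps G p v ⟪x, q.2⟫) q.1
        ∂((sg k).prod (sg k)) := setLIntegral_mono' (Sh_meas k ρ) s1
    _ ≤ (ENNReal.ofReal (C1 * δ ^ (k - 1))) ^ (p - 1) * ENNReal.ofReal ((B1 + B2 * σ) * σ) := by
        rw [lintegral_const_mul' _ _ (ENNReal.rpow_ne_top_of_nonneg (by linarith)
          ENNReal.ofReal_ne_top)]
        gcongr
    _ ≤ _ := by
        rw [ENNReal.ofReal_rpow_of_nonneg (by positivity) (by linarith),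
          ← ENNReal.ofReal_mul (by positivity)]
        apply ENNReal.ofReal_le_ofReal
        rw [Real.mul_rpow hC1.le (by positivity)]
        have h7 : (B1 + B2 * σ) * σ ≤ (B1 + B2) * ((σ + 1) * (σ + 1)) := by
          nlinarith [mul_nonneg hB10 hσ0, mul_nonneg hB20 hσ0, mul_nonneg hB10 (sq_nonneg σ),
            mul_nonneg hB20 (sq_nonneg σ)]
        have h8 : B1 + B2 = C2 * (w ^ (k - 1)) ^ p * (ρ ^ (k - 1) * δ ^ (k - 1) *
          ρ ^ γ + Real.exp (-(ρ * w / 2) * δ ^ 2) *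
          (ρ * w) ^ (((k : ℝ) - 1) / 2) * ρ ^ k) := by rw [hB1, hB2]; ring
        calc _ ≤ C1 ^ (p - 1) * (δ ^ (k - 1)) ^ (p - 1) * ((B1 + B2) * ((σ + 1) * (σ + 1))) := by
              gcongr
          _ = _ := by
              rw [h8]
              ring

end Pool.Agent.Helper66x.AR
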