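import Mathlib
import Pool.Agent.Helper66x.AR.Near4
set_option autoImplicit false

/-! The smoothed density, total. -/

namespace Pool.Agent.Helper66x.AR

open MeasureTheory Set Complex Metric
open scoped ENNReal RealInnerProductSpace
open Pool.Agent.H789R2.FR (E sg T D A sg_finite sg_ae D_meas A_bound A_meas D_const D_pos
  T_A_eq kernel_bound D_lower ofReal_D cap_upper exists_unit)
open Pool.Agent.H438R2.BR (J J_mp J_inner)
open Pool.Agent.H438R2.PD (P1 P2 P1_meas P2_meas T_meas')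
open Pool.Agent.TH335.RF (wt wt_meas wt_nonneg wt_pos wt_le_one FB Gf MA RT)

variable {k m : ℕ}

theorem FB_split (A B C : E m → ℂ) (hA : Measurable A) (hB : Measurable B) (MA MB : ℝ)
    (hMA : ∀ y, ‖A y‖ ≤ MA) (hMB : ∀ y, ‖B y‖ ≤ MB)
    (h : ∀ y ∈ ball (0 : E m) 1, C y = A y + B y) (y : E m) : FB C y = FB A y + FB B y := by
  have hex : Measurable fun y' : E m => Complex.exp (-((⟪y', y⟫ : ℝ) : ℂ) * I) :=
    (by fun_prop : Continuous _).measurable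
  have hi : ∀ (F : E m → ℂ) (K : ℝ), Measurable F → (∀ y, ‖F y‖ ≤ K) →
      Integrable (fun y' => F y' * Complex.exp (-((⟪y', y⟫ : ℝ) : ℂ) * I))
        ((volume : Measure (E m)).restrict (ball (0 : E m) 1)) := by
    intro F K hF hK
    refine Integrable.of_bound (hF.mul hex).aestronglyMeasurable K
      (Filter.Eventually.of_forall fun z => ?_)
    rw [norm_mul, ex_norm, mul_one]
    exact hK z
  unfold FB
  rw [← integral_add (hi A MA hA hMA) (hi B MB hB hMB)]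
  refine setIntegral_congr_fun measurableSet_ball fun y' hy' => ?_
  rw [h y' hy', add_mul]

theorem smooth_total (k m : ℕ) (hk : 2 ≤ k) (hm : 1 ≤ m) (p γ : ℝ) (hp : 2 < p)
    (hMn : Mn k m p γ) : ∃ C : ℝ, 0 < C ∧ ∀ ρ w : ℝ, 0 < ρ → 0 < w → 2 * w ≤ 1 → 1 ≤ ρ * w →
    ∀ G : E (k + m) → ℂ, Measurable G → (∀ z, ‖G z‖ ≤ 1) →
    (∀ (y : E m) (u : E k), wt y ≤ w → G (pt (y, u)) = 0) →
    (∀ (y : E m) (u : E k), 2 * w < wt y → G (pt (y, u)) = 0) → ∀ δ : ℝ, 0 < δ →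
    ∫⁻ x in Sh k ρ, ∫⁻ y : E m, ‖T (sm (ρ * w) G) (J x y)‖ₑ ^ p ≤
      ENNReal.ofReal (C * (w ^ (k - 1)) ^ p * ((δ ^ (k - 1)) ^ (p - 1) *
        (ρ ^ (k - 1) * δ ^ (k - 1) *
        ρ ^ γ + Real.exp (-(ρ * w / 2) * δ ^ 2) *
        (ρ * w) ^ (((k : ℝ) - 1) / 2) * ρ ^ k) +
        Real.exp (-(ρ * w / 10) * δ ^ 2) ^ p * ρ ^ k)) := by
  obtain ⟨C1, hC1, h1⟩ := near_total k m hk hm p γ hp hMn
  obtain ⟨C2, hC2, h2⟩ := far_le k m hk
  obtain ⟨C3, hC3, h3⟩ := small_Lp k m hk hm p hp.le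
  obtain ⟨C4, hC4, h4⟩ := Sh_vol k
  obtain ⟨e, he⟩ := exists_unit k hk
  set A2 : ℝ := (2 ^ (k - 1)) ^ p with hA2
  have hA20 : 0 < A2 := by positivity
  refine ⟨2 ^ (p - 1) * (C1 + C3 * C2 ^ p * A2 * C4), by positivity, ?_⟩
  intro ρ w hρ hw hw1 hQ G hG hb h0 h0' δ hδ
  have hD := D_pos k hk (ρ * w) hQ e he
  have hQ0 : 0 ≤ ρ * w := by linarith
  set N1 : ℝ := (δ ^ (k - 1)) ^ (p - 1) * (ρ ^ (k - 1) * δ ^ (k - 1) *
        ρ ^ γ + Real.exp (-(ρ * w / 2) * δ ^ 2) *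
        (ρ * w) ^ (((k : ℝ) - 1) / 2) * ρ ^ k) with hN1
  have hN10 : 0 ≤ N1 := by positivity
  have s1 : ∀ x ∈ Sh k ρ, ∀ y : E m, ‖T (sm (ρ * w) G) (J x y)‖ₑ ^ p ≤
      2 ^ (p - 1) * (‖FB (aR (NS δ x) (ρ * w) e G x) y‖ₑ ^ p +
        ‖FB (aR (NS δ x)ᶜ (ρ * w) e G x) y‖ₑ ^ p) := by
    intro x hx y
    rw [rep hk hm _ (sm_meas (ρ * w) G hG) 1 (sm_le _ hQ0 G hb) x y,
      FB_split _ _ (am (sm (ρ * w) G) x) (aR_meas (NS δ x) (ρ * w) e G hG x)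
      (aR_meas (NS δ x)ᶜ (ρ * w) e G hG x) _ _ (aR_le (NS δ x) (ρ * w) hQ0 e hD G hb x)
      (aR_le (NS δ x)ᶜ (ρ * w) hQ0 e hD G hb x) (fun y' hy' => by
        rw [aR_add (NS δ x) (NS_meas δ x) (ρ * w) hQ0 e hD G hG hb x y',
          am_sm hk (ρ * w) hQ G hG hb e he x y' hy'])]
    calc _ ≤ (‖FB (aR (NS δ x) (ρ * w) e G x) y‖ₑ +
        ‖FB (aR (NS δ x)ᶜ (ρ * w) e G x) y‖ₑ) ^ p := by
          gcongr
          exact enorm_add_le _ _
      _ ≤ _ := ENNReal.rpow_add_le_mul_rpow_add_rpow _ _ (by linarith)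
  have s2 : ∀ x ∈ Sh k ρ, ∫⁻ y : E m, ‖FB (aR (NS δ x)ᶜ (ρ * w) e G x) y‖ₑ ^ p ≤
      ENNReal.ofReal (C3 * (C2 * Real.exp (-(ρ * w / 10) * δ ^ 2) * (2 * w) ^ (k - 1)) ^ p) := by
    intro x hx
    refine h3 _ (aR_meas (NS δ x)ᶜ (ρ * w) e G hG x) _ (by positivity) (2 * w) (by positivity)
      (fun y hy => ?_) (fun y => h2 ρ w hρ hw hQ G hb h0 δ hδ e he x hx.1 y)
    unfold aR
    simp [h0' y _ hy]
  have hm1 : ∀ x : E k, Measurable fun y : E m => ‖FB (aR (NS δ x)ᶜ (ρ * w) e G x) y‖ₑ ^ p := by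
    intro x
    have hex : StronglyMeasurable fun q : E m × E m => aR (NS δ x)ᶜ (ρ * w) e G x q.2 *
        Complex.exp (-((⟪q.2, q.1⟫ : ℝ) : ℂ) * I) := by
      refine Measurable.stronglyMeasurable ?_
      have i1 : Measurable fun q : E m × E m => Complex.exp (-((⟪q.2, q.1⟫ : ℝ) : ℂ) * I) :=
        (by fun_prop : Continuous _).measurable
      have i2 := Measurable.comp (aR_meas (NS δ x)ᶜ (ρ * w) e G hG x)
        (measurable_snd : Measurable (Prod.snd : E m × E m → E m))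
      exact i2.mul i1
    have i3 := (hex.integral_prod_right' (ν := (volume : Measure (E m)).restrict (ball 0 1))).measurable
    exact i3.enorm.pow_const p
  calc ∫⁻ x in Sh k ρ, ∫⁻ y : E m, ‖T (sm (ρ * w) G) (J x y)‖ₑ ^ p
      ≤ ∫⁻ x in Sh k ρ, 2 ^ (p - 1) * ((∫⁻ y : E m, ‖FB (aR (NS δ x) (ρ * w) e G x) y‖ₑ ^ p) +
        ENNReal.ofReal (C3 * (C2 * Real.exp (-(ρ * w / 10) * δ ^ 2) * (2 * w) ^ (k - 1)) ^ p)) := by
        refine setLIntegral_mono' (Sh_meas k ρ) fun x hx => ?_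
        calc ∫⁻ y : E m, ‖T (sm (ρ * w) G) (J x y)‖ₑ ^ p
            ≤ ∫⁻ y : E m, 2 ^ (p - 1) * (‖FB (aR (NS δ x) (ρ * w) e G x) y‖ₑ ^ p +
              ‖FB (aR (NS δ x)ᶜ (ρ * w) e G x) y‖ₑ ^ p) := lintegral_mono fun y => s1 x hx y
          _ = 2 ^ (p - 1) * ((∫⁻ y : E m, ‖FB (aR (NS δ x) (ρ * w) e G x) y‖ₑ ^ p) +
              ∫⁻ y : E m, ‖FB (aR (NS δ x)ᶜ (ρ * w) e G x) y‖ₑ ^ p) := by
              rw [lintegral_const_mul' _ _ (ENNReal.rpow_ne_top_of_nonneg (by linarith) (by simp)),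
                lintegral_add_right _ (hm1 x)]
          _ ≤ _ := by
              gcongr
              exact s2 x hx
    _ = 2 ^ (p - 1) * ((∫⁻ x in Sh k ρ, ∫⁻ y : E m, ‖FB (aR (NS δ x) (ρ * w) e G x) y‖ₑ ^ p) +
        ENNReal.ofReal (C3 * (C2 * Real.exp (-(ρ * w / 10) * δ ^ 2) * (2 * w) ^ (k - 1)) ^ p) *
          volume (Sh k ρ)) := by
        rw [lintegral_const_mul' _ _ (ENNReal.rpow_ne_top_of_nonneg (by linarith) (by simp)),
          lintegral_add_right _ measurable_const, setLIntegral_const]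
    _ ≤ 2 ^ (p - 1) * (ENNReal.ofReal (C1 * (w ^ (k - 1)) ^ p * (δ ^ (k - 1)) ^ (p - 1) *
        (ρ ^ (k - 1) * δ ^ (k - 1) * ρ ^ γ + Real.exp (-(ρ * w / 2) * δ ^ 2) *
        (ρ * w) ^ (((k : ℝ) - 1) / 2) * ρ ^ k)) +
        ENNReal.ofReal (C3 * (C2 * Real.exp (-(ρ * w / 10) * δ ^ 2) * (2 * w) ^ (k - 1)) ^ p) *
          ENNReal.ofReal (C4 * ρ ^ k)) := by
        gcongr
        · exact h1 ρ w hρ hw hw1 hQ G hG hb h0 h0' δ hδ e he
        · exact h4 ρ hρ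
    _ ≤ _ := by
        have e1 : (2 : ℝ≥0∞) ^ (p - 1) = ENNReal.ofReal (2 ^ (p - 1)) := by
          rw [← ENNReal.ofReal_rpow_of_nonneg (by norm_num) (by linarith)]
          norm_num
        rw [e1, ← ENNReal.ofReal_mul (by positivity), ← ENNReal.ofReal_add (by positivity)
          (by positivity), ← ENNReal.ofReal_mul (by positivity)]
        apply ENNReal.ofReal_le_ofReal
        have e3 : (C2 * Real.exp (-(ρ * w / 10) * δ ^ 2) * (2 * w) ^ (k - 1)) ^ p =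
            C2 ^ p * Real.exp (-(ρ * w / 10) * δ ^ 2) ^ p * (A2 * (w ^ (k - 1)) ^ p) := by
          rw [Real.mul_rpow (by positivity) (by positivity),
            Real.mul_rpow hC2.le (Real.exp_pos _).le,
            mul_pow, Real.mul_rpow (by positivity) (by positivity), ← hA2]
        rw [e3]
        set X := (w ^ (k - 1)) ^ p with hX
        set Y := Real.exp (-(ρ * w / 10) * δ ^ 2) ^ p with hY
        have hX0 : 0 ≤ X := by positivity
        have hY0 : 0 ≤ Y := by positivity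
        have e2 : C1 * X * (δ ^ (k - 1)) ^ (p - 1) * (ρ ^ (k - 1) * δ ^ (k - 1) * ρ ^ γ +
            Real.exp (-(ρ * w / 2) * δ ^ 2) * (ρ * w) ^ (((k : ℝ) - 1) / 2) * ρ ^ k) +
            C3 * (C2 ^ p * Y * (A2 * X)) * (C4 * ρ ^ k) =
            X * (C1 * N1 + C3 * C2 ^ p * A2 * C4 * (Y * ρ ^ k)) := by
          rw [hN1]
          ring
        rw [e2]
        have h7 : C1 * N1 + C3 * C2 ^ p * A2 * C4 * (Y * ρ ^ k) ≤
            (C1 + C3 * C2 ^ p * A2 * C4) * (N1 + Y * ρ ^ k) := by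
          have i1 : 0 ≤ C3 * C2 ^ p * A2 * C4 * N1 := by positivity
          have i2 : 0 ≤ C1 * (Y * ρ ^ k) := by positivity
          nlinarith
        calc 2 ^ (p - 1) * (X * (C1 * N1 + C3 * C2 ^ p * A2 * C4 * (Y * ρ ^ k)))
            ≤ 2 ^ (p - 1) * (X * ((C1 + C3 * C2 ^ p * A2 * C4) * (N1 + Y * ρ ^ k))) := by gcongr
          _ = _ := by ring

/-- `e^{-v} ≤ C v^{-a}` -/
theorem exp_dec (a : ℝ) (ha : 0 < a) : ∃ C : ℝ, 0 < C ∧ ∀ v : ℝ, 0 < v →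
    Real.exp (-v) ≤ C * v ^ (-a) := by
  refine ⟨Real.exp (a * Real.log a - a), Real.exp_pos _, fun v hv => ?_⟩
  rw [Real.rpow_def_of_pos hv, ← Real.exp_add]
  apply Real.exp_le_exp.2
  have h1 : Real.log (v / a) ≤ v / a - 1 := Real.log_le_sub_one_of_pos (by positivity)
  rw [Real.log_div hv.ne' ha.ne'] at h1
  have h2 : a * (Real.log v - Real.log a) ≤ a * (v / a - 1) := by gcongr
  have h3 : a * (v / a - 1) = v - a := by field_simp
  nlinarith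

theorem exp_dec2 (c ε K : ℝ) (hc : 0 < c) (hε : 0 < ε) (hK : 0 < K) : ∃ C : ℝ, 0 < C ∧
    ∀ ρ : ℝ, 1 ≤ ρ → Real.exp (-(c * ρ ^ (2 * ε))) ≤ C * ρ ^ (-K) := by
  obtain ⟨C, hC, h⟩ := exp_dec (K / (2 * ε)) (by positivity)
  refine ⟨C * c ^ (-(K / (2 * ε))), by positivity, fun ρ hρ => ?_⟩
  have hρ0 : 0 < ρ := by linarith
  refine (h _ (by positivity)).trans (le_of_eq ?_)
  have e1 : 2 * ε * -(K / (2 * ε)) = -K := by field_simp
  rw [Real.mul_rpow hc.le (by positivity), ← Real.rpow_mul hρ0.le, e1]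
  ring

end Pool.Agent.Helper66x.AR
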