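import Mathlib
import Pool.Agent.Helper66x.AR.Smt
import Pool.Agent.H789R2.FR.Rem
set_option autoImplicit false

/-! The difference of the density and the smoothed density. -/

namespace Pool.Agent.Helper66x.AR

open MeasureTheory Set Complex Metric
open scoped ENNReal RealInnerProductSpace
open Pool.Agent.H789R2.FR (E sg T D A sg_finite sg_ae A_meas A_bound rem_bound)
open Pool.Agent.H438R2.BR (J J_mp J_inner)
open Pool.Agent.H438R2.PD (P1 P2 P1_meas P2_meas T_meas')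
open Pool.Agent.TH335.RF (wt wt_meas wt_nonneg wt_pos wt_le_one FB Gf MA RT enorm_sq)

variable {k m : ℕ}

/-- the seminorm of order `s` on the fibre over `y` -/
noncomputable def Kf (G : E (k + m) → ℂ) (s : ℝ) (y : E m) : ℝ≥0∞ :=
  ∫⁻ u, ∫⁻ v, ENNReal.ofReal (‖G (pt (y, u)) - G (pt (y, v))‖ ^ 2 /
    ‖u - v‖ ^ ((k : ℝ) - 1 + 2 * s)) ∂(sg k) ∂(sg k)

/-- the seminorm of order `s` along the fibres -/
noncomputable def Sb (G : E (k + m) → ℂ) (s : ℝ) : ℝ≥0∞ :=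
  ∫⁻ y in ball (0 : E m) 1, ENNReal.ofReal (wt y ^ ((k : ℝ) - 2 - 2 * s)) * Kf G s y

/-- the remainder on one sphere -/
theorem rem_sphere (k : ℕ) (hk : 2 ≤ k) (s : ℝ) (hs : 0 < s) : ∃ C : ℝ, 0 < C ∧
    ∀ φ : E k → ℂ, Measurable φ → (∃ M : ℝ, ∀ x, ‖φ x‖ ≤ M) → ∀ Q : ℝ, 1 ≤ Q →
    ∫⁻ u, ‖φ u - A Q φ u‖ₑ ^ (2 : ℝ) ∂(sg k) ≤ ENNReal.ofReal (C * Q ^ (-s)) *
      ∫⁻ u, ∫⁻ v, ENNReal.ofReal (‖φ u - φ v‖ ^ 2 / ‖u - v‖ ^ ((k : ℝ) - 1 + 2 * s))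
        ∂(sg k) ∂(sg k) := by
  obtain ⟨C, hC, h⟩ := rem_bound k hk s hs
  refine ⟨C, hC, ?_⟩
  rintro φ hφ ⟨M, hM⟩ Q hQ
  have hQ0 : 0 < Q := by linarith
  by_cases hfin : (∫⁻ u, ∫⁻ v, ENNReal.ofReal (‖φ u - φ v‖ ^ 2 / ‖u - v‖ ^ ((k : ℝ) - 1 + 2 * s))
        ∂(sg k) ∂(sg k)) = ⊤
  · rw [hfin, ENNReal.mul_top]
    · exact le_top
    · rw [Ne, ENNReal.ofReal_eq_zero, not_le]
      positivity
  · set K : ℝ := (∫⁻ u, ∫⁻ v, ENNReal.ofReal (‖φ u - φ v‖ ^ 2 / ‖u - v‖ ^ ((k : ℝ) - 1 + 2 * s))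
        ∂(sg k) ∂(sg k)).toReal with hK
    have hK0 : 0 ≤ K := ENNReal.toReal_nonneg
    have e1 : (∫⁻ u, ∫⁻ v, ENNReal.ofReal (‖φ u - φ v‖ ^ 2 / ‖u - v‖ ^ ((k : ℝ) - 1 + 2 * s))
        ∂(sg k) ∂(sg k)) = ENNReal.ofReal K := by rw [hK, ENNReal.ofReal_toReal hfin]
    have h1 := h φ hφ ⟨M, hM⟩ K hK0 e1.le Q hQ
    rw [e1, lint_sq _ _ (sq_int (fun u => φ u - A Q φ u) (hφ.sub (A_meas Q hφ)) (M + M)
      (fun x => (norm_sub_le _ _).trans (add_le_add (hM x) (A_bound Q hQ0.le hM x)))),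
      ← ENNReal.ofReal_mul (by positivity)]
    apply ENNReal.ofReal_le_ofReal
    refine h1.trans (le_of_eq ?_)
    ring

theorem A_zero (Q : ℝ) (u : E k) : A Q (fun _ : E k => (0 : ℂ)) u = 0 := by
  unfold A
  simp

theorem sm_zero (Q : ℝ) (G : E (k + m) → ℂ) (y : E m) (h : ∀ u : E k, G (pt (y, u)) = 0)
    (u : E k) : sm Q G (pt (y, u)) = 0 := by
  unfold sm
  rw [P2_pt]
  simp_rw [h]
  exact A_zero Q _

/-- `L^2` size of the remainder -/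
theorem rem_L2 (k m : ℕ) (hk : 2 ≤ k) (hm : 1 ≤ m) (s : ℝ) (hs : 0 < s) : ∃ C : ℝ, 0 < C ∧
    ∀ ρ w : ℝ, 0 < ρ → 0 < w → 1 ≤ ρ * w →
    ∀ G : E (k + m) → ℂ, Measurable G → (∀ z, ‖G z‖ ≤ 1) →
    (∀ (y : E m) (u : E k), 2 * w < wt y → G (pt (y, u)) = 0) →
    ∫⁻ z, ‖G z - sm (ρ * w) G z‖ₑ ^ (2 : ℝ) ∂(sg (k + m)) ≤
      ENNReal.ofReal (C * (w / ρ) ^ s) * Sb G s := by
  obtain ⟨C, hC, h⟩ := rem_sphere k hk s hs
  refine ⟨C * 4 ^ s, by positivity, ?_⟩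
  intro ρ w hρ hw hQ G hG hb h0
  have hQ0 : 0 < ρ * w := by positivity
  rw [slice_lint hk hm (fun z => ‖G z - sm (ρ * w) G z‖ₑ ^ (2 : ℝ))
    ((hG.sub (sm_meas _ G hG)).enorm.pow_const _)]
  unfold Sb
  rw [← lintegral_const_mul' _ _ ENNReal.ofReal_ne_top]
  refine setLIntegral_mono' measurableSet_ball fun y hy => ?_
  have hwy := wt_pos hy
  have e1 : ∫⁻ u, ‖G (pt (y, u)) - sm (ρ * w) G (pt (y, u))‖ₑ ^ (2 : ℝ) ∂(sg k) =
      ∫⁻ u, ‖(fun u => G (pt (y, u))) u - A (ρ * w) (fun u => G (pt (y, u))) u‖ₑ ^ (2 : ℝ) ∂(sg k) := by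
    apply lintegral_congr_ae
    filter_upwards [sg_ae k] with u hu
    rw [sm_pt (ρ * w) G y hy u hu]
  rw [e1]
  by_cases h2 : 2 * w < wt y
  · have e2 : ∀ u : E k, G (pt (y, u)) = 0 := fun u => h0 y u h2
    simp_rw [e2, A_zero]
    simp
  · push Not at h2
    have h3 := h (fun u => G (pt (y, u))) (fmeas G hG y) ⟨1, fun u => hb _⟩ (ρ * w) hQ
    calc ENNReal.ofReal (wt y ^ (k - 2)) * ∫⁻ u, ‖(fun u => G (pt (y, u))) u -
          A (ρ * w) (fun u => G (pt (y, u))) u‖ₑ ^ (2 : ℝ) ∂(sg k)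
        ≤ ENNReal.ofReal (wt y ^ (k - 2)) * (ENNReal.ofReal (C * (ρ * w) ^ (-s)) * Kf G s y) := by
          gcongr
          exact h3
      _ = ENNReal.ofReal (wt y ^ (k - 2) * (C * (ρ * w) ^ (-s))) * Kf G s y := by
          rw [← mul_assoc, ← ENNReal.ofReal_mul (by positivity)]
      _ ≤ ENNReal.ofReal (C * 4 ^ s * (w / ρ) ^ s * wt y ^ ((k : ℝ) - 2 - 2 * s)) * Kf G s y := by
          refine mul_le_mul' (ENNReal.ofReal_le_ofReal ?_) le_rfl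
          have i1 : wt y ^ (k - 2) = wt y ^ ((k : ℝ) - 2 - 2 * s) * wt y ^ (2 * s) := by
            rw [← Real.rpow_add hwy, ← Real.rpow_natCast, Nat.cast_sub hk]
            congr 1
            push_cast
            ring
          have i2 : wt y ^ (2 * s) ≤ (2 * w) ^ (2 * s) :=
            Real.rpow_le_rpow hwy.le h2 (by positivity)
          have i3 : (2 * w) ^ (2 * s) * (ρ * w) ^ (-s) = 4 ^ s * (w / ρ) ^ s := by
            rw [Real.rpow_mul (by positivity), Real.rpow_neg hQ0.le, ← Real.inv_rpow hQ0.le,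
              ← Real.mul_rpow (by positivity) (by positivity),
              ← Real.mul_rpow (by positivity) (by positivity)]
            congr 1
            have : (2 * w) ^ (2 : ℝ) = (2 * w) ^ 2 := by norm_num
            rw [this]
            field_simp
            ring
          calc wt y ^ (k - 2) * (C * (ρ * w) ^ (-s)) = wt y ^ ((k : ℝ) - 2 - 2 * s) *
                (wt y ^ (2 * s) * (C * (ρ * w) ^ (-s))) := by rw [i1]; ring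
            _ ≤ wt y ^ ((k : ℝ) - 2 - 2 * s) * ((2 * w) ^ (2 * s) * (C * (ρ * w) ^ (-s))) := by
                gcongr
            _ = wt y ^ ((k : ℝ) - 2 - 2 * s) * (C * ((2 * w) ^ (2 * s) * (ρ * w) ^ (-s))) := by ring
            _ = _ := by rw [i3]; ring
      _ = _ := by
          rw [← mul_assoc, ← ENNReal.ofReal_mul (by positivity)]

/-- the estimate of Stein and Tomas -/
theorem st_lint (n : ℕ) (hn : 2 ≤ n) (P : ℝ) (hP : 2 * (((n : ℝ) + 1) / ((n : ℝ) - 1)) < P) :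
    ∃ C : ℝ, 0 < C ∧ ∀ g : E n → ℂ, Measurable g → (∃ M : ℝ, ∀ x, ‖g x‖ ≤ M) →
    ∫⁻ z, ‖T g z‖ₑ ^ P ≤ ENNReal.ofReal C * (∫⁻ w, ‖g w‖ₑ ^ (2 : ℝ) ∂(sg n)) ^ (P / 2) := by
  obtain ⟨C, hC, h⟩ := Pool.Agent.N306.SJ.est2 n hn P hP
  refine ⟨C, hC, ?_⟩
  rintro g hg ⟨M, hM⟩
  have hP0 : 0 < P := by
    have h1 : (2 : ℝ) ≤ n := by exact_mod_cast hn
    have h2 : 0 < 2 * (((n : ℝ) + 1) / ((n : ℝ) - 1)) := by
      have : 0 < (n : ℝ) - 1 := by linarith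
      positivity
    linarith
  have h0 : 0 ≤ ∫ w, ‖g w‖ ^ 2 ∂(sg n) := integral_nonneg fun w => by positivity
  have h1 := h g hg ⟨M, hM⟩ (Real.sqrt (∫ w, ‖g w‖ ^ 2 ∂(sg n))) (Real.sqrt_nonneg _)
    (Real.sq_sqrt h0).symm
  refine h1.trans (le_of_eq ?_)
  rw [lint_sq _ _ (sq_int g hg M hM), ENNReal.ofReal_rpow_of_nonneg h0 (by positivity),
    ← ENNReal.ofReal_mul hC.le, Real.sqrt_eq_rpow, ← Real.rpow_mul h0]
  congr 3
  ring

end Pool.Agent.Helper66x.AR
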