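import Mathlib
import Pool.Agent.Helper66x.AR.Rough
import Pool.Agent.H789R2.FR.Caps
set_option autoImplicit false

/-! The seminorms of indicator functions of spherical caps. -/

namespace Pool.Agent.Helper66x.AR

open MeasureTheory Set Complex Metric
open scoped ENNReal RealInnerProductSpace
open Pool.Agent.H789R2.FR (E sg T sg_finite sg_ae cap_upper exists_iso sg_inv)
open Pool.Agent.H438R2.BR (J J_mp J_inner bipolar Q)
open Pool.Agent.H438R2.BR.T10 (e0 e0_norm sg_one)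
open Pool.Agent.TH335.RF (wt wt_meas wt_nonneg wt_pos wt_le_one)

variable {k m : ℕ}

theorem angle_le (u v : E k) (hu : ‖u‖ = 1) (hv : ‖v‖ = 1) :
    InnerProductGeometry.angle u v ≤ Real.pi / 2 * ‖u - v‖ := by
  set θ := InnerProductGeometry.angle u v with hθ
  have h0 : 0 ≤ θ := InnerProductGeometry.angle_nonneg u v
  have h1 : θ ≤ Real.pi := InnerProductGeometry.angle_le_pi u v
  have hpi := Real.pi_pos
  have hcos : Real.cos θ = ⟪u, v⟫ := by
    rw [hθ, InnerProductGeometry.cos_angle, hu, hv]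
    norm_num
  have hn : ‖u - v‖ ^ 2 = 4 * Real.sin (θ / 2) ^ 2 := by
    rw [norm_sub_sq_real, hu, hv, ← hcos]
    have e1 : Real.cos θ = 2 * Real.cos (θ / 2) ^ 2 - 1 := by
      rw [← Real.cos_two_mul]
      congr 1
      ring
    have e2 := Real.sin_sq_add_cos_sq (θ / 2)
    rw [e1]
    linarith
  have hs : 2 / Real.pi * (θ / 2) ≤ Real.sin (θ / 2) :=
    Real.mul_le_sin (by linarith) (by linarith)
  have hs0 : 0 ≤ 2 / Real.pi * (θ / 2) := by positivity
  have h2 : (2 / Real.pi * θ) ^ 2 ≤ ‖u - v‖ ^ 2 := by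
    rw [hn]
    have : (2 / Real.pi * (θ / 2)) ^ 2 ≤ Real.sin (θ / 2) ^ 2 := by gcongr
    nlinarith
  have h3 : 2 / Real.pi * θ ≤ ‖u - v‖ := (sq_le_sq₀ (by positivity) (norm_nonneg _)).1 h2
  calc θ = Real.pi / 2 * (2 / Real.pi * θ) := by field_simp
    _ ≤ _ := by gcongr

/-- the tail of the singular kernel -/
theorem tail_int (k : ℕ) (hk : 2 ≤ k) (s : ℝ) (hs : 0 < s) : ∃ C : ℝ, 0 < C ∧ ∀ u : E k,
    ‖u‖ = 1 → ∀ r : ℝ, 0 ≤ r →
    ∫⁻ v, {v | r ≤ ‖u - v‖}.indicator
      (fun v => ENNReal.ofReal (1 / ‖u - v‖ ^ ((k : ℝ) - 1 + 2 * s))) v ∂(sg k) ≤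
      ENNReal.ofReal C * ENNReal.ofReal r ^ (-(2 * s)) := by
  obtain ⟨C, hC, h⟩ := cap_upper k hk
  have hk2 : (2 : ℝ) ≤ k := by exact_mod_cast hk
  have f1 : IsFiniteMeasure (sg k) := sg_finite _
  set q : ℝ := (2 : ℝ) ^ (-(2 * s)) with hq
  have hq0 : 0 < q := by positivity
  have hq1 : q < 1 := Real.rpow_lt_one_of_one_lt_of_neg (by norm_num) (by linarith)
  have h1q : 0 < 1 - q := by linarith
  refine ⟨C * 2 ^ (k - 1) / (1 - q), by positivity, fun u hu r hr => ?_⟩
  rcases hr.eq_or_lt with h0 | h0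
  · rw [← h0, ENNReal.ofReal_zero, ENNReal.zero_rpow_of_neg (by linarith), ENNReal.mul_top]
    · exact le_top
    · rw [Ne, ENNReal.ofReal_eq_zero, not_le]
      positivity
  set a : ℝ := (k : ℝ) - 1 + 2 * s with ha
  have ha0 : 0 < a := by rw [ha]; linarith
  have hpt : ∀ v : E k, {v | r ≤ ‖u - v‖}.indicator
      (fun v => ENNReal.ofReal (1 / ‖u - v‖ ^ a)) v ≤
      ∑' j : ℕ, {v | ‖u - v‖ < 2 ^ (j + 1) * r}.indicator
        (fun _ => ENNReal.ofReal ((2 ^ j * r) ^ (-a))) v := by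
    intro v
    by_cases hv : v ∈ {v | r ≤ ‖u - v‖}
    · rw [indicator_of_mem hv]
      have hv' : r ≤ ‖u - v‖ := hv
      have h1 : 1 ≤ ‖u - v‖ / r := by rwa [le_div_iff₀ h0, one_mul]
      obtain ⟨j, hj1, hj2⟩ := exists_nat_pow_near h1 (by norm_num : (1 : ℝ) < 2)
      rw [le_div_iff₀ h0] at hj1
      rw [div_lt_iff₀ h0] at hj2
      refine le_trans ?_ (ENNReal.le_tsum j)
      rw [indicator_of_mem (show v ∈ {v | ‖u - v‖ < 2 ^ (j + 1) * r} from hj2)]
      apply ENNReal.ofReal_le_ofReal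
      rw [one_div, ← Real.rpow_neg (norm_nonneg _)]
      exact Real.rpow_le_rpow_of_nonpos (by positivity) hj1 (by linarith)
    · rw [indicator_of_notMem hv]
      exact bot_le
  calc _ ≤ ∫⁻ v, ∑' j : ℕ, {v | ‖u - v‖ < 2 ^ (j + 1) * r}.indicator
        (fun _ => ENNReal.ofReal ((2 ^ j * r) ^ (-a))) v ∂(sg k) := lintegral_mono hpt
    _ = ∑' j : ℕ, ∫⁻ v, {v | ‖u - v‖ < 2 ^ (j + 1) * r}.indicator
        (fun _ => ENNReal.ofReal ((2 ^ j * r) ^ (-a))) v ∂(sg k) := by
        rw [lintegral_tsum]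
        intro j
        exact (measurable_const.indicator (Pool.Agent.H789R2.FR.cap_meas _ u)).aemeasurable
    _ ≤ ∑' j : ℕ, ENNReal.ofReal ((C * 2 ^ (k - 1) * r ^ (-(2 * s))) * q ^ j) := by
        refine ENNReal.tsum_le_tsum fun j => ?_
        rw [lintegral_indicator (Pool.Agent.H789R2.FR.cap_meas _ u), setLIntegral_const]
        have h2 : sg k {v | ‖u - v‖ < 2 ^ (j + 1) * r} ≤
            ENNReal.ofReal (C * (2 ^ (j + 1) * r) ^ (k - 1)) := by
          rw [← ofReal_measureReal]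
          exact ENNReal.ofReal_le_ofReal (h _ (by positivity) u hu)
        calc _ ≤ ENNReal.ofReal ((2 ^ j * r) ^ (-a)) *
              ENNReal.ofReal (C * (2 ^ (j + 1) * r) ^ (k - 1)) := by gcongr
          _ = _ := by
              rw [← ENNReal.ofReal_mul (by positivity)]
              congr 1
              have hjr : (0 : ℝ) < 2 ^ j * r := by positivity
              have e1 : ((2 : ℝ) ^ (j + 1) * r) ^ (k - 1) = 2 ^ (k - 1) * (2 ^ j * r) ^ ((k : ℝ) - 1) := by
                have i1 : (k : ℝ) - 1 = ((k - 1 : ℕ) : ℝ) := by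
                  rw [Nat.cast_sub (by omega)]
                  norm_num
                rw [i1, Real.rpow_natCast, ← mul_pow]
                congr 1
                rw [pow_succ]
                ring
              have e2 : (2 ^ j * r) ^ (-a) * (2 ^ j * r) ^ ((k : ℝ) - 1) =
                  q ^ j * r ^ (-(2 * s)) := by
                have i2 : -a + ((k : ℝ) - 1) = -(2 * s) := by rw [ha]; ring
                have i3 : ((2 : ℝ) ^ j) ^ (-(2 * s)) = q ^ j := by
                  rw [hq, ← Real.rpow_natCast 2 j, ← Real.rpow_mul (by norm_num),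
                    ← Real.rpow_natCast ((2 : ℝ) ^ (-(2 * s))) j, ← Real.rpow_mul (by norm_num)]
                  congr 1
                  ring
                rw [← Real.rpow_add hjr, i2, Real.mul_rpow (by positivity) h0.le, i3]
              rw [e1]
              calc (2 ^ j * r) ^ (-a) * (C * (2 ^ (k - 1) * (2 ^ j * r) ^ ((k : ℝ) - 1))) =
                    C * 2 ^ (k - 1) * ((2 ^ j * r) ^ (-a) * (2 ^ j * r) ^ ((k : ℝ) - 1)) := by ring
                _ = _ := by rw [e2]; ring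
    _ = ENNReal.ofReal ((C * 2 ^ (k - 1) * r ^ (-(2 * s))) / (1 - q)) := by
        rw [← ENNReal.ofReal_tsum_of_nonneg (fun j => by positivity)
          ((summable_geometric_of_lt_one hq0.le hq1).mul_left _), tsum_mul_left,
          tsum_geometric_of_lt_one hq0.le hq1, div_eq_mul_inv]
    _ = _ := by
        rw [ENNReal.ofReal_rpow_of_pos h0, ← ENNReal.ofReal_mul (by positivity)]
        congr 1
        ring

/-- the distribution of the polar angle -/
theorem ang_dist (k : ℕ) (hk : 2 ≤ k) : ∃ C : ℝ, 0 < C ∧ ∀ e : E k, ‖e‖ = 1 →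
    ∀ h : ℝ → ℝ≥0∞, Measurable h →
    ∫⁻ u, h (Real.arccos ⟪e, u⟫) ∂(sg k) ≤ ENNReal.ofReal C * ∫⁻ θ in Icc 0 Real.pi, h θ := by
  obtain ⟨d, rfl⟩ : ∃ d, k = 1 + d := ⟨k - 1, by omega⟩
  have hd : 1 ≤ d := by omega
  have f1 : IsFiniteMeasure (sg d) := sg_finite _
  set σ : ℝ := (sg d).real univ with hσ
  have hσ0 : 0 ≤ σ := measureReal_nonneg
  have hσ1 : sg d univ = ENNReal.ofReal σ := by rw [hσ, ofReal_measureReal]
  refine ⟨2 * (σ + 1), by positivity, fun e he h hh => ?_⟩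
  set b : E (1 + d) := J e0 0 with hb
  have hb1 : ‖b‖ = 1 := by
    have h1 := J_nsq (k := 1) (m := d) e0 0
    rw [e0_norm, norm_zero] at h1
    have h2 : ‖b‖ ^ 2 = 1 := by rw [hb, h1]; norm_num
    have h3 := norm_nonneg b
    nlinarith
  obtain ⟨L, hL⟩ := exists_iso b e hb1 he
  have hin : ∀ w : E (1 + d), Measurable fun x : E (1 + d) => (⟪w, x⟫ : ℝ) := fun w =>
    (by fun_prop : Continuous fun x : E (1 + d) => (⟪w, x⟫ : ℝ)).measurable
  have hfm : ∀ w : E (1 + d), Measurable fun x => h (Real.arccos ⟪w, x⟫) := fun w =>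
    hh.comp (Real.measurable_arccos.comp (hin w))
  have e1 : ∫⁻ u, h (Real.arccos ⟪e, u⟫) ∂(sg (1 + d)) =
      ∫⁻ u, h (Real.arccos ⟪b, u⟫) ∂(sg (1 + d)) := by
    rw [← (sg_inv L).lintegral_comp (hfm e)]
    refine lintegral_congr fun x => ?_
    rw [← hL, LinearIsometryEquiv.inner_map_map]
  rw [e1, bipolar 1 d le_rfl hd _ (hfm b)]
  have e2 : ∀ (a : ℝ) (θ : ℝ) (v : E d), (⟪b, J (Real.cos θ • (a • e0)) (Real.sin θ • v)⟫ : ℝ) =
      Real.cos θ * a := by
    intro a θ v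
    rw [hb, J_inner, real_inner_smul_right, real_inner_smul_right, real_inner_self_eq_norm_sq,
      e0_norm, inner_zero_left]
    ring
  have hpi := Real.pi_pos
  have e3 : ∀ θ ∈ Q, ENNReal.ofReal ((Real.cos θ) ^ (1 - 1) * (Real.sin θ) ^ (d - 1)) *
      ∫⁻ u, ∫⁻ v, h (Real.arccos ⟪b, J (Real.cos θ • u) (Real.sin θ • v)⟫) ∂(sg d) ∂(sg 1) ≤
      ENNReal.ofReal (σ + 1) * ((Icc 0 Real.pi).indicator h θ +
        (Icc 0 Real.pi).indicator h (Real.pi - θ)) := by
    intro θ hθ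
    have hθ0 : 0 < θ := hθ.1
    have hθ1 : θ < Real.pi / 2 := hθ.2
    rw [sg_one]
    have e4 : ∀ v : E d, h (Real.arccos ⟪b, J (Real.cos θ • e0) (Real.sin θ • v)⟫) = h θ := by
      intro v
      have := e2 1 θ v
      rw [one_smul, mul_one] at this
      rw [this, Real.arccos_cos hθ0.le (by linarith)]
    have e5 : ∀ v : E d, h (Real.arccos ⟪b, J (Real.cos θ • (-e0)) (Real.sin θ • v)⟫) =
        h (Real.pi - θ) := by
      intro v
      have := e2 (-1) θ v
      rw [neg_one_smul, mul_neg_one] at this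
      rw [this, Real.arccos_neg, Real.arccos_cos hθ0.le (by linarith)]
    simp_rw [e4, e5]
    rw [lintegral_const, lintegral_const, hσ1, indicator_of_mem (show θ ∈ Icc 0 Real.pi from
      ⟨hθ0.le, by linarith⟩), indicator_of_mem (show Real.pi - θ ∈ Icc 0 Real.pi from
      ⟨by linarith, by linarith⟩), ← add_mul, Nat.sub_self, pow_zero, one_mul, mul_comm (h θ + _)]
    have hsin : ENNReal.ofReal (Real.sin θ ^ (d - 1)) ≤ 1 := by
      rw [ENNReal.ofReal_le_one]
      exact pow_le_one₀ (Real.sin_nonneg_of_nonneg_of_le_pi hθ0.le (by linarith)) (Real.sin_le_one _)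
    calc _ ≤ 1 * (ENNReal.ofReal (σ + 1) * (h θ + h (Real.pi - θ))) := by
          gcongr
          linarith
      _ = _ := one_mul _
  have hQm : MeasurableSet Q := by unfold Q; exact measurableSet_Ioo
  have hindm : Measurable ((Icc 0 Real.pi).indicator h) := hh.indicator measurableSet_Icc
  calc _ ≤ ∫⁻ θ in Q, ENNReal.ofReal (σ + 1) * ((Icc 0 Real.pi).indicator h θ +
        (Icc 0 Real.pi).indicator h (Real.pi - θ)) := setLIntegral_mono' hQm e3
    _ ≤ ∫⁻ θ, ENNReal.ofReal (σ + 1) * ((Icc 0 Real.pi).indicator h θ +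
        (Icc 0 Real.pi).indicator h (Real.pi - θ)) := setLIntegral_le_lintegral _ _
    _ = ENNReal.ofReal (σ + 1) * ((∫⁻ θ, (Icc 0 Real.pi).indicator h θ) +
        ∫⁻ θ, (Icc 0 Real.pi).indicator h (Real.pi - θ)) := by
        rw [lintegral_const_mul' _ _ ENNReal.ofReal_ne_top, lintegral_add_left hindm]
    _ = _ := by
        rw [lintegral_sub_left_eq_self (fun θ => (Icc 0 Real.pi).indicator h θ) Real.pi,
          lintegral_indicator measurableSet_Icc, ← two_mul, ← mul_assoc, mul_comm 2 (σ + 1),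
          ENNReal.ofReal_mul (by positivity)]
        norm_num

/-- a power integral -/
theorem pow_fin (s : ℝ) (hs1 : s < 1 / 2) (c : ℝ) (hc : 0 < c) :
    ∫⁻ x in Ioc 0 Real.pi, ENNReal.ofReal (c * x) ^ (-(2 * s)) ≠ ⊤ := by
  have h1 : IntervalIntegrable (fun x : ℝ => x ^ (-(2 * s))) volume 0 Real.pi :=
    intervalIntegral.intervalIntegrable_rpow' (by linarith)
  rw [intervalIntegrable_iff_integrableOn_Ioc_of_le Real.pi_pos.le] at h1
  have h2 : IntegrableOn (fun x : ℝ => c ^ (-(2 * s)) * x ^ (-(2 * s))) (Ioc 0 Real.pi) :=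
    h1.const_mul _
  have h3 := h2.2
  rw [hasFiniteIntegral_iff_norm] at h3
  refine (lt_of_le_of_lt ?_ h3).ne
  refine setLIntegral_mono' measurableSet_Ioc fun x hx => ?_
  have hx0 : 0 < x := hx.1
  rw [ENNReal.ofReal_rpow_of_pos (by positivity), Real.mul_rpow hc.le hx0.le,
    Real.norm_of_nonneg (by positivity)]

/-- the seminorm of the indicator function of a cap -/
theorem cap_semi (k : ℕ) (hk : 2 ≤ k) (s : ℝ) (hs : 0 < s) (hs1 : s < 1 / 2) :
    ∃ C : ℝ, 0 < C ∧ ∀ e : E k, ‖e‖ = 1 → ∀ τ : ℝ,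
    ∫⁻ u, ∫⁻ v, ENNReal.ofReal (‖(if (⟪e, u⟫ : ℝ) < τ then (1 : ℂ) else 0) -
      (if (⟪e, v⟫ : ℝ) < τ then (1 : ℂ) else 0)‖ ^ 2 / ‖u - v‖ ^ ((k : ℝ) - 1 + 2 * s))
      ∂(sg k) ∂(sg k) ≤ ENNReal.ofReal C := by
  obtain ⟨C1, hC1, h1⟩ := tail_int k hk s hs
  obtain ⟨C2, hC2, h2⟩ := ang_dist k hk
  have hpi := Real.pi_pos
  set c : ℝ := 2 / Real.pi with hc
  have hc0 : 0 < c := by positivity
  have hI := pow_fin s hs1 c hc0
  set I0 : ℝ := (∫⁻ x in Ioc 0 Real.pi, ENNReal.ofReal (c * x) ^ (-(2 * s))).toReal with hI0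
  have hI1 : ∫⁻ x in Ioc 0 Real.pi, ENNReal.ofReal (c * x) ^ (-(2 * s)) = ENNReal.ofReal I0 := by
    rw [hI0, ENNReal.ofReal_toReal hI]
  have hI00 : 0 ≤ I0 := ENNReal.toReal_nonneg
  refine ⟨C1 * (C2 * (2 * I0 + 1)), by positivity, fun e he τ => ?_⟩
  set θ0 := Real.arccos τ with hθ0
  have hθ00 : 0 ≤ θ0 := Real.arccos_nonneg τ
  have hθ01 : θ0 ≤ Real.pi := Real.arccos_le_pi τ
  -- separation
  have hang : ∀ u : E k, ‖u‖ = 1 → Real.arccos ⟪e, u⟫ = InnerProductGeometry.angle e u := by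
    intro u hu
    unfold InnerProductGeometry.angle
    rw [he, hu]
    norm_num
  have hsep : ∀ u v : E k, ‖u‖ = 1 → ‖v‖ = 1 → (⟪e, u⟫ : ℝ) < τ → τ ≤ (⟪e, v⟫ : ℝ) →
      c * |Real.arccos ⟪e, u⟫ - θ0| ≤ ‖u - v‖ ∧ c * |Real.arccos ⟪e, v⟫ - θ0| ≤ ‖u - v‖ := by
    intro u v hu hv h3 h4
    have i1 : θ0 ≤ Real.arccos ⟪e, u⟫ := Real.antitone_arccos h3.le
    have i2 : Real.arccos ⟪e, v⟫ ≤ θ0 := Real.antitone_arccos h4
    have i3 : Real.arccos ⟪e, u⟫ - Real.arccos ⟪e, v⟫ ≤ Real.pi / 2 * ‖u - v‖ := by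
      rw [hang u hu, hang v hv]
      have i4 := InnerProductGeometry.angle_le_angle_add_angle e v u
      have i5 := angle_le v u hv hu
      rw [norm_sub_rev] at i5
      linarith
    have i6 : c * (Real.pi / 2 * ‖u - v‖) = ‖u - v‖ := by rw [hc]; field_simp
    constructor
    · rw [abs_of_nonneg (by linarith), ← i6]
      gcongr
      linarith
    · rw [abs_of_nonpos (by linarith), ← i6]
      gcongr
      linarith
  have hpt : ∀ u v : E k, ‖u‖ = 1 → ‖v‖ = 1 →
      ENNReal.ofReal (‖(if (⟪e, u⟫ : ℝ) < τ then (1 : ℂ) else 0) -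
      (if (⟪e, v⟫ : ℝ) < τ then (1 : ℂ) else 0)‖ ^ 2 / ‖u - v‖ ^ ((k : ℝ) - 1 + 2 * s)) ≤
      {v | c * |Real.arccos ⟪e, u⟫ - θ0| ≤ ‖u - v‖}.indicator
      (fun v => ENNReal.ofReal (1 / ‖u - v‖ ^ ((k : ℝ) - 1 + 2 * s))) v := by
    intro u v hu hv
    by_cases h3 : (⟪e, u⟫ : ℝ) < τ
    · by_cases h4 : (⟪e, v⟫ : ℝ) < τ
      · rw [if_pos h3, if_pos h4]
        simp
      · push Not at h4
        rw [if_pos h3, if_neg (not_lt.2 h4), indicator_of_mem (show v ∈
          {v | c * |Real.arccos ⟪e, u⟫ - θ0| ≤ ‖u - v‖} from (hsep u v hu hv h3 h4).1)]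
        simp
    · push Not at h3
      by_cases h4 : (⟪e, v⟫ : ℝ) < τ
      · have h5 := (hsep v u hv hu h4 h3).2
        rw [norm_sub_rev] at h5
        rw [if_neg (not_lt.2 h3), if_pos h4, indicator_of_mem (show v ∈
          {v | c * |Real.arccos ⟪e, u⟫ - θ0| ≤ ‖u - v‖} from h5)]
        simp
      · rw [if_neg (not_lt.2 h3), if_neg h4]
        simp
  set H : ℝ → ℝ≥0∞ := fun θ => ENNReal.ofReal (c * |θ - θ0|) ^ (-(2 * s)) with hH
  have hHm : Measurable H := by
    have : Measurable fun θ : ℝ => c * |θ - θ0| := by fun_prop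
    exact this.ennreal_ofReal.pow_const _
  set f : ℝ → ℝ≥0∞ := (Ioc 0 Real.pi).indicator fun x => ENNReal.ofReal (c * x) ^ (-(2 * s)) with hf
  have hfm : Measurable f := by
    have : Measurable fun x : ℝ => c * x := by fun_prop
    exact (this.ennreal_ofReal.pow_const _).indicator measurableSet_Ioc
  have hfI : ∫⁻ x, f x = ENNReal.ofReal I0 := by
    rw [hf, lintegral_indicator measurableSet_Ioc, hI1]
  have hHI : ∫⁻ θ in Icc 0 Real.pi, H θ ≤ ENNReal.ofReal (2 * I0) := by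
    have h3 : ∀ᵐ θ : ℝ, (Icc 0 Real.pi).indicator H θ ≤ f (θ - θ0) + f (θ0 - θ) := by
      have h4 : ∀ᵐ θ : ℝ, θ ≠ θ0 := by
        rw [ae_iff]
        simp
      filter_upwards [h4] with θ hθ
      by_cases hm : θ ∈ Icc 0 Real.pi
      · rw [indicator_of_mem hm]
        rcases lt_or_gt_of_ne hθ with h5 | h5
        · refine le_trans ?_ le_add_self
          rw [hf, indicator_of_mem (show θ0 - θ ∈ Ioc 0 Real.pi from
            ⟨by linarith, by linarith [hm.1]⟩), hH]
          simp only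
          rw [abs_of_nonpos (by linarith), neg_sub]
        · refine le_trans ?_ le_self_add
          rw [hf, indicator_of_mem (show θ - θ0 ∈ Ioc 0 Real.pi from
            ⟨by linarith, by linarith [hm.2]⟩), hH]
          simp only
          rw [abs_of_nonneg (by linarith)]
      · rw [indicator_of_notMem hm]
        exact bot_le
    calc _ = ∫⁻ θ, (Icc 0 Real.pi).indicator H θ := (lintegral_indicator measurableSet_Icc _).symm
      _ ≤ ∫⁻ θ, (f (θ - θ0) + f (θ0 - θ)) := lintegral_mono_ae h3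
      _ = (∫⁻ θ, f (θ - θ0)) + ∫⁻ θ, f (θ0 - θ) := by
          have : Measurable fun θ : ℝ => f (θ - θ0) := hfm.comp (measurable_id.sub_const _)
          exact lintegral_add_left this _
      _ = _ := by
          rw [lintegral_sub_right_eq_self f θ0, lintegral_sub_left_eq_self f θ0, hfI,
            ← ENNReal.ofReal_add hI00 hI00]
          congr 1
          ring
  calc _ ≤ ∫⁻ u, ENNReal.ofReal C1 * H (Real.arccos ⟪e, u⟫) ∂(sg k) := by
        refine lintegral_mono_ae ?_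
        filter_upwards [sg_ae k] with u hu
        refine le_trans ?_ (h1 u hu (c * |Real.arccos ⟪e, u⟫ - θ0|) (by positivity))
        refine lintegral_mono_ae ?_
        filter_upwards [sg_ae k] with v hv
        exact hpt u v hu hv
    _ = ENNReal.ofReal C1 * ∫⁻ u, H (Real.arccos ⟪e, u⟫) ∂(sg k) :=
        lintegral_const_mul' _ _ ENNReal.ofReal_ne_top
    _ ≤ ENNReal.ofReal C1 * (ENNReal.ofReal C2 * ENNReal.ofReal (2 * I0)) := by
        gcongr
        refine (h2 e he H hHm).trans ?_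
        gcongr
    _ ≤ _ := by
        rw [← ENNReal.ofReal_mul hC2.le, ← ENNReal.ofReal_mul hC1.le]
        apply ENNReal.ofReal_le_ofReal
        gcongr
        linarith

/-- the seminorm along the fibres of the indicator function of a region bounded by a graph -/
theorem Sb_region (k m : ℕ) (hk : 2 ≤ k) (hm : 1 ≤ m) (s : ℝ) (hs : 0 < s) (hs1 : s < 1 / 2) :
    ∃ C : ℝ, 0 < C ∧ ∀ e : E k, ‖e‖ = 1 → ∀ b : E m → ℂ, (∀ y, ‖b y‖ ≤ 1) → ∀ φ : E m → ℝ,
    ∀ G : E (k + m) → ℂ, (∀ y ∈ ball (0 : E m) 1, ∀ u : E k, ‖u‖ = 1 →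
      G (pt (y, u)) = b y * (if (⟪e, wt y • u⟫ : ℝ) < φ y then (1 : ℂ) else 0)) →
    Sb G s ≤ ENNReal.ofReal C := by
  obtain ⟨C1, hC1, h1⟩ := cap_semi k hk s hs hs1
  obtain ⟨C2, hC2, h2⟩ := Pool.Agent.TH335.RF.MA_L2 2 le_rfl hm
  have hk2 : (2 : ℝ) ≤ k := by exact_mod_cast hk
  refine ⟨C2 * C1, by positivity, fun e he b hb φ G hG => ?_⟩
  unfold Sb
  have h3 := h2 (fun _ => 1) (fun _ => by simp) 0
  calc _ ≤ ∫⁻ y in ball (0 : E m) 1, ‖Pool.Agent.TH335.RF.MA 2 (fun _ => (1 : ℂ)) 0 y‖ₑ ^ (2 : ℝ) *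
        ENNReal.ofReal C1 := by
        refine setLIntegral_mono' measurableSet_ball fun y hy => ?_
        have hw := wt_pos hy
        refine mul_le_mul' ?_ ?_
        · rw [Pool.Agent.TH335.RF.enorm_sq, Pool.Agent.TH335.RF.norm_MA]
          apply ENNReal.ofReal_le_ofReal
          rw [norm_one, mul_one, ← Real.rpow_natCast, ← Real.rpow_mul hw.le]
          apply Real.rpow_le_rpow_of_exponent_ge hw (wt_le_one y)
          push_cast
          linarith
        · refine le_trans ?_ (h1 e he (φ y / wt y))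
          unfold Kf
          refine lintegral_mono_ae ?_
          filter_upwards [sg_ae k] with u hu
          refine lintegral_mono_ae ?_
          filter_upwards [sg_ae k] with v hv
          rw [hG y hy u hu, hG y hy v hv, ← mul_sub]
          apply ENNReal.ofReal_le_ofReal
          have e1 : ∀ u : E k, ((⟪e, wt y • u⟫ : ℝ) < φ y) ↔ ((⟪e, u⟫ : ℝ) < φ y / wt y) := by
            intro u
            rw [real_inner_smul_right, lt_div_iff₀ hw, mul_comm]
          simp_rw [e1]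
          rw [norm_mul, mul_pow]
          have h4 : ‖b y‖ ^ 2 ≤ 1 := pow_le_one₀ (norm_nonneg _) (hb y)
          have h5 : 0 ≤ ‖(if (⟪e, u⟫ : ℝ) < φ y / wt y then (1 : ℂ) else 0) -
            (if (⟪e, v⟫ : ℝ) < φ y / wt y then (1 : ℂ) else 0)‖ ^ 2 := by positivity
          gcongr
          exact mul_le_of_le_one_left h5 h4
    _ = (∫⁻ y in ball (0 : E m) 1,
        ‖Pool.Agent.TH335.RF.MA 2 (fun _ => (1 : ℂ)) 0 y‖ₑ ^ (2 : ℝ)) * ENNReal.ofReal C1 :=
        lintegral_mul_const' _ _ ENNReal.ofReal_ne_top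
    _ ≤ _ := by
        rw [ENNReal.ofReal_mul hC2.le]
        gcongr

end Pool.Agent.Helper66x.AR
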