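import Mathlib
import Pool.Agent.Helper66x.AR.Mt
import Pool.Agent.TH335.RF.Q1
set_option autoImplicit false

/-! The main term for one rough coordinate. -/

namespace Pool.Agent.Helper66x.AR

open MeasureTheory Set Complex Metric
open scoped ENNReal RealInnerProductSpace
open Pool.Agent.H789R2.FR (E sg T sg_finite sg_ae sc band Ex E4)
open Pool.Agent.H438R2.BR.T10 (e0 e0_norm sg_one)
open Pool.Agent.TH335.RF (wt wt_meas wt_nonneg wt_pos wt_le_one Gf line_mp Gf_meas bb bb_meas Gf_Ex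
  wt_line sc_pos sc_le)

variable {k : ℕ}

theorem log_le (ε : ℝ) (hε : 0 < ε) (x : ℝ) (hx : 1 ≤ x) : 1 + Real.log x ≤ (1 + 1 / ε) * x ^ ε := by
  have hx0 : 0 < x := by linarith
  have h1 : Real.log x ≤ x ^ ε / ε := Real.log_le_rpow_div hx0.le hε
  have h2 : 1 ≤ x ^ ε := Real.one_le_rpow hx hε.le
  have h3 : (1 + 1 / ε) * x ^ ε = x ^ ε + x ^ ε / ε := by ring
  linarith

/-- the planar estimate -/
theorem one_four (k : ℕ) (hk : 2 ≤ k) : ∃ C : ℝ, 0 < C ∧ ∀ F : E 1 → ℂ, Measurable F →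
    (∀ y, ‖F y‖ ≤ 1) → ∀ w : ℝ, 0 < w → 2 * w ≤ 1 → (∀ y, wt y ≤ w → F y = 0) →
    (∀ y, 2 * w < wt y → F y = 0) → ∀ R : ℝ, 0 < R → 1 ≤ R * (2 * w) →
    ∫⁻ r in Icc (-R) R, ∫⁻ y, ‖Gf (2 * k - 1) F r y‖ₑ ^ (4 : ℝ) ≤
      ENNReal.ofReal (C * (w ^ (k - 1)) ^ (4 : ℝ) * (1 + Real.log R)) := by
  obtain ⟨C, hC, h⟩ := E4
  refine ⟨C * 2 ^ (4 * k), by positivity, ?_⟩
  intro F hF hb w hw hw1 h0 h0' R hR hRw
  set μ : ℝ := 2 * w with hμ
  have hμ0 : 0 < μ := by positivity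
  have e1 : ∀ r : ℝ, ∫⁻ y : E 1, ‖Gf (2 * k - 1) F r y‖ₑ ^ (4 : ℝ) =
      ∫⁻ z : ℝ, ENNReal.ofReal (‖Ex (bb (2 * k - 1) F) r z‖ ^ 4) := by
    intro r
    have hm : Measurable fun y : E 1 => ‖Gf (2 * k - 1) F r y‖ₑ ^ (4 : ℝ) :=
      ((Gf_meas (2 * k - 1) F hF).comp measurable_prodMk_left).enorm.pow_const _
    rw [← line_mp.lintegral_comp hm]
    refine lintegral_congr fun z => ?_
    rw [Gf_Ex (2 * k - 1) F hF r z, ← ofReal_norm,
      ENNReal.ofReal_rpow_of_nonneg (norm_nonneg _) (by norm_num)]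
    norm_num
  simp_rw [e1]
  have hbm := bb_meas (2 * k - 1) F hF
  have hz : ∀ c, c ∉ band μ → bb (2 * k - 1) F c = 0 := by
    intro c hc
    unfold bb
    have : F (c • e0) = 0 := by
      by_cases hc1 : |c| < 1
      · by_cases hc2 : μ / 2 < sc c
        · refine h0' _ ?_
          rw [wt_line]
          by_contra hcon
          push Not at hcon
          exact hc ⟨hc1, hc2, hcon⟩
        · refine h0 _ ?_
          rw [wt_line]
          push Not at hc2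
          rw [hμ] at hc2
          linarith
      · refine h0 _ ?_
        rw [wt_line]
        unfold sc
        rw [Real.sqrt_eq_zero_of_nonpos]
        · exact hw.le
        · push Not at hc1
          have : 1 ≤ |c| ^ 2 := one_le_pow₀ hc1
          rw [sq_abs] at this
          linarith
    rw [this, mul_zero]
  have hle : ∀ c, ‖bb (2 * k - 1) F c‖ ≤ μ ^ (k - 2) := by
    intro c
    by_cases hc : c ∈ band μ
    · have h1 : 0 ≤ sc c := Real.sqrt_nonneg _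
      unfold bb
      rw [ex_eq hk, Real.rpow_natCast, norm_mul, Complex.norm_real,
        Real.norm_of_nonneg (pow_nonneg h1 _)]
      calc sc c ^ (k - 2) * ‖F (c • e0)‖ ≤ μ ^ (k - 2) * 1 := by
            gcongr
            · exact hc.2.2
            · exact hb _
        _ = _ := mul_one _
    · rw [hz c hc, norm_zero]
      positivity
  refine (h μ hμ0 hw1 R hRw _ hbm (μ ^ (k - 2)) hle hz).trans (ENNReal.ofReal_le_ofReal ?_)
  have hR1 : 1 ≤ R := by nlinarith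
  have hlog : Real.log (R * μ) ≤ Real.log R := Real.log_le_log (by positivity) (by nlinarith)
  have hlog0 : 0 ≤ Real.log R := Real.log_nonneg hR1
  have e2 : (μ ^ (k - 2)) ^ 4 * μ ^ 5 ≤ 2 ^ (4 * k) * (w ^ (k - 1)) ^ (4 : ℝ) := by
    have i1 : (w ^ (k - 1)) ^ (4 : ℝ) = w ^ (4 * (k - 1)) := by
      have : (w ^ (k - 1)) ^ (4 : ℝ) = (w ^ (k - 1)) ^ 4 := by
        rw [← Real.rpow_natCast (w ^ (k - 1)) 4]
        norm_num
      rw [this, ← pow_mul, mul_comm]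
    have i2 : (μ ^ (k - 2)) ^ 4 * μ ^ 5 = μ ^ (4 * (k - 1)) * μ := by
      rw [← pow_mul, ← pow_add, ← pow_succ]
      congr 1
      omega
    rw [i1, i2, hμ, mul_pow]
    have i3 : (2 : ℝ) ^ (4 * (k - 1)) ≤ 2 ^ (4 * k) := by
      apply pow_le_pow_right₀ (by norm_num)
      omega
    have i4 : 0 < w ^ (4 * (k - 1)) := by positivity
    calc 2 ^ (4 * (k - 1)) * w ^ (4 * (k - 1)) * (2 * w) ≤ 2 ^ (4 * k) * w ^ (4 * (k - 1)) * 1 := by
          gcongr
      _ = _ := mul_one _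
  calc C * (μ ^ (k - 2)) ^ 4 * μ ^ 5 * (1 + Real.log (R * μ))
      = C * ((μ ^ (k - 2)) ^ 4 * μ ^ 5) * (1 + Real.log (R * μ)) := by ring
    _ ≤ C * (2 ^ (4 * k) * (w ^ (k - 1)) ^ (4 : ℝ)) * (1 + Real.log R) := by
        have i5 : 0 ≤ 1 + Real.log (R * μ) := by
          have := Real.log_nonneg hRw
          linarith
        gcongr
    _ = _ := by ring

theorem Mn_one (k : ℕ) (hk : 2 ≤ k) (p γ : ℝ) (hp : 2 < p) (hp4 : p < 4) (hγ : (4 - p) / 2 < γ) :
    Mn k 1 p γ := by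
  obtain ⟨C1, hC1, h1⟩ := Gf_small k 1 hk le_rfl 2 le_rfl
  obtain ⟨C2, hC2, h2⟩ := one_four k hk
  set α := (4 - p) / 2 with hα
  set β := (p - 2) / 2 with hβ
  have hα0 : 0 < α := by rw [hα]; linarith
  have hβ0 : 0 < β := by rw [hβ]; linarith
  have hsum : 2 * α + 4 * β = p := by rw [hα, hβ]; ring
  set ε : ℝ := (γ - α) / β with hε
  have hε0 : 0 < ε := div_pos (by linarith) hβ0
  have hεβ : ε * β = γ - α := by rw [hε]; field_simp
  refine ⟨(C1 * 2 * (2 ^ (k - 1)) ^ (2 : ℝ)) ^ α * (C2 * (1 + 1 / ε)) ^ β, by positivity, ?_⟩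
  intro F hF hb w hw hw1 h0 h0' R hR hRw
  have hR1 : 1 ≤ R := by nlinarith
  have hGm : Measurable fun q : ℝ × E 1 => ‖Gf (2 * k - 1) F q.1 q.2‖ₑ :=
    (Gf_meas (2 * k - 1) F hF).enorm
  have e1 : ∀ q : ℝ, ∫⁻ r in Icc (-R) R, ∫⁻ y, ‖Gf (2 * k - 1) F r y‖ₑ ^ q =
      ∫⁻ z : ℝ × E 1, ‖Gf (2 * k - 1) F z.1 z.2‖ₑ ^ q
        ∂(((volume : Measure ℝ).restrict (Icc (-R) R)).prod volume) := by
    intro q
    rw [lintegral_prod _ (hGm.pow_const q).aemeasurable]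
  have h3 := holder (((volume : Measure ℝ).restrict (Icc (-R) R)).prod (volume : Measure (E 1)))
    (fun z => ‖Gf (2 * k - 1) F z.1 z.2‖ₑ) hGm.aemeasurable p 4 hp hp4
  have e4 : (4 - p) / (4 - 2) = α := by rw [hα]; norm_num
  have e5 : (p - 2) / (4 - 2) = β := by rw [hβ]; norm_num
  rw [← e1, ← e1, ← e1, e4, e5] at h3
  refine h3.trans ?_
  have h4 : ∫⁻ r in Icc (-R) R, ∫⁻ y, ‖Gf (2 * k - 1) F r y‖ₑ ^ (2 : ℝ) ≤
      ENNReal.ofReal (C1 * 2 * (2 ^ (k - 1)) ^ (2 : ℝ) * ((w ^ (k - 1)) ^ (2 : ℝ) * R)) := by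
    calc _ ≤ ∫⁻ r in Icc (-R) R, ENNReal.ofReal (C1 * ((2 * w) ^ (k - 1)) ^ (2 : ℝ)) :=
          lintegral_mono fun r => h1 F hF hb (2 * w) (by positivity) h0' r
      _ = ENNReal.ofReal (C1 * ((2 * w) ^ (k - 1)) ^ (2 : ℝ)) * ENNReal.ofReal (2 * R) := by
          rw [setLIntegral_const, Real.volume_Icc]
          congr 2
          ring
      _ = _ := by
          rw [← ENNReal.ofReal_mul (by positivity), mul_pow,
            Real.mul_rpow (by positivity) (by positivity)]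
          congr 1
          ring
  have h5 : ∫⁻ r in Icc (-R) R, ∫⁻ y, ‖Gf (2 * k - 1) F r y‖ₑ ^ (4 : ℝ) ≤
      ENNReal.ofReal (C2 * (1 + 1 / ε) * ((w ^ (k - 1)) ^ (4 : ℝ) * R ^ ε)) := by
    refine (h2 F hF hb w hw hw1 h0 h0' R hR hRw).trans (ENNReal.ofReal_le_ofReal ?_)
    have := log_le ε hε0 R hR1
    calc C2 * (w ^ (k - 1)) ^ (4 : ℝ) * (1 + Real.log R) ≤
          C2 * (w ^ (k - 1)) ^ (4 : ℝ) * ((1 + 1 / ε) * R ^ ε) := by gcongr
      _ = _ := by ring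
  calc _ ≤ (ENNReal.ofReal (C1 * 2 * (2 ^ (k - 1)) ^ (2 : ℝ) *
        ((w ^ (k - 1)) ^ (2 : ℝ) * R))) ^ α *
        (ENNReal.ofReal (C2 * (1 + 1 / ε) * ((w ^ (k - 1)) ^ (4 : ℝ) * R ^ ε))) ^ β := by gcongr
    _ = _ := by
        rw [ENNReal.ofReal_rpow_of_nonneg (by positivity) hα0.le,
          ENNReal.ofReal_rpow_of_nonneg (by positivity) hβ0.le,
          ← ENNReal.ofReal_mul (by positivity)]
        congr 1
        have hA : 0 ≤ w ^ (k - 1) := by positivity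
        rw [Real.mul_rpow (x := C1 * 2 * (2 ^ (k - 1)) ^ (2 : ℝ)) (by positivity) (by positivity),
          Real.mul_rpow (x := (w ^ (k - 1)) ^ (2 : ℝ)) (by positivity) hR.le,
          Real.mul_rpow (x := C2 * (1 + 1 / ε)) (by positivity) (by positivity),
          Real.mul_rpow (x := (w ^ (k - 1)) ^ (4 : ℝ)) (by positivity) (by positivity),
          ← Real.rpow_mul hA, ← Real.rpow_mul hA, ← Real.rpow_mul hR.le, hεβ]
        have e2 : (w ^ (k - 1)) ^ p = (w ^ (k - 1)) ^ (2 * α) * (w ^ (k - 1)) ^ (4 * β) := by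
          rw [← Real.rpow_add (by positivity), hsum]
        have e3 : R ^ γ = R ^ α * R ^ (γ - α) := by
          rw [← Real.rpow_add hR]
          congr 1
          ring
        rw [e2, e3]
        ring

end Pool.Agent.Helper66x.AR
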