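import Mathlib
import Pool.Agent.Helper66x.AR.Rough
set_option autoImplicit false

/-! The Fourier transform of the remainder. -/

namespace Pool.Agent.Helper66x.AR

open MeasureTheory Set Complex Metric
open scoped ENNReal RealInnerProductSpace
open Pool.Agent.H789R2.FR (E sg T D A sg_finite sg_ae A_meas A_bound rem_bound)
open Pool.Agent.H438R2.BR (J J_mp J_inner)
open Pool.Agent.H438R2.PD (P1 P2 P1_meas P2_meas T_meas')
open Pool.Agent.TH335.RF (wt wt_meas wt_nonneg wt_pos wt_le_one FB Gf MA RT enorm_sq)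

variable {k m : ℕ}

theorem rough_gen (k m : ℕ) (hk : 2 ≤ k) (hm : 1 ≤ m) (p P : ℝ) (hp : 2 < p) (hpP : p < P)
    (hP : 2 * ((((k + m : ℕ) : ℝ) + 1) / (((k + m : ℕ) : ℝ) - 1)) < P) : ∃ C : ℝ, 0 < C ∧
    ∀ h : E (k + m) → ℂ, Measurable h → (∃ M : ℝ, ∀ x, ‖h x‖ ≤ M) → ∀ w : ℝ, 0 < w →
    (∀ (y : E m) (u : E k), wt y < w → h (pt (y, u)) = 0) → ∀ R : ℝ, 0 < R →
    ∫⁻ x in ball (0 : E k) R, ∫⁻ y : E m, ‖T h (J x y)‖ₑ ^ p ≤
      ENNReal.ofReal (C * (R / w) ^ ((P - p) / (P - 2))) *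
        (∫⁻ z, ‖h z‖ₑ ^ (2 : ℝ) ∂(sg (k + m))) ^ (p / 2) := by
  obtain ⟨C1, hC1, h1⟩ := slab (k := k) (m := m) hk hm
  obtain ⟨C2, hC2, h2⟩ := st_lint (k + m) (by omega) P hP
  have hP2 : 0 < P - 2 := by linarith
  set a := (P - p) / (P - 2) with ha
  set b := (p - 2) / (P - 2) with hb
  have ha0 : 0 < a := div_pos (by linarith) hP2
  have hb0 : 0 < b := div_pos (by linarith) hP2
  have hab : a + P / 2 * b = p / 2 := by rw [ha, hb]; field_simp; ring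
  refine ⟨C1 ^ a * C2 ^ b, by positivity, ?_⟩
  intro h hh hM w hw h0 R hR
  have hTm : Measurable (T h) := T_meas' h hh
  have hJm : Measurable fun q : E k × E m => J q.1 q.2 := (J_mp k m).measurable
  have hfm : Measurable fun q : E k × E m => ‖T h (J q.1 q.2)‖ₑ := (hTm.comp hJm).enorm
  have e1 : ∀ q : ℝ, ∫⁻ x in ball (0 : E k) R, ∫⁻ y : E m, ‖T h (J x y)‖ₑ ^ q =
      ∫⁻ z : E k × E m, ‖T h (J z.1 z.2)‖ₑ ^ q
        ∂(((volume : Measure (E k)).restrict (ball (0 : E k) R)).prod volume) := by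
    intro q
    rw [lintegral_prod _ (hfm.pow_const q).aemeasurable]
  have h3 := holder (((volume : Measure (E k)).restrict (ball (0 : E k) R)).prod
    (volume : Measure (E m))) (fun z => ‖T h (J z.1 z.2)‖ₑ) hfm.aemeasurable p P hp hpP
  rw [← e1, ← e1, ← e1, ← ha, ← hb] at h3
  have h4 : ∫⁻ x in ball (0 : E k) R, ∫⁻ y : E m, ‖T h (J x y)‖ₑ ^ P ≤ ∫⁻ z, ‖T h z‖ₑ ^ P := by
    have hm2 : Measurable fun z : E (k + m) => ‖T h z‖ₑ ^ P := hTm.enorm.pow_const P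
    have hm3 : Measurable fun q : E k × E m => ‖T h (J q.1 q.2)‖ₑ ^ P := hfm.pow_const P
    rw [← (J_mp k m).lintegral_comp hm2, lintegral_prod _ hm3.aemeasurable]
    exact setLIntegral_le_lintegral _ _
  set N := ∫⁻ z, ‖h z‖ₑ ^ (2 : ℝ) ∂(sg (k + m)) with hN
  calc _ ≤ (∫⁻ x in ball (0 : E k) R, ∫⁻ y : E m, ‖T h (J x y)‖ₑ ^ (2 : ℝ)) ^ a *
        (∫⁻ x in ball (0 : E k) R, ∫⁻ y : E m, ‖T h (J x y)‖ₑ ^ P) ^ b := h3
    _ ≤ (ENNReal.ofReal (C1 * (R / w)) * N) ^ a * (ENNReal.ofReal C2 * N ^ (P / 2)) ^ b := by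
        gcongr
        · exact h1 h hh hM w hw h0 R hR
        · exact h4.trans (h2 h hh hM)
    _ = _ := by
        rw [ENNReal.mul_rpow_of_nonneg _ _ ha0.le, ENNReal.mul_rpow_of_nonneg _ _ hb0.le,
          ENNReal.ofReal_rpow_of_nonneg (by positivity) ha0.le,
          ENNReal.ofReal_rpow_of_nonneg hC2.le hb0.le, ← ENNReal.rpow_mul, ← hab,
          ENNReal.rpow_add_of_nonneg _ _ ha0.le (mul_nonneg (by linarith) hb0.le),
          Real.mul_rpow hC1.le (by positivity)]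
        have e2 : C1 ^ a * C2 ^ b * (R / w) ^ a = (C1 ^ a * (R / w) ^ a) * C2 ^ b := by ring
        rw [e2, ENNReal.ofReal_mul (p := C1 ^ a * (R / w) ^ a) (by positivity)]
        generalize ENNReal.ofReal (C1 ^ a * (R / w) ^ a) = X
        ring

/-- the remainder -/
theorem rough_final (k m : ℕ) (hk : 2 ≤ k) (hm : 1 ≤ m) (p P s : ℝ) (hp : 2 < p) (hpP : p < P)
    (hP : 2 * ((((k + m : ℕ) : ℝ) + 1) / (((k + m : ℕ) : ℝ) - 1)) < P) (hs : 0 < s) :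
    ∃ C : ℝ, 0 < C ∧ ∀ ρ w : ℝ, 0 < ρ → 0 < w → 1 ≤ ρ * w →
    ∀ G : E (k + m) → ℂ, Measurable G → (∀ z, ‖G z‖ ≤ 1) → Sb G s ≤ 1 →
    (∀ (y : E m) (u : E k), wt y ≤ w → G (pt (y, u)) = 0) →
    (∀ (y : E m) (u : E k), 2 * w < wt y → G (pt (y, u)) = 0) →
    ∫⁻ x in Sh k ρ, ∫⁻ y : E m, ‖T (fun z => G z - sm (ρ * w) G z) (J x y)‖ₑ ^ p ≤
      ENNReal.ofReal (C * (w / ρ) ^ (s * p / 2 - (P - p) / (P - 2))) := by
  obtain ⟨C1, hC1, h1⟩ := rough_gen k m hk hm p P hp hpP hP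
  obtain ⟨C2, hC2, h2⟩ := rem_L2 k m hk hm s hs
  have hP2 : 0 < P - 2 := by linarith
  set a := (P - p) / (P - 2) with ha
  have ha0 : 0 < a := div_pos (by linarith) hP2
  refine ⟨C1 * 4 ^ a * C2 ^ (p / 2), by positivity, ?_⟩
  intro ρ w hρ hw hQ G hG hb hSb h0 h0'
  have hQ0 : 0 ≤ ρ * w := by positivity
  have hh : Measurable fun z => G z - sm (ρ * w) G z := hG.sub (sm_meas _ G hG)
  have hsub : Sh k ρ ⊆ ball (0 : E k) (4 * ρ) := fun x hx => by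
    rw [mem_ball_zero_iff]
    exact hx.2
  have h3 := h1 (fun z => G z - sm (ρ * w) G z) hh ⟨1 + 1, fun x =>
    (norm_sub_le _ _).trans (add_le_add (hb x) (sm_le _ hQ0 G hb x))⟩ w hw
    (fun y u hy => by
      rw [h0 y u hy.le, sm_zero (ρ * w) G y (fun u => h0 y u hy.le), sub_zero]) (4 * ρ)
    (by positivity)
  have h4 := h2 ρ w hρ hw hQ G hG hb h0'
  have h5 : ∫⁻ z, ‖G z - sm (ρ * w) G z‖ₑ ^ (2 : ℝ) ∂(sg (k + m)) ≤
      ENNReal.ofReal (C2 * (w / ρ) ^ s) := by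
    calc _ ≤ ENNReal.ofReal (C2 * (w / ρ) ^ s) * Sb G s := h4
      _ ≤ ENNReal.ofReal (C2 * (w / ρ) ^ s) * 1 := by gcongr
      _ = _ := mul_one _
  calc _ ≤ ∫⁻ x in ball (0 : E k) (4 * ρ), ∫⁻ y : E m,
        ‖T (fun z => G z - sm (ρ * w) G z) (J x y)‖ₑ ^ p := lintegral_mono_set hsub
    _ ≤ _ := h3
    _ ≤ ENNReal.ofReal (C1 * (4 * ρ / w) ^ a) * (ENNReal.ofReal (C2 * (w / ρ) ^ s)) ^ (p / 2) := by
        gcongr
    _ = _ := by
        rw [ENNReal.ofReal_rpow_of_nonneg (by positivity) (by positivity),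
          ← ENNReal.ofReal_mul (by positivity)]
        congr 1
        have hwρ : 0 < w / ρ := by positivity
        have e1 : 4 * ρ / w = 4 * (w / ρ)⁻¹ := by
          field_simp
        rw [e1, Real.mul_rpow (by norm_num) (by positivity), Real.mul_rpow hC2.le (by positivity),
          ← Real.rpow_mul hwρ.le, Real.inv_rpow hwρ.le, ← Real.rpow_neg hwρ.le]
        have e2 : C1 * (4 ^ a * (w / ρ) ^ (-a)) * (C2 ^ (p / 2) * (w / ρ) ^ (s * (p / 2))) =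
            C1 * 4 ^ a * C2 ^ (p / 2) * ((w / ρ) ^ (-a) * (w / ρ) ^ (s * (p / 2))) := by ring
        rw [e2, ← Real.rpow_add hwρ]
        congr 2
        ring

end Pool.Agent.Helper66x.AR
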