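import Mathlib
import Pool.Agent.Helper66x.AR.Smt
set_option autoImplicit false

/-! The smoothed density, final bound. -/

namespace Pool.Agent.Helper66x.AR

open MeasureTheory Set Complex Metric
open scoped ENNReal RealInnerProductSpace
open Pool.Agent.H789R2.FR (E sg T)
open Pool.Agent.H438R2.BR (J J_mp J_inner)
open Pool.Agent.TH335.RF (wt RT)

variable {k m : ℕ}

/-- algebra of the three terms -/
theorem smooth_alg (k : ℕ) (hk : 2 ≤ k) (p γ : ℝ) (hp : 2 < p)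
    (hα : γ < ((k : ℝ) - 1) * (p / 2 - 1)) : ∃ C η ε : ℝ, 0 < C ∧ 0 < η ∧ 0 < ε ∧
    ∀ ρ w : ℝ, 1 ≤ ρ → 0 < w → w ≤ 1 → 1 ≤ ρ * w → ∀ δ : ℝ, δ = ρ ^ ε * (ρ * w) ^ (-(1 / 2) : ℝ) →
    (w ^ (k - 1)) ^ p * ((δ ^ (k - 1)) ^ (p - 1) *
        (ρ ^ (k - 1) * δ ^ (k - 1) *
        ρ ^ γ + Real.exp (-(ρ * w / 2) * δ ^ 2) *
        (ρ * w) ^ (((k : ℝ) - 1) / 2) * ρ ^ k) +
        Real.exp (-(ρ * w / 10) * δ ^ 2) ^ p * ρ ^ k) ≤
      C * (ρ ^ (-η) * w ^ (((k : ℝ) - 1) * p / 2)) := by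
  have hk2 : (2 : ℝ) ≤ k := by exact_mod_cast hk
  set κ : ℝ := (k : ℝ) - 1 with hκ
  have hκ1 : 1 ≤ κ := by rw [hκ]; linarith
  set α : ℝ := κ * (p / 2 - 1) - γ with hαd
  have hα0 : 0 < α := by rw [hαd]; linarith
  set ε : ℝ := α / (2 * (κ * p)) with hε
  have hκp : 0 < κ * p := by positivity
  have hε0 : 0 < ε := by positivity
  have hεα : ε * (κ * p) = α / 2 := by rw [hε]; field_simp
  obtain ⟨C1, hC1, h1⟩ := exp_dec2 (1 / 2) ε (ε * (κ * (p - 1)) + κ / 2 + k + α / 2) (by norm_num)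
    hε0 (by nlinarith [mul_pos hε0 (mul_pos (by linarith : 0 < κ) (by linarith : 0 < p - 1))])
  obtain ⟨C2, hC2, h2⟩ := exp_dec2 (p / 10) ε (k + α / 2) (by positivity) hε0 (by positivity)
  refine ⟨1 + C1 + C2, α / 2, ε, by positivity, by positivity, hε0, ?_⟩
  intro ρ w hρ hw hw1 hQ δ hδ
  have hρ0 : 0 < ρ := by linarith
  have hQ0 : 0 < ρ * w := by positivity
  have hδ0 : 0 < δ := by rw [hδ]; positivity
  have hkc : (((k - 1 : ℕ)) : ℝ) = κ := by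
    rw [hκ, Nat.cast_sub (by omega)]
    norm_num
  -- powers
  have p1 : ∀ t : ℝ, 0 ≤ t → t ^ (k - 1) = t ^ κ := fun t ht => by
    rw [← Real.rpow_natCast, hkc]
  have p2 : ρ ^ k = ρ ^ (k : ℝ) := (Real.rpow_natCast _ _).symm
  have d1 : ρ * w * δ ^ 2 = ρ ^ (2 * ε) := by
    have i1 : δ ^ 2 = δ ^ (2 : ℝ) := by norm_num
    rw [i1, hδ, Real.mul_rpow (by positivity) (by positivity), ← Real.rpow_mul hρ0.le,
      ← Real.rpow_mul hQ0.le]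
    have i2 : (-(1 / 2) : ℝ) * 2 = -1 := by norm_num
    rw [i2, Real.rpow_neg_one, mul_comm ε 2]
    field_simp
  have d2 : Real.exp (-(ρ * w / 2) * δ ^ 2) ≤ C1 * ρ ^ (-(ε * (κ * (p - 1)) + κ / 2 + k + α / 2)) := by
    refine le_trans (le_of_eq ?_) (h1 ρ hρ)
    rw [← d1]
    congr 1
    ring
  have d3 : Real.exp (-(ρ * w / 10) * δ ^ 2) ^ p ≤ C2 * ρ ^ (-(k + α / 2)) := by
    refine le_trans (le_of_eq ?_) (h2 ρ hρ)
    rw [← Real.exp_mul, ← d1]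
    congr 1
    ring
  have d4 : δ ^ (k - 1) = ρ ^ (ε * κ) * (ρ * w) ^ (-(κ / 2)) := by
    rw [p1 δ hδ0.le, hδ, Real.mul_rpow (by positivity) (by positivity), ← Real.rpow_mul hρ0.le,
      ← Real.rpow_mul hQ0.le]
    congr 2
    ring
  have d5 : (w ^ (k - 1)) ^ p = w ^ (κ * p / 2) * w ^ (κ * p / 2) := by
    rw [p1 w hw.le, ← Real.rpow_mul hw.le, ← Real.rpow_add hw]
    congr 1
    ring
  have hX0 : 0 < w ^ (κ * p / 2) := by positivity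
  have hX1 : w ^ (κ * p / 2) ≤ 1 := Real.rpow_le_one hw.le hw1 (by positivity)
  have hR0 : 0 < ρ ^ (-(α / 2)) := by positivity
  -- first term
  have t1 : (w ^ (k - 1)) ^ p * ((δ ^ (k - 1)) ^ (p - 1) * (ρ ^ (k - 1) * δ ^ (k - 1) * ρ ^ γ)) =
      ρ ^ (-(α / 2)) * w ^ (κ * p / 2) := by
    have i1 : (δ ^ (k - 1)) ^ (p - 1) * (ρ ^ (k - 1) * δ ^ (k - 1) * ρ ^ γ) =
        (δ ^ (k - 1)) ^ p * (ρ ^ κ * ρ ^ γ) := by
      have : (δ ^ (k - 1)) ^ p = (δ ^ (k - 1)) ^ (p - 1) * δ ^ (k - 1) := by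
        rw [← Real.rpow_add_one (by positivity)]
        congr 1
        ring
      rw [this, p1 ρ hρ0.le]
      ring
    rw [i1, d5, d4, Real.mul_rpow (by positivity) (by positivity), ← Real.rpow_mul hρ0.le,
      ← Real.rpow_mul hQ0.le, Real.mul_rpow hρ0.le hw.le]
    have i2 : ρ ^ (ε * κ * p) * (ρ ^ (-(κ / 2) * p) * w ^ (-(κ / 2) * p)) * (ρ ^ κ * ρ ^ γ) =
        w ^ (-(κ / 2) * p) * ρ ^ (ε * κ * p + -(κ / 2) * p + κ + γ) := by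
      rw [Real.rpow_add hρ0, Real.rpow_add hρ0, Real.rpow_add hρ0]
      ring
    have i3 : ε * κ * p + -(κ / 2) * p + κ + γ = -(α / 2) := by
      have : ε * κ * p = α / 2 := by rw [← hεα]; ring
      rw [this, hαd]
      ring
    have i4 : w ^ (κ * p / 2) * w ^ (-(κ / 2) * p) = 1 := by
      rw [← Real.rpow_add hw]
      have : κ * p / 2 + -(κ / 2) * p = 0 := by ring
      rw [this, Real.rpow_zero]
    rw [i2, i3]
    calc w ^ (κ * p / 2) * w ^ (κ * p / 2) * (w ^ (-(κ / 2) * p) * ρ ^ (-(α / 2))) =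
        (w ^ (κ * p / 2) * w ^ (-(κ / 2) * p)) * (ρ ^ (-(α / 2)) * w ^ (κ * p / 2)) := by ring
      _ = _ := by rw [i4, one_mul]
  -- second term
  have hδk : (δ ^ (k - 1)) ^ (p - 1) ≤ ρ ^ (ε * (κ * (p - 1))) := by
    have i1 : δ ^ (k - 1) ≤ ρ ^ (ε * κ) := by
      rw [d4]
      have : (ρ * w) ^ (-(κ / 2)) ≤ 1 := Real.rpow_le_one_of_one_le_of_nonpos hQ (by linarith)
      have h0 : 0 < ρ ^ (ε * κ) := by positivity
      nlinarith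
    calc (δ ^ (k - 1)) ^ (p - 1) ≤ (ρ ^ (ε * κ)) ^ (p - 1) :=
          Real.rpow_le_rpow (by positivity) i1 (by linarith)
      _ = _ := by
          rw [← Real.rpow_mul hρ0.le]
          congr 1
          ring
  have t2 : (w ^ (k - 1)) ^ p * ((δ ^ (k - 1)) ^ (p - 1) * (Real.exp (-(ρ * w / 2) * δ ^ 2) *
      (ρ * w) ^ (κ / 2) * ρ ^ k)) ≤ C1 * (ρ ^ (-(α / 2)) * w ^ (κ * p / 2)) := by
    have i1 : (ρ * w) ^ (κ / 2) ≤ ρ ^ (κ / 2) :=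
      Real.rpow_le_rpow hQ0.le (by nlinarith) (by linarith)
    calc _ ≤ (w ^ (κ * p / 2) * 1) * (ρ ^ (ε * (κ * (p - 1))) *
          (C1 * ρ ^ (-(ε * (κ * (p - 1)) + κ / 2 + k + α / 2)) * ρ ^ (κ / 2) * ρ ^ (k : ℝ))) := by
          rw [d5, p2]
          gcongr
      _ = C1 * ((ρ ^ (ε * (κ * (p - 1))) * ρ ^ (-(ε * (κ * (p - 1)) + κ / 2 + k + α / 2)) *
          ρ ^ (κ / 2) * ρ ^ (k : ℝ)) * w ^ (κ * p / 2)) := by ring
      _ = _ := by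
          rw [← Real.rpow_add hρ0, ← Real.rpow_add hρ0, ← Real.rpow_add hρ0]
          congr 3
          ring
  -- third term
  have t3 : (w ^ (k - 1)) ^ p * (Real.exp (-(ρ * w / 10) * δ ^ 2) ^ p * ρ ^ k) ≤
      C2 * (ρ ^ (-(α / 2)) * w ^ (κ * p / 2)) := by
    calc _ ≤ (w ^ (κ * p / 2) * 1) * (C2 * ρ ^ (-(k + α / 2)) * ρ ^ (k : ℝ)) := by
          rw [d5, p2]
          gcongr
      _ = C2 * ((ρ ^ (-(k + α / 2)) * ρ ^ (k : ℝ)) * w ^ (κ * p / 2)) := by ring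
      _ = _ := by
          rw [← Real.rpow_add hρ0]
          congr 3
          ring
  calc _ = (w ^ (k - 1)) ^ p * ((δ ^ (k - 1)) ^ (p - 1) *
        (ρ ^ (k - 1) * δ ^ (k - 1) * ρ ^ γ)) +
        (w ^ (k - 1)) ^ p * ((δ ^ (k - 1)) ^ (p - 1) * (Real.exp (-(ρ * w / 2) * δ ^ 2) *
        (ρ * w) ^ (κ / 2) * ρ ^ k)) +
        (w ^ (k - 1)) ^ p * (Real.exp (-(ρ * w / 10) * δ ^ 2) ^ p * ρ ^ k) := by ring
    _ ≤ ρ ^ (-(α / 2)) * w ^ (κ * p / 2) + C1 * (ρ ^ (-(α / 2)) * w ^ (κ * p / 2)) +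
        C2 * (ρ ^ (-(α / 2)) * w ^ (κ * p / 2)) := add_le_add (add_le_add t1.le t2) t3
    _ = _ := by ring

/-- the smoothed density -/
theorem smooth_final (k m : ℕ) (hk : 2 ≤ k) (hm : 1 ≤ m) (p γ : ℝ) (hp : 2 < p)
    (hMn : Mn k m p γ) (hα : γ < ((k : ℝ) - 1) * (p / 2 - 1)) :
    ∃ C η : ℝ, 0 < C ∧ 0 < η ∧ ∀ ρ w : ℝ, 1 ≤ ρ → 0 < w → 2 * w ≤ 1 → 1 ≤ ρ * w →
    ∀ G : E (k + m) → ℂ, Measurable G → (∀ z, ‖G z‖ ≤ 1) →
    (∀ (y : E m) (u : E k), wt y ≤ w → G (pt (y, u)) = 0) →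
    (∀ (y : E m) (u : E k), 2 * w < wt y → G (pt (y, u)) = 0) →
    ∫⁻ x in Sh k ρ, ∫⁻ y : E m, ‖T (sm (ρ * w) G) (J x y)‖ₑ ^ p ≤
      ENNReal.ofReal (C * (ρ ^ (-η) * w ^ (((k : ℝ) - 1) * p / 2))) := by
  obtain ⟨C1, hC1, h1⟩ := smooth_total k m hk hm p γ hp hMn
  obtain ⟨C2, η, ε, hC2, hη, hε, h2⟩ := smooth_alg k hk p _ hp hα
  refine ⟨C1 * C2, η, by positivity, hη, ?_⟩
  intro ρ w hρ hw hw1 hQ G hG hb h0 h0'
  have hρ0 : 0 < ρ := by linarith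
  refine (h1 ρ w hρ0 hw hw1 hQ G hG hb h0 h0' (ρ ^ ε * (ρ * w) ^ (-(1 / 2) : ℝ))
    (by positivity)).trans (ENNReal.ofReal_le_ofReal ?_)
  have h3 := h2 ρ w hρ hw (by linarith) hQ _ rfl
  rw [mul_assoc, mul_assoc C1 C2]
  gcongr

end Pool.Agent.Helper66x.AR
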