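import Mathlib
import Pool.Agent.Helper66x.AR.Rough2
import Pool.Agent.Helper66x.AR.Smu
set_option autoImplicit false

/-! Summation over the dyadic pieces. -/

namespace Pool.Agent.Helper66x.AR

open MeasureTheory Set Complex Metric
open scoped ENNReal RealInnerProductSpace
open Pool.Agent.H789R2.FR (E sg T D A sg_finite sg_ae A_meas A_bound rem_bound T_integrable)
open Pool.Agent.H438R2.BR (J J_mp J_inner)
open Pool.Agent.H438R2.PD (P1 P2 P1_meas P2_meas T_meas')
open Pool.Agent.TH335.RF (wt wt_meas wt_nonneg wt_pos wt_le_one FB Gf MA RT enorm_sq)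

variable {k m : ℕ}

/-- restriction to small radii of the fibres -/
noncomputable def cut (G : E (k + m) → ℂ) (c : ℝ) : E (k + m) → ℂ :=
  {z | wt (P2 k m z) ≤ c}.indicator G

/-- restriction to a dyadic range of radii of the fibres -/
noncomputable def piece (G : E (k + m) → ℂ) (w : ℝ) : E (k + m) → ℂ :=
  {z | w < wt (P2 k m z) ∧ wt (P2 k m z) ≤ 2 * w}.indicator G

theorem wP_meas : Measurable fun z : E (k + m) => wt (P2 k m z) := wt_meas.comp (P2_meas k m)

theorem cut_meas (G : E (k + m) → ℂ) (hG : Measurable G) (c : ℝ) : Measurable (cut G c) :=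
  hG.indicator (measurableSet_le wP_meas measurable_const)

theorem piece_meas (G : E (k + m) → ℂ) (hG : Measurable G) (w : ℝ) : Measurable (piece G w) :=
  hG.indicator ((measurableSet_lt measurable_const wP_meas).inter
    (measurableSet_le wP_meas measurable_const))

theorem ind_le (G : E (k + m) → ℂ) (hb : ∀ z, ‖G z‖ ≤ 1) (S : Set (E (k + m)))
    (z : E (k + m)) : ‖S.indicator G z‖ ≤ 1 := by
  by_cases hz : z ∈ S
  · rw [indicator_of_mem hz]
    exact hb z
  · rw [indicator_of_notMem hz, norm_zero]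
    exact zero_le_one

theorem cut_add (G : E (k + m) → ℂ) (w : ℝ) (hw : 0 ≤ w) (z : E (k + m)) :
    cut G (2 * w) z = cut G w z + piece G w z := by
  unfold cut piece
  by_cases h1 : wt (P2 k m z) ≤ w
  · rw [indicator_of_mem (show z ∈ {z | wt (P2 k m z) ≤ 2 * w} by
        rw [mem_ofPred_eq]; linarith),
      indicator_of_mem (show z ∈ {z | wt (P2 k m z) ≤ w} from h1),
      indicator_of_notMem (fun hc => absurd hc.1 (not_lt.2 h1)), add_zero]
  · rw [indicator_of_notMem (show z ∉ {z | wt (P2 k m z) ≤ w} from h1)]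
    push Not at h1
    by_cases h2 : wt (P2 k m z) ≤ 2 * w
    · rw [indicator_of_mem (show z ∈ {z | wt (P2 k m z) ≤ 2 * w} from h2),
        indicator_of_mem (show z ∈ {z | w < wt (P2 k m z) ∧ wt (P2 k m z) ≤ 2 * w} from ⟨h1, h2⟩),
        zero_add]
    · rw [indicator_of_notMem (show z ∉ {z | wt (P2 k m z) ≤ 2 * w} from h2),
        indicator_of_notMem (fun hc => h2 hc.2), zero_add]

theorem cut_one (G : E (k + m) → ℂ) : cut G 1 = G := by
  funext z
  unfold cut
  rw [indicator_of_mem (show z ∈ {z | wt (P2 k m z) ≤ 1} from wt_le_one _)]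

theorem piece_pt (G : E (k + m) → ℂ) (w : ℝ) (y : E m) (u : E k) :
    piece G w (pt (y, u)) = if w < wt y ∧ wt y ≤ 2 * w then G (pt (y, u)) else 0 := by
  unfold piece
  by_cases h : w < wt y ∧ wt y ≤ 2 * w
  · rw [if_pos h, indicator_of_mem]
    rw [mem_ofPred_eq, P2_pt]
    exact h
  · rw [if_neg h, indicator_of_notMem]
    rw [mem_ofPred_eq, P2_pt]
    exact h

theorem cut_pt (G : E (k + m) → ℂ) (c : ℝ) (y : E m) (u : E k) :
    cut G c (pt (y, u)) = if wt y ≤ c then G (pt (y, u)) else 0 := by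
  unfold cut
  by_cases h : wt y ≤ c
  · rw [if_pos h, indicator_of_mem]
    rw [mem_ofPred_eq, P2_pt]
    exact h
  · rw [if_neg h, indicator_of_notMem]
    rw [mem_ofPred_eq, P2_pt]
    exact h

theorem Sb_piece (G : E (k + m) → ℂ) (s w : ℝ) : Sb (piece G w) s ≤ Sb G s := by
  unfold Sb
  refine lintegral_mono fun y => mul_le_mul' le_rfl ?_
  unfold Kf
  simp_rw [piece_pt]
  by_cases h : w < wt y ∧ wt y ≤ 2 * w
  · simp_rw [if_pos h]
    exact le_rfl
  · simp_rw [if_neg h]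
    simp

/-- the norm on a shell -/
noncomputable def Nm (k m : ℕ) (p ρ : ℝ) (g : E (k + m) → ℂ) : ℝ≥0∞ :=
  (∫⁻ x in Sh k ρ, ∫⁻ y : E m, ‖T g (J x y)‖ₑ ^ p) ^ (1 / p)

theorem Nm_add (p ρ : ℝ) (hp : 1 ≤ p) (g h f : E (k + m) → ℂ) (hg : Measurable g)
    (hh : Measurable h) (hgb : ∃ M : ℝ, ∀ z, ‖g z‖ ≤ M) (hhb : ∃ M : ℝ, ∀ z, ‖h z‖ ≤ M)
    (hf : ∀ z, f z = g z + h z) : Nm k m p ρ f ≤ Nm k m p ρ g + Nm k m p ρ h := by
  obtain ⟨M1, hM1⟩ := hgb
  obtain ⟨M2, hM2⟩ := hhb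
  have hJm : Measurable fun q : E k × E m => J q.1 q.2 := (J_mp k m).measurable
  have hfe : f = fun z => g z + h z := funext hf
  have hTf : ∀ z, T f z = T g z + T h z := by
    intro z
    rw [hfe]
    unfold T
    rw [← integral_add (T_integrable hg hM1 z) (T_integrable hh hM2 z)]
    refine integral_congr_ae (Filter.Eventually.of_forall fun w => ?_)
    simp only
    ring
  have m1 : ∀ g : E (k + m) → ℂ, Measurable g →
      Measurable fun q : E k × E m => ‖T g (J q.1 q.2)‖ₑ := fun g hg =>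
    ((T_meas' g hg).comp hJm).enorm
  have e1 : ∀ g : E (k + m) → ℂ, Measurable g → Nm k m p ρ g =
      (∫⁻ z : E k × E m, ‖T g (J z.1 z.2)‖ₑ ^ p
        ∂(((volume : Measure (E k)).restrict (Sh k ρ)).prod volume)) ^ (1 / p) := by
    intro g hg
    unfold Nm
    rw [lintegral_prod _ ((m1 g hg).pow_const p).aemeasurable]
  have hfm : Measurable f := by rw [hfe]; exact hg.add hh
  rw [e1 f hfm, e1 g hg, e1 h hh]
  have h2 := ENNReal.lintegral_Lp_add_le
    (μ := ((volume : Measure (E k)).restrict (Sh k ρ)).prod (volume : Measure (E m)))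
    (m1 g hg).aemeasurable (m1 h hh).aemeasurable hp
  refine le_trans ?_ h2
  gcongr with z
  simp only [Pi.add_apply]
  rw [hTf]
  exact enorm_add_le _ _

/-- decomposition -/
theorem decompose (p ρ : ℝ) (hp : 1 ≤ p) (hρ : 0 ≤ ρ) (G : E (k + m) → ℂ) (hG : Measurable G)
    (hb : ∀ z, ‖G z‖ ≤ 1) (j : ℕ) :
    Nm k m p ρ G ≤ Nm k m p ρ (cut G ((1 / 2) ^ j)) +
      ∑ l ∈ Finset.range j, (Nm k m p ρ (sm (ρ * (1 / 2) ^ (l + 1)) (piece G ((1 / 2) ^ (l + 1)))) +
        Nm k m p ρ (fun z => piece G ((1 / 2) ^ (l + 1)) z -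
          sm (ρ * (1 / 2) ^ (l + 1)) (piece G ((1 / 2) ^ (l + 1))) z)) := by
  induction j with
  | zero =>
    rw [pow_zero, cut_one]
    simp
  | succ j ih =>
    refine ih.trans ?_
    rw [Finset.sum_range_succ, add_comm (∑ l ∈ Finset.range j, _), ← add_assoc, ← add_assoc]
    gcongr
    set w : ℝ := (1 / 2) ^ (j + 1) with hw
    have hw0 : 0 ≤ w := by positivity
    have hw2 : (1 / 2 : ℝ) ^ j = 2 * w := by
      rw [hw, pow_succ]
      ring
    rw [hw2]
    have hpm := piece_meas G hG w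
    have hpb : ∀ z, ‖piece G w z‖ ≤ 1 := ind_le G hb _
    have hsm := sm_meas (ρ * w) _ hpm
    have hsb := sm_le (ρ * w) (by positivity) _ hpb
    have h1 := Nm_add (k := k) (m := m) p ρ hp (cut G w) (piece G w) (cut G (2 * w))
      (cut_meas G hG w) hpm ⟨1, ind_le G hb _⟩ ⟨1, hpb⟩ (cut_add G w hw0)
    have h2 := Nm_add (k := k) (m := m) p ρ hp (sm (ρ * w) (piece G w))
      (fun z => piece G w z - sm (ρ * w) (piece G w) z) (piece G w) hsm (hpm.sub hsm)
      ⟨1, hsb⟩ ⟨1 + 1, fun z => (norm_sub_le _ _).trans (add_le_add (hpb z) (hsb z))⟩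
      (fun z => by ring)
    calc _ ≤ _ := h1
      _ ≤ Nm k m p ρ (cut G w) + (Nm k m p ρ (sm (ρ * w) (piece G w)) +
          Nm k m p ρ (fun z => piece G w z - sm (ρ * w) (piece G w) z)) := by gcongr
      _ = _ := by rw [add_assoc]

/-- the part of small radii -/
theorem cut_bound (k m : ℕ) (hk : 2 ≤ k) (hm : 1 ≤ m) (p : ℝ) (hp : 2 ≤ p) :
    ∃ C : ℝ, 0 < C ∧ ∀ G : E (k + m) → ℂ, Measurable G → (∀ z, ‖G z‖ ≤ 1) →
    ∀ c : ℝ, 0 < c → ∀ x : E k,
    ∫⁻ y : E m, ‖T (cut G c) (J x y)‖ₑ ^ p ≤ ENNReal.ofReal (C * (c ^ (k - 1)) ^ p) := by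
  obtain ⟨C, hC, h⟩ := small_Lp k m hk hm p hp
  set σ : ℝ := (sg k).real univ with hσ
  have hσ0 : 0 ≤ σ := measureReal_nonneg
  refine ⟨C * (σ + 1) ^ p, by positivity, fun G hG hb c hc x => ?_⟩
  have hcm := cut_meas G hG c
  have hcb : ∀ z, ‖cut G c z‖ ≤ 1 := ind_le G hb _
  simp_rw [rep hk hm _ hcm 1 hcb x]
  refine (h (am (cut G c) x) (am_meas_right _ hcm x) (σ + 1) (by positivity) c hc ?_ ?_).trans ?_
  · intro y hy
    unfold am fib T
    have e1 : ∀ u : E k, cut G c (pt (y, u)) = 0 := fun u => by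
      rw [cut_pt, if_neg (not_le.2 hy)]
    simp [e1]
  · intro y
    refine (norm_am_le _ 1 hcb x y).trans ?_
    rw [one_mul, mul_comm]
    have := pow_nonneg (wt_nonneg y) (k - 2)
    gcongr
    linarith
  · apply ENNReal.ofReal_le_ofReal
    rw [Real.mul_rpow (by positivity) (by positivity)]
    exact (by ring : C * ((σ + 1) ^ p * (c ^ (k - 1)) ^ p) = C * (σ + 1) ^ p * (c ^ (k - 1)) ^ p).le

end Pool.Agent.Helper66x.AR
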