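import Mathlib
import Pool.Agent.Helper66x.AR.Sum
set_option autoImplicit false

/-! The estimate for densities with regularity along the fibres. -/

namespace Pool.Agent.Helper66x.AR

open MeasureTheory Set Complex Metric
open scoped ENNReal RealInnerProductSpace
open Pool.Agent.H789R2.FR (E sg T D A sg_finite sg_ae A_meas A_bound rem_bound T_integrable cover)
open Pool.Agent.H438R2.BR (J J_mp J_inner)
open Pool.Agent.H438R2.PD (P1 P2 P1_meas P2_meas T_meas')
open Pool.Agent.TH335.RF (wt wt_meas wt_nonneg wt_pos wt_le_one FB Gf MA RT enorm_sq)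

variable {k m : ℕ}

theorem geo_sum (A r : ℝ) (hA : 0 ≤ A) (hr : 0 ≤ r) (hr1 : r < 1) (i : ℕ) :
    ∑ l ∈ Finset.range i, ENNReal.ofReal (A * r ^ l) ≤ ENNReal.ofReal (A / (1 - r)) := by
  rw [← ENNReal.ofReal_sum_of_nonneg (fun l _ => by positivity), ← Finset.mul_sum, div_eq_mul_inv]
  apply ENNReal.ofReal_le_ofReal
  gcongr
  rw [← tsum_geometric_of_lt_one hr hr1]
  exact (summable_geometric_of_lt_one hr hr1).sum_le_tsum _ (fun l _ => by positivity)

theorem shell (k m : ℕ) (hk : 2 ≤ k) (hm : 1 ≤ m) (p γ P' s : ℝ) (hp : 2 < p)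
    (hMn : Mn k m p γ) (hα : γ < ((k : ℝ) - 1) * (p / 2 - 1))
    (hpP' : p < P') (hP' : 2 * ((((k + m : ℕ) : ℝ) + 1) / (((k + m : ℕ) : ℝ) - 1)) < P')
    (hs : 0 < s) (hβ : 0 < s * p / 2 - (P' - p) / (P' - 2)) :
    ∃ C lam : ℝ, 0 < C ∧ 0 < lam ∧ ∀ G : E (k + m) → ℂ, Measurable G → (∀ z, ‖G z‖ ≤ 1) →
    Sb G s ≤ 1 → ∀ i : ℕ, Nm k m p (2 ^ i) G ≤ ENNReal.ofReal (C * ((2 : ℝ) ^ i) ^ (-lam)) := by
  obtain ⟨C1, η, hC1, hη, h1⟩ := smooth_final k m hk hm p γ hp hMn hα
  obtain ⟨C2, hC2, h2⟩ := rough_final k m hk hm p P' s hp hpP' hP' hs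
  obtain ⟨C3, hC3, h3⟩ := cut_bound k m hk hm p hp.le
  obtain ⟨C4, hC4, h4⟩ := Sh_vol k
  set β := s * p / 2 - (P' - p) / (P' - 2) with hβd
  have hp0 : 0 < p := by linarith
  have hk2 : (2 : ℝ) ≤ k := by exact_mod_cast hk
  set κ : ℝ := (k : ℝ) - 1 with hκ
  have hκ1 : 1 ≤ κ := by rw [hκ]; linarith
  have hkc : (((k - 1 : ℕ)) : ℝ) = κ := by
    rw [hκ, Nat.cast_sub (by omega)]
    norm_num
  set c : ℝ := min (κ / 2) (β / p) with hc
  have hc0 : 0 < c := lt_min (by linarith) (by positivity)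
  set lam : ℝ := min (min (η / p) (β / p)) ((κ * p - k) / p) with hlam
  have hlam0 : 0 < lam := by
    refine lt_min (lt_min (by positivity) (by positivity)) (div_pos ?_ hp0)
    nlinarith
  set r : ℝ := (1 / 2 : ℝ) ^ c with hr
  have hr0 : 0 < r := by positivity
  have hr1 : r < 1 := Real.rpow_lt_one (by norm_num) (by norm_num) hc0
  refine ⟨(C3 * C4) ^ (1 / p) + (C1 ^ (1 / p) + C2 ^ (1 / p)) / (1 - r), lam, ?_, hlam0, ?_⟩
  · have : 0 < 1 - r := by linarith
    positivity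
  intro G hG hb hSb i
  set ρ : ℝ := 2 ^ i with hρ
  have hρ1 : 1 ≤ ρ := one_le_pow₀ (by norm_num)
  have hρ0 : 0 < ρ := by linarith
  have hip : 0 ≤ 1 / p := by positivity
  -- the small part
  have s0 : Nm k m p ρ (cut G ((1 / 2) ^ i)) ≤ ENNReal.ofReal ((C3 * C4) ^ (1 / p) * ρ ^ (-lam)) := by
    unfold Nm
    have e1 : ((1 / 2 : ℝ) ^ i) = ρ⁻¹ := by rw [hρ, one_div, inv_pow]
    calc _ ≤ (∫⁻ _ in Sh k ρ, ENNReal.ofReal (C3 * ((ρ⁻¹) ^ (k - 1)) ^ p)) ^ (1 / p) := by
          refine ENNReal.rpow_le_rpow (lintegral_mono fun x => ?_) hip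
          have h5 := h3 G hG hb ((1 / 2) ^ i) (by positivity) x
          rwa [e1] at h5 ⊢
      _ ≤ (ENNReal.ofReal (C3 * ((ρ⁻¹) ^ (k - 1)) ^ p) * ENNReal.ofReal (C4 * ρ ^ k)) ^ (1 / p) := by
          rw [setLIntegral_const]
          gcongr
          exact h4 ρ hρ0
      _ = ENNReal.ofReal ((C3 * ((ρ⁻¹) ^ (k - 1)) ^ p * (C4 * ρ ^ k)) ^ (1 / p)) := by
          rw [← ENNReal.ofReal_mul (by positivity), ENNReal.ofReal_rpow_of_nonneg (by positivity) hip]
      _ ≤ _ := by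
          apply ENNReal.ofReal_le_ofReal
          have e2 : C3 * ((ρ⁻¹) ^ (k - 1)) ^ p * (C4 * ρ ^ k) =
              C3 * C4 * ρ ^ (-(κ * p - k)) := by
            rw [← Real.rpow_natCast ρ⁻¹, hkc, Real.inv_rpow hρ0.le, ← Real.rpow_neg hρ0.le,
              ← Real.rpow_mul hρ0.le, ← Real.rpow_natCast ρ k]
            have : ρ ^ (-(κ * p - k)) = ρ ^ (-κ * p) * ρ ^ (k : ℝ) := by
              rw [← Real.rpow_add hρ0]
              congr 1
              ring
            rw [this]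
            ring
          rw [e2, Real.mul_rpow (by positivity) (by positivity), ← Real.rpow_mul hρ0.le]
          have h6 : lam ≤ (κ * p - k) / p := min_le_right _ _
          have e3 : -(κ * p - k) * (1 / p) = -((κ * p - k) / p) := by ring
          rw [e3]
          refine mul_le_mul_of_nonneg_left ?_ (by positivity)
          exact Real.rpow_le_rpow_of_exponent_le hρ1 (by linarith)
  -- the pieces
  have s1 : ∀ l ∈ Finset.range i,
      Nm k m p ρ (sm (ρ * (1 / 2) ^ (l + 1)) (piece G ((1 / 2) ^ (l + 1)))) +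
        Nm k m p ρ (fun z => piece G ((1 / 2) ^ (l + 1)) z -
          sm (ρ * (1 / 2) ^ (l + 1)) (piece G ((1 / 2) ^ (l + 1))) z) ≤
      ENNReal.ofReal ((C1 ^ (1 / p) + C2 ^ (1 / p)) * ρ ^ (-lam) * r ^ l) := by
    intro l hl
    rw [Finset.mem_range] at hl
    set w : ℝ := (1 / 2) ^ (l + 1) with hw
    have hw0 : 0 < w := by positivity
    have hw1 : w ≤ 1 := pow_le_one₀ (by norm_num) (by norm_num)
    have hw2 : 2 * w ≤ 1 := by
      have e1 : 2 * w = (1 / 2) ^ l := by rw [hw, pow_succ]; ring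
      rw [e1]
      exact pow_le_one₀ (by norm_num) (by norm_num)
    have hQ : 1 ≤ ρ * w := by
      have e1 : ρ * w = 2 ^ (i - (l + 1)) := by
        rw [hρ, hw]
        have e2 : i = (l + 1) + (i - (l + 1)) := by omega
        conv_lhs => rw [e2]
        rw [pow_add, one_div, inv_pow]
        field_simp
      rw [e1]
      exact one_le_pow₀ (by norm_num)
    have hpm := piece_meas G hG w
    have hpb : ∀ z, ‖piece G w z‖ ≤ 1 := ind_le G hb _
    have hz1 : ∀ (y : E m) (u : E k), wt y ≤ w → piece G w (pt (y, u)) = 0 := fun y u hy => by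
      rw [piece_pt, if_neg (fun hc => absurd hc.1 (not_lt.2 hy))]
    have hz2 : ∀ (y : E m) (u : E k), 2 * w < wt y → piece G w (pt (y, u)) = 0 := fun y u hy => by
      rw [piece_pt, if_neg (fun hc => absurd hc.2 (not_le.2 hy))]
    have hwr : w ^ c ≤ r ^ l := by
      have e1 : w ^ c = r ^ (l + 1) := by
        rw [hw, hr, ← Real.rpow_natCast, ← Real.rpow_natCast, ← Real.rpow_mul (by norm_num),
          ← Real.rpow_mul (by norm_num), mul_comm]
      rw [e1, pow_succ]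
      have := pow_pos hr0 l
      nlinarith
    have hρl : ∀ t : ℝ, lam ≤ t → ρ ^ (-t) ≤ ρ ^ (-lam) := fun t ht =>
      Real.rpow_le_rpow_of_exponent_le hρ1 (by linarith)
    have hwc : ∀ t : ℝ, c ≤ t → w ^ t ≤ w ^ c := fun t ht =>
      Real.rpow_le_rpow_of_exponent_ge hw0 hw1 ht
    have b1 : Nm k m p ρ (sm (ρ * w) (piece G w)) ≤
        ENNReal.ofReal (C1 ^ (1 / p) * (ρ ^ (-lam) * w ^ c)) := by
      unfold Nm
      calc _ ≤ (ENNReal.ofReal (C1 * (ρ ^ (-η) * w ^ (κ * p / 2)))) ^ (1 / p) :=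
            ENNReal.rpow_le_rpow (h1 ρ w hρ1 hw0 hw2 hQ _ hpm hpb hz1 hz2) hip
        _ = ENNReal.ofReal ((C1 * (ρ ^ (-η) * w ^ (κ * p / 2))) ^ (1 / p)) :=
            ENNReal.ofReal_rpow_of_nonneg (by positivity) hip
        _ ≤ _ := by
            apply ENNReal.ofReal_le_ofReal
            rw [Real.mul_rpow hC1.le (by positivity), Real.mul_rpow (by positivity) (by positivity),
              ← Real.rpow_mul hρ0.le, ← Real.rpow_mul hw0.le]
            have e1 : -η * (1 / p) = -(η / p) := by ring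
            have e2 : κ * p / 2 * (1 / p) = κ / 2 := by field_simp
            rw [e1, e2]
            exact mul_le_mul_of_nonneg_left (mul_le_mul
              (hρl _ ((min_le_left _ _).trans (min_le_left _ _)))
              (hwc _ (min_le_left _ _)) (by positivity) (by positivity)) (by positivity)
    have b2 : Nm k m p ρ (fun z => piece G w z - sm (ρ * w) (piece G w) z) ≤
        ENNReal.ofReal (C2 ^ (1 / p) * (ρ ^ (-lam) * w ^ c)) := by
      unfold Nm
      calc _ ≤ (ENNReal.ofReal (C2 * (w / ρ) ^ β)) ^ (1 / p) :=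
            ENNReal.rpow_le_rpow (h2 ρ w hρ0 hw0 hQ _ hpm hpb ((Sb_piece G s w).trans hSb)
              hz1 hz2) hip
        _ = ENNReal.ofReal ((C2 * (w / ρ) ^ β) ^ (1 / p)) :=
            ENNReal.ofReal_rpow_of_nonneg (by positivity) hip
        _ ≤ _ := by
            apply ENNReal.ofReal_le_ofReal
            rw [Real.mul_rpow hC2.le (by positivity), ← Real.rpow_mul (by positivity),
              div_eq_mul_inv w ρ, Real.mul_rpow hw0.le (by positivity), Real.inv_rpow hρ0.le,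
              ← Real.rpow_neg hρ0.le]
            have e1 : β * (1 / p) = β / p := by ring
            rw [e1, mul_comm (w ^ (β / p))]
            exact mul_le_mul_of_nonneg_left (mul_le_mul
              (hρl _ ((min_le_left _ _).trans (min_le_right _ _)))
              (hwc _ (min_le_right _ _)) (by positivity) (by positivity)) (by positivity)
    calc _ ≤ ENNReal.ofReal (C1 ^ (1 / p) * (ρ ^ (-lam) * w ^ c)) +
          ENNReal.ofReal (C2 ^ (1 / p) * (ρ ^ (-lam) * w ^ c)) := add_le_add b1 b2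
      _ = ENNReal.ofReal ((C1 ^ (1 / p) + C2 ^ (1 / p)) * ρ ^ (-lam) * w ^ c) := by
          rw [← ENNReal.ofReal_add (by positivity) (by positivity)]
          congr 1
          ring
      _ ≤ _ := by
          apply ENNReal.ofReal_le_ofReal
          gcongr
  have hr' : 0 < 1 - r := by linarith
  calc Nm k m p ρ G ≤ _ := decompose p ρ (by linarith) hρ0.le G hG hb i
    _ ≤ ENNReal.ofReal ((C3 * C4) ^ (1 / p) * ρ ^ (-lam)) +
        ∑ l ∈ Finset.range i, ENNReal.ofReal ((C1 ^ (1 / p) + C2 ^ (1 / p)) * ρ ^ (-lam) * r ^ l) :=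
        add_le_add s0 (Finset.sum_le_sum s1)
    _ ≤ ENNReal.ofReal ((C3 * C4) ^ (1 / p) * ρ ^ (-lam)) +
        ENNReal.ofReal ((C1 ^ (1 / p) + C2 ^ (1 / p)) * ρ ^ (-lam) / (1 - r)) := by
        gcongr
        exact geo_sum _ r (by positivity) hr0.le hr1 i
    _ = _ := by
        rw [← ENNReal.ofReal_add (by positivity) (by positivity)]
        congr 1
        ring

/-- the estimate, normalised -/
theorem total (k m : ℕ) (hk : 2 ≤ k) (hm : 1 ≤ m) (p γ P' s : ℝ) (hp : 2 < p)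
    (hMn : Mn k m p γ) (hα : γ < ((k : ℝ) - 1) * (p / 2 - 1))
    (hpP' : p < P') (hP' : 2 * ((((k + m : ℕ) : ℝ) + 1) / (((k + m : ℕ) : ℝ) - 1)) < P')
    (hs : 0 < s) (hβ : 0 < s * p / 2 - (P' - p) / (P' - 2)) :
    ∃ C : ℝ, 0 < C ∧ ∀ G : E (k + m) → ℂ, Measurable G → (∀ z, ‖G z‖ ≤ 1) →
    Sb G s ≤ 1 → ∫⁻ z, ‖T G z‖ₑ ^ p ≤ ENNReal.ofReal C := by
  obtain ⟨C1, lam, hC1, hlam, h1⟩ := shell k m hk hm p γ P' s hp hMn hα hpP' hP' hs hβ
  obtain ⟨C2, hC2, h2⟩ := cut_bound k m hk hm p hp.le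
  have hp0 : 0 < p := by linarith
  have hv : volume (closedBall (0 : E k) 2) ≠ ⊤ := measure_closedBall_lt_top.ne
  set v : ℝ := (volume (closedBall (0 : E k) 2)).toReal with hvd
  have hv0 : 0 ≤ v := ENNReal.toReal_nonneg
  have hv1 : volume (closedBall (0 : E k) 2) = ENNReal.ofReal v := by
    rw [hvd, ENNReal.ofReal_toReal hv]
  set r : ℝ := (2 : ℝ) ^ (-(lam * p)) with hr
  have hr0 : 0 < r := by positivity
  have hr1 : r < 1 := Real.rpow_lt_one_of_one_lt_of_neg (by norm_num) (by nlinarith)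
  have hr' : 0 < 1 - r := by linarith
  refine ⟨C2 * v + C1 ^ p / (1 - r), by positivity, fun G hG hb hSb => ?_⟩
  have hTm : Measurable (T G) := T_meas' G hG
  have hJm : Measurable fun q : E k × E m => J q.1 q.2 := (J_mp k m).measurable
  have hfm : Measurable fun q : E k × E m => ‖T G (J q.1 q.2)‖ₑ := (hTm.comp hJm).enorm
  have hm2 : Measurable fun z : E (k + m) => ‖T G z‖ₑ ^ p := hTm.enorm.pow_const p
  have hm3 : Measurable fun q : E k × E m => ‖T G (J q.1 q.2)‖ₑ ^ p := hfm.pow_const p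
  rw [← (J_mp k m).lintegral_comp hm2, lintegral_prod _ hm3.aemeasurable]
  set f : E k → ℝ≥0∞ := fun x => ∫⁻ y : E m, ‖T G (J x y)‖ₑ ^ p with hf
  have b0 : ∫⁻ x in closedBall (0 : E k) 2, f x ≤ ENNReal.ofReal (C2 * v) := by
    calc _ ≤ ∫⁻ _ in closedBall (0 : E k) 2, ENNReal.ofReal C2 := by
          refine lintegral_mono fun x => ?_
          have h5 := h2 G hG hb 1 one_pos x
          rwa [cut_one, one_pow, Real.one_rpow, mul_one] at h5
      _ = _ := by rw [setLIntegral_const, hv1, ← ENNReal.ofReal_mul hC2.le]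
  have b1 : ∀ i : ℕ, ∫⁻ x in Sh k (2 ^ i), f x ≤ ENNReal.ofReal (C1 ^ p * r ^ i) := by
    intro i
    have h5 := h1 G hG hb hSb i
    unfold Nm at h5
    have h6 := ENNReal.rpow_le_rpow h5 hp0.le
    rw [← ENNReal.rpow_mul, one_div_mul_cancel hp0.ne', ENNReal.rpow_one,
      ENNReal.ofReal_rpow_of_nonneg (by positivity) hp0.le] at h6
    refine h6.trans (ENNReal.ofReal_le_ofReal (le_of_eq ?_))
    rw [Real.mul_rpow hC1.le (by positivity)]
    congr 1
    rw [hr, ← Real.rpow_natCast 2 i, ← Real.rpow_natCast _ i, ← Real.rpow_mul (by norm_num),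
      ← Real.rpow_mul (by norm_num), ← Real.rpow_mul (by norm_num)]
    congr 1
    ring
  have hcov : ∫⁻ x, f x ≤ (∫⁻ x in closedBall (0 : E k) 2, f x) +
      ∑' i : ℕ, ∫⁻ x in Sh k (2 ^ i), f x := by
    have e1 : (univ : Set (E k)) ⊆ closedBall (0 : E k) 2 ∪ ⋃ i : ℕ, Sh k (2 ^ i) := by
      intro x _
      exact cover k x
    calc ∫⁻ x, f x = ∫⁻ x in univ, f x := by rw [setLIntegral_univ]
      _ ≤ ∫⁻ x in closedBall (0 : E k) 2 ∪ ⋃ i : ℕ, Sh k (2 ^ i), f x := lintegral_mono_set e1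
      _ ≤ (∫⁻ x in closedBall (0 : E k) 2, f x) + ∫⁻ x in ⋃ i : ℕ, Sh k (2 ^ i), f x :=
          lintegral_union_le _ _ _
      _ ≤ _ := by
          gcongr
          exact lintegral_iUnion_le _ _
  calc ∫⁻ x, f x ≤ _ := hcov
    _ ≤ ENNReal.ofReal (C2 * v) + ∑' i : ℕ, ENNReal.ofReal (C1 ^ p * r ^ i) :=
        add_le_add b0 (ENNReal.tsum_le_tsum b1)
    _ = _ := by
        rw [← ENNReal.ofReal_tsum_of_nonneg (fun i => by positivity)
          ((summable_geometric_of_lt_one hr0.le hr1).mul_left _), tsum_mul_left,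
          tsum_geometric_of_lt_one hr0.le hr1, ← ENNReal.ofReal_add (by positivity) (by positivity)]
        rfl

end Pool.Agent.Helper66x.AR
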