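import Mathlib
import Pool.Agent.Helper66x.AR.Tot
import Pool.Agent.Helper66x.AR.One
set_option autoImplicit false

/-! The estimate for all exponents. -/

namespace Pool.Agent.Helper66x.AR

open MeasureTheory Set Complex Metric
open scoped ENNReal RealInnerProductSpace
open Pool.Agent.H789R2.FR (E sg T sg_finite)
open Pool.Agent.H438R2.PD (T_meas' T_le)
open Pool.Agent.TH335.RF (RT stein_tomas)

variable {k m : ℕ}

/-- the normalised estimate -/
def HH (k m : ℕ) (s p : ℝ) : Prop := ∃ C : ℝ, 0 < C ∧ ∀ G : E (k + m) → ℂ, Measurable G →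
  (∀ z, ‖G z‖ ≤ 1) → Sb G s ≤ 1 → ∫⁻ z, ‖T G z‖ₑ ^ p ≤ ENNReal.ofReal C

theorem pow_lift {n : ℕ} (hn : 1 ≤ n) (p q : ℝ) (hp : 0 ≤ p) (hpq : p ≤ q) (C : ℝ) (hC : 0 < C) :
    ∃ C' : ℝ, 0 < C' ∧ ∀ G : E n → ℂ, (∀ z, ‖G z‖ ≤ 1) →
    ∫⁻ z, ‖T G z‖ₑ ^ p ≤ ENNReal.ofReal C → ∫⁻ z, ‖T G z‖ₑ ^ q ≤ ENNReal.ofReal C' := by
  set S : ℝ := (sg n).real univ with hS
  have hS0 : 0 < S := Pool.Agent.H438R2.BR.T7.sg_pos (by omega)
  refine ⟨S ^ (q - p) * C, by positivity, fun G hG h => ?_⟩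
  have hb : ∀ z, ‖T G z‖ₑ ≤ ENNReal.ofReal S := by
    intro z
    rw [← ofReal_norm]
    apply ENNReal.ofReal_le_ofReal
    have h1 := T_le G 1 hG z
    rwa [one_mul] at h1
  calc ∫⁻ z, ‖T G z‖ₑ ^ q ≤ ∫⁻ z, ENNReal.ofReal S ^ (q - p) * ‖T G z‖ₑ ^ p := by
        refine lintegral_mono fun z => ?_
        have h1 : ‖T G z‖ₑ ^ q = ‖T G z‖ₑ ^ (q - p) * ‖T G z‖ₑ ^ p := by
          rw [← ENNReal.rpow_add_of_nonneg _ _ (by linarith) hp]
          congr 1
          ring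
        rw [h1]
        exact mul_le_mul_left (ENNReal.rpow_le_rpow (hb z) (by linarith)) _
    _ = ENNReal.ofReal S ^ (q - p) * ∫⁻ z, ‖T G z‖ₑ ^ p := by
        rw [lintegral_const_mul']
        exact ENNReal.rpow_ne_top_of_nonneg (by linarith) ENNReal.ofReal_ne_top
    _ ≤ ENNReal.ofReal S ^ (q - p) * ENNReal.ofReal C := by gcongr
    _ = _ := by
        rw [ENNReal.ofReal_rpow_of_nonneg hS0.le (by linarith), ← ENNReal.ofReal_mul (by positivity)]

theorem HH_lift (hk : 2 ≤ k) (s p q : ℝ) (hp : 0 ≤ p) (hpq : p ≤ q) (h : HH k m s p) :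
    HH k m s q := by
  obtain ⟨C, hC, h⟩ := h
  obtain ⟨C', hC', h'⟩ := pow_lift (n := k + m) (by omega) p q hp hpq C hC
  exact ⟨C', hC', fun G hG hb hS => h' G hb (h G hG hb hS)⟩

theorem RT_lift (n : ℕ) (hn : 1 ≤ n) (p q : ℝ) (hp : 0 ≤ p) (hpq : p ≤ q) (h : RT n p) :
    RT n q := by
  obtain ⟨C, hC, h⟩ := h
  obtain ⟨C', hC', h'⟩ := pow_lift (n := n) hn p q hp hpq C hC
  exact ⟨C', hC', fun G hG hb => h' G hb (h G hG hb)⟩

/-- below the exponent of Stein and Tomas -/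
theorem HH_of_Mn (hk : 2 ≤ k) (hm : 1 ≤ m) (s p γ : ℝ) (hs : 0 < s) (hp : 2 < p)
    (hMn : Mn k m p γ) (hα : γ < ((k : ℝ) - 1) * (p / 2 - 1))
    (h1 : 2 * ((k : ℝ) + m + 1) / ((k : ℝ) + m - 1 + 2 * s) < p)
    (h2 : p < 2 * ((k : ℝ) + m + 1) / ((k : ℝ) + m - 1)) : HH k m s p := by
  have hk2 : (2 : ℝ) ≤ k := by exact_mod_cast hk
  have hm1 : (1 : ℝ) ≤ m := by exact_mod_cast hm
  set N : ℝ := (k : ℝ) + m with hN
  have hN1 : 0 < N - 1 := by linarith
  set P0 : ℝ := 2 * (N + 1) / (N - 1) with hP0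
  have hP02 : P0 - 2 = 4 / (N - 1) := by rw [hP0]; field_simp; ring
  have hP02' : 0 < P0 - 2 := by rw [hP02]; positivity
  set a : ℝ := (P0 - p) / (P0 - 2) with ha
  have ha0 : 0 < a := div_pos (by linarith) hP02'
  have ha1 : a < 1 := by rw [ha, div_lt_one hP02']; linarith
  have hab : a < s * p / 2 := by
    have e1 : a = (N + 1) / 2 - p * (N - 1) / 4 := by
      rw [ha, hP02, hP0]
      field_simp
      ring
    rw [div_lt_iff₀ (by linarith)] at h1
    rw [e1]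
    nlinarith
  obtain ⟨x, hx1, hx2⟩ := exists_between (lt_min hab ha1)
  have hxb : x < s * p / 2 := lt_of_lt_of_le hx2 (min_le_left _ _)
  have hx11 : x < 1 := lt_of_lt_of_le hx2 (min_le_right _ _)
  have hx0 : 0 < x := ha0.trans hx1
  set P' : ℝ := 2 + (p - 2) / (1 - x) with hP'
  have h1x : 0 < 1 - x := by linarith
  have hP'2 : P' - 2 = (p - 2) / (1 - x) := by rw [hP']; ring
  have hpP' : p < P' := by
    have : p - 2 < (p - 2) / (1 - x) := by
      rw [lt_div_iff₀ h1x]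
      nlinarith
    linarith
  have hfx : (P' - p) / (P' - 2) = x := by
    have e2 : P' - p = (p - 2) / (1 - x) - (p - 2) := by rw [hP']; ring
    rw [hP'2, e2]
    have : p - 2 ≠ 0 := by linarith
    field_simp
    ring
  have hP0P' : P0 < P' := by
    have e3 : P0 - 2 = (p - 2) / (1 - a) := by
      have : 1 - a = (p - 2) / (P0 - 2) := by
        rw [ha]
        field_simp
        ring
      rw [this]
      have : p - 2 ≠ 0 := by linarith
      field_simp
    have h1a : 0 < 1 - a := by linarith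
    have e4 : (p - 2) / (1 - a) < (p - 2) / (1 - x) :=
      div_lt_div_of_pos_left (by linarith) h1x (by linarith)
    linarith
  refine total k m hk hm p γ P' s hp hMn hα hpP' ?_ hs ?_
  · refine lt_of_le_of_lt (le_of_eq ?_) hP0P'
    rw [hP0, hN]
    push_cast
    ring
  · rw [hfx]
    linarith

theorem p0_lt (N s : ℝ) (hN : 1 < N) (hs : 0 < s) :
    2 * (N + 1) / (N - 1 + 2 * s) < 2 * (N + 1) / (N - 1) :=
  div_lt_div_of_pos_left (by linarith) (by linarith) (by linarith)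

/-- one rough coordinate -/
theorem HH_one (hk : 2 ≤ k) (s p : ℝ) (hs : 0 < s)
    (h0 : 2 * ((k : ℝ) + 1) / k < p)
    (h1 : 2 * ((k : ℝ) + 2) / ((k : ℝ) + 2 * s) < p) : HH k 1 s p := by
  have hk2 : (2 : ℝ) ≤ k := by exact_mod_cast hk
  set P0 : ℝ := 2 * ((k : ℝ) + 2) / k with hP0
  have i1 : 2 * ((k : ℝ) + 1) / k < P0 := by
    rw [hP0]
    gcongr
    linarith
  have i2 : 2 * ((k : ℝ) + 2) / ((k : ℝ) + 2 * s) < P0 := by
    rw [hP0]
    exact div_lt_div_of_pos_left (by linarith) (by linarith) (by linarith)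
  have i3 : P0 ≤ 4 := by
    rw [hP0, div_le_iff₀ (by linarith)]
    linarith
  obtain ⟨q, hq1, hq2⟩ := exists_between (max_lt (lt_min h0 i1) (lt_min h1 i2))
  have j1 : 2 * ((k : ℝ) + 1) / k < q := lt_of_le_of_lt (le_max_left _ _) hq1
  have j2 : 2 * ((k : ℝ) + 2) / ((k : ℝ) + 2 * s) < q := lt_of_le_of_lt (le_max_right _ _) hq1
  have j3 : q < p := lt_of_lt_of_le hq2 (min_le_left _ _)
  have j4 : q < P0 := lt_of_lt_of_le hq2 (min_le_right _ _)
  have hq2' : 2 < q := by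
    refine lt_of_le_of_lt ?_ j1
    rw [le_div_iff₀ (by linarith)]
    linarith
  refine HH_lift hk s q p (by linarith) j3.le ?_
  have j5 : (4 - q) / 2 < ((k : ℝ) - 1) * (q / 2 - 1) := by
    rw [div_lt_iff₀ (by linarith)] at j1
    nlinarith
  obtain ⟨γ, hγ1, hγ2⟩ := exists_between j5
  refine HH_of_Mn hk le_rfl s q γ hs hq2' (Mn_one k hk q γ hq2' (by linarith) hγ1) hγ2 ?_ ?_
  · push_cast
    have e1 : (k : ℝ) + 1 + 1 = k + 2 := by ring
    have e2 : (k : ℝ) + 1 - 1 = k := by ring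
    rw [e1, e2]
    exact j2
  · push_cast
    have e1 : (k : ℝ) + 1 + 1 = k + 2 := by ring
    have e2 : (k : ℝ) + 1 - 1 = k := by ring
    rw [e1, e2]
    exact j4

/-- a restriction estimate for the sphere of the rough coordinates, small exponents -/
theorem HH_RT_small (hk : 2 ≤ k) (hm : 1 ≤ m) (s p P : ℝ) (hs : 0 < s) (hp : 2 < p) (hpP : p < P)
    (hRT : RT (1 + m) P) (h : 1 < (p - 2) * (((k : ℝ) - 1) / 2 + 1 / (P - 2)))
    (h1 : 2 * ((k : ℝ) + m + 1) / ((k : ℝ) + m - 1 + 2 * s) < p)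
    (h2 : p < 2 * ((k : ℝ) + m + 1) / ((k : ℝ) + m - 1)) : HH k m s p := by
  refine HH_of_Mn hk hm s p _ hs hp (Mn_of_RT k m hk hm p P hp hpP hRT) ?_ h1 h2
  have hP2 : 0 < P - 2 := by linarith
  have e1 : (P - p) / (P - 2) = 1 - (p - 2) * (1 / (P - 2)) := by
    field_simp
    ring
  rw [e1]
  nlinarith

/-- the range of Stein and Tomas for the rough coordinates -/
theorem HH_ST (hk : 2 ≤ k) (hm : 1 ≤ m) (s p : ℝ) (hs : 0 < s)
    (h0 : 2 + 4 / (2 * (k : ℝ) + m - 2) < p)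
    (h1 : 2 * ((k : ℝ) + m + 1) / ((k : ℝ) + m - 1 + 2 * s) < p) : HH k m s p := by
  have hk2 : (2 : ℝ) ≤ k := by exact_mod_cast hk
  have hm1 : (1 : ℝ) ≤ m := by exact_mod_cast hm
  set P0 : ℝ := 2 * ((k : ℝ) + m + 1) / ((k : ℝ) + m - 1) with hP0
  have i1 : 2 + 4 / (2 * (k : ℝ) + m - 2) < P0 := by
    have e1 : P0 = 2 + 4 / ((k : ℝ) + m - 1) := by
      rw [hP0]
      have : (k : ℝ) + m - 1 ≠ 0 := by linarith
      field_simp
      ring
    rw [e1]
    have : 4 / (2 * (k : ℝ) + m - 2) < 4 / ((k : ℝ) + m - 1) :=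
      div_lt_div_of_pos_left (by linarith) (by linarith) (by linarith)
    linarith
  have i2 := p0_lt ((k : ℝ) + m) s (by linarith) hs
  obtain ⟨q, hq1, hq2⟩ := exists_between (max_lt (lt_min h0 i1) (lt_min h1 i2))
  have j1 : 2 + 4 / (2 * (k : ℝ) + m - 2) < q := lt_of_le_of_lt (le_max_left _ _) hq1
  have j2 := lt_of_le_of_lt (le_max_right _ _) hq1
  have j3 : q < p := lt_of_lt_of_le hq2 (min_le_left _ _)
  have j4 : q < P0 := lt_of_lt_of_le hq2 (min_le_right _ _)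
  have hd : 0 < 2 * (k : ℝ) + m - 2 := by linarith
  have hq2' : 2 < q := by
    have : 0 < 4 / (2 * (k : ℝ) + m - 2) := by positivity
    linarith
  have hq0 : 0 < q - 2 := by linarith
  refine HH_lift hk s q p (by linarith) j3.le ?_
  -- choice of `P`
  have k1 : 1 / (q - 2) - ((k : ℝ) - 1) / 2 < m / 4 := by
    have h3 : 4 / (2 * (k : ℝ) + m - 2) < q - 2 := by linarith
    rw [div_lt_iff₀ hd] at h3
    have h4 : 1 / (q - 2) < (2 * (k : ℝ) + m - 2) / 4 := by
      rw [div_lt_iff₀ hq0]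
      linarith
    linarith
  have k2 : 1 / (q - 2) - ((k : ℝ) - 1) / 2 < 1 / (q - 2) := by linarith
  have k3 : (0 : ℝ) < m / 4 := by positivity
  have k4 : 0 < 1 / (q - 2) := by positivity
  obtain ⟨v, hv1, hv2⟩ := exists_between (max_lt (lt_min k1 k2) (lt_min k3 k4))
  have l1 := lt_of_le_of_lt (le_max_left _ _) hv1
  have l2 : 0 < v := lt_of_le_of_lt (le_max_right _ _) hv1
  have l3 : v < m / 4 := lt_of_lt_of_le hv2 (min_le_left _ _)
  have l4 : v < 1 / (q - 2) := lt_of_lt_of_le hv2 (min_le_right _ _)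
  refine HH_RT_small hk hm s q (2 + 1 / v) hs hq2' ?_ ?_ ?_ j2 j4
  · have : q - 2 < 1 / v := by
      rw [lt_div_iff₀ l2]
      rw [lt_div_iff₀ hq0] at l4
      linarith
    linarith
  · apply stein_tomas (1 + m) (by omega)
    push_cast
    have e1 : 2 * (1 + (m : ℝ) + 1) / (1 + (m : ℝ) - 1) = 2 + 4 / m := by
      have : (m : ℝ) ≠ 0 := by positivity
      have e2 : 1 + (m : ℝ) - 1 = m := by ring
      rw [e2]
      field_simp
      ring
    rw [e1]
    have : 4 / (m : ℝ) < 1 / v := by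
      rw [lt_div_iff₀ l2]
      have hm0 : (0 : ℝ) < m := by positivity
      rw [div_mul_eq_mul_div, div_lt_iff₀ hm0]
      linarith
    linarith
  · rw [add_sub_cancel_left, one_div_one_div]
    have h4 : 1 / (q - 2) < ((k : ℝ) - 1) / 2 + v := by linarith
    rw [div_lt_iff₀ hq0] at h4
    rw [mul_comm]
    exact h4

/-- a restriction estimate for the sphere of the rough coordinates -/
theorem HH_RT (hk : 2 ≤ k) (hm : 1 ≤ m) (s p P : ℝ) (hs : 0 < s) (hP : 2 < P)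
    (hRT : RT (1 + m) P) (h : 1 < (p - 2) * (((k : ℝ) - 1) / 2 + 1 / (P - 2)))
    (h1 : 2 * ((k : ℝ) + m + 1) / ((k : ℝ) + m - 1 + 2 * s) < p) : HH k m s p := by
  have hk2 : (2 : ℝ) ≤ k := by exact_mod_cast hk
  have hm1 : (1 : ℝ) ≤ m := by exact_mod_cast hm
  have hD : 0 < ((k : ℝ) - 1) / 2 + 1 / (P - 2) := by
    have i1 : 0 < 1 / (P - 2) := one_div_pos.2 (by linarith)
    have i2 : 0 < ((k : ℝ) - 1) / 2 := by linarith
    linarith
  have hp : 2 < p := by
    by_contra hc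
    have : (p - 2) * (((k : ℝ) - 1) / 2 + 1 / (P - 2)) ≤ 0 :=
      mul_nonpos_of_nonpos_of_nonneg (by linarith) hD.le
    linarith
  have hp0 : 0 < p - 2 := by linarith
  rcases lt_or_ge p (2 * ((k : ℝ) + m + 1) / ((k : ℝ) + m - 1)) with h2 | h2
  · rcases lt_or_ge p P with h3 | h3
    · exact HH_RT_small hk hm s p P hs hp h3 hRT h h1 h2
    · -- raise `P`
      have k2 : 1 / (p - 2) - ((k : ℝ) - 1) / 2 < 1 / (p - 2) := by linarith
      have k4 : 0 < 1 / (p - 2) := by positivity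
      obtain ⟨v, hv1, hv2⟩ := exists_between (max_lt k2 k4)
      have l1 := lt_of_le_of_lt (le_max_left _ _) hv1
      have l2 : 0 < v := lt_of_le_of_lt (le_max_right _ _) hv1
      have l5 : p < 2 + 1 / v := by
        have : p - 2 < 1 / v := by
          rw [lt_div_iff₀ l2]
          rw [lt_div_iff₀ hp0] at hv2
          linarith
        linarith
      refine HH_RT_small hk hm s p (2 + 1 / v) hs hp l5
        (RT_lift (1 + m) (by omega) P _ (by linarith) (by linarith) hRT) ?_ h1 h2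
      rw [add_sub_cancel_left, one_div_one_div]
      have h4 : 1 / (p - 2) < ((k : ℝ) - 1) / 2 + v := by linarith
      rw [div_lt_iff₀ hp0] at h4
      rw [mul_comm]
      exact h4
  · refine HH_ST hk hm s p hs (lt_of_lt_of_le ?_ h2) h1
    have e1 : 2 * ((k : ℝ) + m + 1) / ((k : ℝ) + m - 1) = 2 + 4 / ((k : ℝ) + m - 1) := by
      have : (k : ℝ) + m - 1 ≠ 0 := by linarith
      field_simp
      ring
    rw [e1]
    have : 4 / (2 * (k : ℝ) + m - 2) < 4 / ((k : ℝ) + m - 1) :=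
      div_lt_div_of_pos_left (by linarith) (by linarith) (by linarith)
    linarith

end Pool.Agent.Helper66x.AR
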